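import Pool.Agent.H6.FIB.TargetsP

/-!
# MP_7500ea_al, board fib_modules: assembly P (products of almost simple groups)
-/

open scoped Classical ComplexConjugate

namespace FI

open AMc AMt

theorem ag_mk {Γ X A : Type} [Group Γ] [Group X] [Group A] {Z : Subgroup Γ} {q : Γ →* X}
    (hq : CExt Z q) {S : Subgroup A} {L : Subgroup X} [hL : L.Normal] {γ : X →* A}
    (hγ : Function.Surjective γ) (hi : L ⊓ γ.ker = ⊥) (hm : L.map γ = S) :
    AG S Z (L.comap q) (γ.ker.comap q) (γ.comp q) := by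
  constructor
  · exact hq.cen
  · exact hL.comap q
  · intro g
    rfl
  · rw [← Subgroup.comap_inf, hi]
    ext x
    rw [Subgroup.mem_comap, Subgroup.mem_bot]
    exact hq.ker x
  · rw [← Subgroup.map_map, Subgroup.map_comap_eq_self_of_surjective hq.sur, hm]
  · exact hγ.comp hq.sur

theorem fin_split {α : Type} {s t : Set α} (hs : s.Finite) (ht : t ⊆ s) (f : α → ℝ) :
    ∑ᶠ x ∈ s, f x = ∑ᶠ x ∈ t, f x + ∑ᶠ x ∈ s \ t, f x := by
  rw [← finsum_mem_union Set.disjoint_sdiff_right (hs.subset ht) hs.sdiff,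
    Set.union_sdiff_cancel ht]

/-- the inequality for central extensions of groups with trivial radical -/
theorem cenP (PCL : T_PCL) (PST : T_PST) (PSK : T_PSK) (PEC : T_PEC) (CVT : T_CVT)
    (PKC : T_PKC) (PKI : T_PKI) (ORB : T_ORB) (PIX : T_PIX)
    (KKP : T_KKP) (CLF : T_CLF) (DGL : T_DGL) (CPR : T_CPR) (ABL : T_ABL)
    (e : ℝ) (he : 1 ≤ e) (𝒜 : (A : Type) → [Group A] → Prop) (h𝒜 : Cls e 𝒜)
    (X : Type) [Group X] [Finite X] (hX : KA 𝒜 X) (hs : sol X = ⊥)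
    (hD : ∀ n, n < Nat.card X → Delta (fun X [Group X] => KA 𝒜 X) e n)
    (Γ : Type) [Group Γ] [Fintype Γ] (Z : Subgroup Γ) (q : Γ →* X) (hq : CExt Z q)
    (ν : Γ → ℂ) (hν : ν ∈ IrrS Z) : (Nat.card X : ℝ) ^ (1 / e) * kk ⊤ ν ≤ dd ⊤ ν := by
  have he0 : 0 < e := by linarith
  have hclo := PCL e 𝒜 h𝒜
  by_cases hnt : Nontrivial X
  swap
  · rw [not_nontrivial_iff_subsingleton] at hnt
    have h1 : Nat.card X = 1 := Nat.card_of_subsingleton 1
    rw [h1, Nat.cast_one, Real.one_rpow, one_mul]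
    exact (KKP Γ Z ⊤ le_top ν hν).2.2
  obtain ⟨A, _, _, S, L, hL, γ, hA, hAl, hCh, hγ, hi, hm, hKL⟩ := PST e 𝒜 h𝒜 X hX hs
  obtain ⟨s1, s2, s3, s4, s5, s6, s7⟩ := PSK X A S L γ hs hAl hγ hi hm
  have hAG := ag_mk hq hγ hi hm
  obtain ⟨a1, a2, a3, a4, a5, a6⟩ := PEC Γ A S Z _ _ _ hAl hAG
  obtain ⟨b1, b2⟩ := CVT e A S hAl hCh Γ Z _ _ _ hAG ν hν
  generalize hc : (Nat.card γ.ker : ℝ) ^ (1 / e) = c
  have hc0 : 0 ≤ c := by rw [← hc]; positivity
  have hMn : NIn (L.comap q) ⊤ := ⟨le_top, fun u _ g hg => hAG.nor.conj_mem g hg u⟩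
  have hZM : Z ≤ L.comap q := by rw [← hAG.inf]; exact inf_le_left
  have hZC : Z ≤ γ.ker.comap q := by rw [← hAG.inf]; exact inf_le_right
  have hZn : NIn Z ⊤ := ⟨le_top, fun u _ g hg => by
    rw [← hAG.cen g hg u, mul_inv_cancel_right]; exact hg⟩
  have hνinv : ∀ u : Γ, cj u ν = ν := by
    intro u
    funext g
    simp only [cj]
    by_cases hg : g ∈ Z
    · rw [← hAG.cen g hg u, mul_inv_cancel_right]
    · obtain ⟨ψ, hψ, rfl⟩ := hν
      rw [ext0, ext0, dif_neg hg, dif_neg]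
      intro h
      apply hg
      have h2 := hAG.cen _ h u
      have h3 : g = u * g * u⁻¹ := by
        have : u * g * u⁻¹ * u = u * (u * g * u⁻¹) := h2
        rw [inv_mul_cancel_right] at this
        exact mul_left_cancel this
      rw [h3]; exact h
  -- the characters of C
  have hdC : c * kk (γ.ker.comap q) ν ≤ dd (γ.ker.comap q) ν := by
    have h1 := hD _ s4 Γ Z (γ.ker.comap q) ⟨hZC, fun u _ g hg => by
      rw [← hAG.cen g hg u, mul_inv_cancel_right]; exact hg⟩ ν hν (fun u _ => hνinv u) γ.ker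
      ((q.comp (γ.ker.comap q).subtype).codRestrict γ.ker (fun x => x.2)) (by
        rintro ⟨y, hy⟩
        obtain ⟨x, hx⟩ := hq.sur y
        refine ⟨⟨x, ?_⟩, Subtype.ext hx⟩
        change q x ∈ γ.ker
        rw [hx]; exact hy) (by
        intro x
        rw [← hq.ker]
        exact Subtype.ext_iff) (hclo.sub _ _ γ.ker.subtype γ.ker.subtype_injective hX) le_rfl
    have h2 : (ν 1).re = 1 := by
      rw [(ABL Γ Z (fun a ha b _ => hAG.cen a ha b) ν hν).1, Complex.one_re]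
    rw [s1, Subgroup.index_bot, h2, mul_one, hc] at h1
    exact h1
  set M := L.comap q with hMdef
  set C := γ.ker.comap q with hCdef
  rw [s7]
  push_cast
  rw [Real.mul_rpow (by positivity) (by positivity), hc]
  by_cases hidx : S.index = 1
  · -- `Γ = M C`
    have hSt : S = ⊤ := Subgroup.index_eq_one.1 hidx
    have hMC : M ⊔ C = ⊤ := Subgroup.index_eq_one.1 (by rw [a3, hidx])
    obtain ⟨k1, k2⟩ := CPR Γ Z _ _ hMC hAG.inf a1 ν hν
    have hcard : Nat.card S = Nat.card A := by rw [hSt]; exact Subgroup.card_top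
    rw [hcard] at b1
    rw [k1, k2]
    push_cast
    have h3 : (0 : ℝ) ≤ kk M ν := Nat.cast_nonneg _
    have h4 : (0 : ℝ) ≤ kk C ν := Nat.cast_nonneg _
    have h5 : 0 ≤ c * kk C ν := mul_nonneg hc0 h4
    have h6 : (0 : ℝ) ≤ (Nat.card A : ℝ) ^ (1 / e) := by positivity
    calc c * (Nat.card A : ℝ) ^ (1 / e) * (kk M ν * kk C ν)
        = ((Nat.card A : ℝ) ^ (1 / e) * kk M ν) * (c * kk C ν) := by ring
      _ ≤ dd M ν * dd C ν := mul_le_mul b1 hdC h5 ((mul_nonneg h6 h3).trans b1)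
  · -- index a prime number
    have hpr : S.index.Prime := hAl.idx.resolve_left hidx
    obtain ⟨b3, b4⟩ := b2 hidx
    set u := (Nat.card A : ℝ) ^ (1 / e) with hu
    have hp0 : (0 : ℝ) < S.index := by exact_mod_cast hpr.pos
    have hkM : ∀ x : Γ, (QuotientGroup.mk' L) (q x) = 1 ↔ x ∈ M := by
      intro x
      rw [← MonoidHom.mem_ker, QuotientGroup.ker_mk', hMdef, Subgroup.mem_comap]
    -- characters of `Γ` over invariant characters of `M`
    have hT : ∀ φ ∈ IrrS M, (∀ g, cj g φ = φ) → c * (φ 1).re * kk ⊤ φ ≤ dd ⊤ φ := by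
      intro φ hφ hinv
      have h1 := hD _ s5 Γ M ⊤ hMn φ hφ (fun u _ => hinv u) (X ⧸ L)
        ((QuotientGroup.mk' L).comp (q.comp (⊤ : Subgroup Γ).subtype)) (by
          intro y
          obtain ⟨x, rfl⟩ := QuotientGroup.mk'_surjective L y
          obtain ⟨g, rfl⟩ := hq.sur x
          exact ⟨⟨g, trivial⟩, rfl⟩) (fun x => hkM x) hKL le_rfl
      refine le_trans ?_ h1
      have h2 : c ≤ ((sol (X ⧸ L)).index : ℝ) ^ (1 / e) := by
        rw [← hc]
        exact Real.rpow_le_rpow (by positivity) (by exact_mod_cast s6) (by positivity)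
      have h3 : 0 ≤ (φ 1).re := ((DGL Γ M ⊤ hMn).1 φ hφ).le
      exact mul_le_mul_of_nonneg_right (mul_le_mul_of_nonneg_right h2 h3) (Nat.cast_nonneg _)
    -- characters of `M C`
    have hU : ∀ φ ∈ IrrS M, (∀ g ∈ M ⊔ C, cj g φ = φ) →
        c * (φ 1).re * kk (M ⊔ C) φ ≤ dd (M ⊔ C) φ := by
      intro φ hφ hinv
      have hMC : ∀ x ∈ M ⊔ C, (QuotientGroup.mk' L) (q x) ∈ γ.ker.map (QuotientGroup.mk' L) := by
        intro x hx
        have hmn := hAG.nor
        obtain ⟨m, hm, c', hc', rfl⟩ := Subgroup.mem_sup_of_normal_left.1 hx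
        rw [map_mul, map_mul, (hkM m).2 hm, one_mul]
        exact ⟨q c', hc', rfl⟩
      have h1 := hD (Nat.card (γ.ker.map (QuotientGroup.mk' L))) (by rw [s3]; exact s4) Γ M (M ⊔ C)
        ⟨le_sup_left, fun u _ g hg => hAG.nor.conj_mem g hg u⟩ φ hφ hinv
        (γ.ker.map (QuotientGroup.mk' L))
        (((QuotientGroup.mk' L).comp (q.comp (M ⊔ C).subtype)).codRestrict _
          (fun x => hMC x x.2)) (by
          rintro ⟨y, x, hx, rfl⟩
          obtain ⟨g, rfl⟩ := hq.sur x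
          exact ⟨⟨g, (le_sup_right : C ≤ M ⊔ C) hx⟩, rfl⟩) (by
          intro x
          rw [← hkM]
          exact Subtype.ext_iff)
        (hclo.sub _ _ (γ.ker.map (QuotientGroup.mk' L)).subtype (Subgroup.subtype_injective _)
          hKL)
        le_rfl
      rw [s2, Subgroup.index_bot, s3, hc] at h1
      exact h1
    -- the two kinds of characters
    have hI : ∀ φ ∈ InvC M ν, (stab ⊤ φ).index = 1 := by
      intro φ hφ
      rw [Subgroup.index_eq_one, eq_top_iff]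
      intro g _
      exact ⟨trivial, hφ.2 g⟩
    have hJ : ∀ φ ∈ Ab M ν \ InvC M ν, (stab ⊤ φ).index = S.index ∧ kk ⊤ φ = kk C ν ∧
        S.index * (c * (φ 1).re * kk C ν) ≤ dd ⊤ φ := by
      rintro φ ⟨hφ, hφ'⟩
      have hle : M ⊔ C ≤ stab ⊤ φ := by
        apply sup_le (CLF Γ M ⊤ hMn φ hφ.1).1
        intro x hx
        refine ⟨trivial, ?_⟩
        funext g
        simp only [cj]
        by_cases hg : g ∈ M
        · rw [← a1 g hg x hx, mul_inv_cancel_right]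
        · obtain ⟨ψ, hψ, hψφ⟩ := hφ.1
          rw [← hψφ, ext0, ext0, dif_neg hg, dif_neg]
          intro h
          apply hg
          have := hAG.nor.conj_mem _ h x⁻¹
          have h4 : x⁻¹ * (x * g * x⁻¹) * x⁻¹⁻¹ = g := by group
          rwa [h4] at this
      have hne : stab ⊤ φ ≠ ⊤ := by
        intro h
        apply hφ'
        refine ⟨hφ, fun g => ?_⟩
        have : g ∈ stab ⊤ φ := by rw [h]; trivial
        exact this.2
      have hidx' := Subgroup.relIndex_mul_index hle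
      rw [a3] at hidx'
      have hi1 : (stab ⊤ φ).index ≠ 1 := fun h => hne (Subgroup.index_eq_one.1 h)
      have hi2 : (stab ⊤ φ).index = S.index := by
        rcases (Nat.dvd_prime hpr).1 (Dvd.intro_left _ hidx') with h | h
        · exact absurd h hi1
        · exact h
      rw [hi2] at hidx'
      have hi3 : (M ⊔ C).relIndex (stab ⊤ φ) = 1 :=
        Nat.eq_of_mul_eq_mul_right hpr.pos (by rw [hidx', one_mul])
      have heq : stab ⊤ φ = M ⊔ C := le_antisymm (Subgroup.relIndex_eq_one.1 hi3) hle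
      obtain ⟨-, c2, c3⟩ := CLF Γ M ⊤ hMn φ hφ.1
      have h5 := hU φ hφ.1 (fun g hg => by
        have : g ∈ stab ⊤ φ := by rw [heq]; exact hg
        exact this.2)
      have h6 := PKC Γ A S Z M C _ hAl hAG ν hν φ hφ
      rw [heq] at c2
      rw [Subgroup.relIndex_top_right, hi2, heq] at c3
      rw [h6] at h5 c2
      refine ⟨hi2, c2.symm, ?_⟩
      rw [c3]
      exact mul_le_mul_of_nonneg_left h5 hp0.le
    obtain ⟨hfin, -, -⟩ := KKP Γ Z M hZM ν hν
    have hsub : InvC M ν ⊆ Ab M ν := fun φ hφ => hφ.1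
    obtain ⟨o1, o2⟩ := ORB Γ Z M hZM hZn hMn ν hν hνinv
    rw [fin_split hfin hsub] at o1 o2
    have hκ : ∃ κ : ℝ, 0 ≤ κ ∧ κ ≤ S.index * kk C ν ∧ (∀ φ ∈ InvC M ν, (kk ⊤ φ : ℝ) = κ) := by
      by_cases hne : (InvC M ν).Nonempty
      · obtain ⟨φ0, hφ0⟩ := hne
        refine ⟨kk ⊤ φ0, Nat.cast_nonneg _, ?_, ?_⟩
        · have h1 := PIX Γ M (M ⊔ C) le_sup_left φ0 hφ0.1.1
          rw [a3, PKC Γ A S Z M C _ hAl hAG ν hν φ0 hφ0.1] at h1
          exact_mod_cast h1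
        · intro φ hφ
          exact_mod_cast PKI Γ A S Z M C _ hAl hAG hpr ν hν φ hφ φ0 hφ0
      · refine ⟨0, le_rfl, by positivity, fun φ hφ => absurd ⟨φ, hφ⟩ hne⟩
    obtain ⟨κ, hκ0, hκ1, hκ2⟩ := hκ
    set κC : ℝ := ((kk C ν : ℕ) : ℝ) with hκC
    have hκC0 : 0 ≤ κC := Nat.cast_nonneg _
    have e1 : ∑ᶠ φ ∈ InvC M ν, (kk ⊤ φ : ℝ) / (stab ⊤ φ).index = (InvC M ν).ncard * κ := by
      rw [finsum_mem_congr rfl (fun φ hφ => by rw [hI φ hφ, hκ2 φ hφ, Nat.cast_one, div_one] :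
        ∀ φ ∈ InvC M ν, (kk ⊤ φ : ℝ) / (stab ⊤ φ).index = κ)]
      rw [finsum_mem_eq_finite_toFinset_sum _ (hfin.subset hsub), Finset.sum_const,
        nsmul_eq_mul, Set.ncard_eq_toFinset_card _ (hfin.subset hsub)]
    have e2 : ∑ᶠ φ ∈ Ab M ν \ InvC M ν, (kk ⊤ φ : ℝ) / (stab ⊤ φ).index =
        (Ab M ν \ InvC M ν).ncard * (κC / S.index) := by
      rw [finsum_mem_congr rfl (fun φ hφ => by
        rw [(hJ φ hφ).1, (hJ φ hφ).2.1] :
        ∀ φ ∈ Ab M ν \ InvC M ν, (kk ⊤ φ : ℝ) / (stab ⊤ φ).index = κC / S.index)]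
      rw [finsum_mem_eq_finite_toFinset_sum _ hfin.sdiff, Finset.sum_const,
        nsmul_eq_mul, Set.ncard_eq_toFinset_card _ hfin.sdiff]
    have e3 : c * κ * ∑ᶠ φ ∈ InvC M ν, (φ 1).re ≤
        ∑ᶠ φ ∈ InvC M ν, dd ⊤ φ / (stab ⊤ φ).index := by
      rw [finsum_mem_eq_finite_toFinset_sum _ (hfin.subset hsub),
        finsum_mem_eq_finite_toFinset_sum _ (hfin.subset hsub), Finset.mul_sum]
      apply Finset.sum_le_sum
      intro φ hφ
      rw [Set.Finite.mem_toFinset] at hφ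
      rw [hI φ hφ, Nat.cast_one, div_one]
      have h1 := hT φ hφ.1.1 hφ.2
      rw [hκ2 φ hφ] at h1
      linarith
    have e4 : c * κC * ∑ᶠ φ ∈ Ab M ν \ InvC M ν, (φ 1).re ≤
        ∑ᶠ φ ∈ Ab M ν \ InvC M ν, dd ⊤ φ / (stab ⊤ φ).index := by
      rw [finsum_mem_eq_finite_toFinset_sum _ hfin.sdiff,
        finsum_mem_eq_finite_toFinset_sum _ hfin.sdiff, Finset.mul_sum]
      apply Finset.sum_le_sum
      intro φ hφ
      rw [Set.Finite.mem_toFinset] at hφ
      obtain ⟨j1, -, j3⟩ := hJ φ hφ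
      rw [j1, le_div_iff₀ hp0]
      linarith
    rw [o1, o2, e1, e2]
    generalize (InvC M ν).ncard = nI at *
    generalize (Ab M ν \ InvC M ν).ncard = nJ at *
    generalize ∑ᶠ φ ∈ InvC M ν, (φ 1).re = sI at *
    generalize ∑ᶠ φ ∈ Ab M ν \ InvC M ν, (φ 1).re = sJ at *
    generalize ∑ᶠ φ ∈ InvC M ν, dd ⊤ φ / (stab ⊤ φ).index = dI at *
    generalize ∑ᶠ φ ∈ Ab M ν \ InvC M ν, dd ⊤ φ / (stab ⊤ φ).index = dJ at *
    generalize (S.index : ℝ) = p at *
    -- the inequality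
    have key : u * (nI * κ + nJ * (κC / p)) ≤ sI * κ + sJ * κC := by
      have h1 : κ / p ≤ κC := by rw [div_le_iff₀ hp0]; linarith
      have h2 : u * (nJ / p) ≤ sJ := b4
      have h3 : 0 ≤ (sJ - u * (nJ / p)) * (κC - κ / p) :=
        mul_nonneg (by linarith) (by linarith)
      have h4 : 0 ≤ (κ / p) * (p * sI + sJ - u * (p * nI + nJ / p)) :=
        mul_nonneg (div_nonneg hκ0 hp0.le) (by linarith)
      have h5 : sI * κ + sJ * κC - u * (nI * κ + nJ * (κC / p)) =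
          (sJ - u * (nJ / p)) * (κC - κ / p) +
            (κ / p) * (p * sI + sJ - u * (p * nI + nJ / p)) := by
        field_simp
        ring
      linarith
    calc c * u * (nI * κ + nJ * (κC / p)) = c * (u * (nI * κ + nJ * (κC / p))) := by ring
      _ ≤ c * (sI * κ + sJ * κC) := mul_le_mul_of_nonneg_left key hc0
      _ = c * κ * sI + c * κC * sJ := by ring
      _ ≤ dI + dJ := add_le_add e3 e4

/-- the inequalities for the class -/
theorem deltaP (SOL : T_SOL) (SQ : T_SQ) (TRC : T_TRC) (STP : T_STP) (PCL : T_PCL) (PST : T_PST) (PSK : T_PSK) (PEC : T_PEC) (CVT : T_CVT)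
    (PKC : T_PKC) (PKI : T_PKI) (ORB : T_ORB) (PIX : T_PIX)
    (KKP : T_KKP) (CLF : T_CLF) (DGL : T_DGL) (SPL : T_SPL) (CPR : T_CPR) (ABL : T_ABL) (PID : T_PID)
    (e : ℝ) (he : 1 ≤ e) (𝒜 : (A : Type) → [Group A] → Prop) (h𝒜 : Cls e 𝒜) :
    ∀ n, Delta (fun X [Group X] => KA 𝒜 X) e n := by
  intro n
  induction n using Nat.strong_induction_on with
  | _ n ih =>
  refine delta SOL SQ TRC CLF SPL DGL STP _ (PCL e 𝒜 h𝒜) e he n
    (PID e he 𝒜 h𝒜) ?_ n le_rfl
  intro X _ _ hX hn hs Γ _ _ Z q hq ν hν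
  exact cenP PCL PST PSK PEC CVT PKC PKI ORB PIX KKP CLF DGL CPR ABL e he 𝒜 h𝒜 X hX hs
    (fun m hm => ih m (by omega)) Γ Z q hq ν hν

end FI
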