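import Pool.Agent.H6.FIB.TargetsR

/-!
# MP_7500ea_al, board fib_modules: targets G (subgroups of `PGL(2, q)`)
-/

open scoped Classical ComplexConjugate

namespace FI

open AMc AMt

/-- `PSL(2, p)` in `PGL(2, p)` -/
def PS (p : ℕ) : Subgroup (PG p) :=
  ((Matrix.SpecialLinearGroup.toGL :
    Matrix.SpecialLinearGroup (Fin 2) (ZMod p) →* Matrix.GeneralLinearGroup (Fin 2) (ZMod p)
    ).range).map (QuotientGroup.mk' _)

/-- the class of almost simple groups -/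
def InA (A : Type) [Group A] : Prop :=
  (∃ f : A →* Equiv.Perm (Fin 5), Function.Injective f ∧ A5 ≤ f.range) ∨
  ∃ (q : ℕ) (f : A →* PG q), q.Prime ∧ 7 ≤ q ∧ Function.Injective f ∧ PS q ≤ f.range

/-- CRD: orders -/
def T_CRD : Prop := ∀ q : ℕ, q.Prime → 7 ≤ q → Finite (PG q) ∧
  Nat.card (PG q) = q * (q * q - 1) ∧ (PS q).index = 2 ∧ (PS q).Normal

/-- SLG: subgroups normalised by `PSL(2, q)` -/
def T_SLG : Prop := ∀ q : ℕ, q.Prime → 7 ≤ q → ∀ N : Subgroup (PG q),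
  (∀ s ∈ PS q, ∀ n ∈ N, s * n * s⁻¹ ∈ N) → N ≠ ⊥ → PS q ≤ N

/-- facts on the Borel subgroup `B` and its unipotent subgroup `U` -/
structure UBq (q : ℕ) (U B : Subgroup (PG q)) : Prop where
  US : U ≤ PS q
  UB : U ≤ B
  nor : ∀ b ∈ B, ∀ u ∈ U, b * u * b⁻¹ ∈ U
  crU : Nat.card U = q
  crB : Nat.card B = q * (q - 1)
  crS : 2 * Nat.card (B ⊓ PS q : Subgroup (PG q)) = q * (q - 1)
  ti : ∀ a, a ∉ B → ∀ u ∈ U, a * u * a⁻¹ ∈ U → u = 1
  reg : ∀ b ∈ B, ∀ u ∈ U, u ≠ 1 → b * u = u * b → b ∈ U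
  two : ∃ b ∈ B, b ∉ PS q
  sol : Group.IsSolvable B
  gen : ∀ (T : Subgroup (PG q)) (a : PG q), a ∉ B → U ≤ T → (∀ u ∈ U, a * u * a⁻¹ ∈ T) →
    PS q ≤ T

/-- UBF: the Borel subgroup -/
def T_UBF : Prop := ∀ q : ℕ, q.Prime → 7 ≤ q → ∃ U B : Subgroup (PG q), UBq q U B

/-- ALQ: the groups between `PSL(2, q)` and `PGL(2, q)` are almost simple -/
def T_ALQ : Prop := ∀ (q : ℕ) (A : Type) [Group A] [Finite A] (f : A →* PG q), q.Prime →
  7 ≤ q → Function.Injective f → PS q ≤ f.range → Al A ((PS q).comap f)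

/-- Q2A: the data `Q2` -/
def T_Q2A : Prop := ∀ (q : ℕ) (A : Type) [Group A] [Finite A] (f : A →* PG q), q.Prime →
  7 ≤ q → Function.Injective f → PS q ≤ f.range →
  ∃ U B : Subgroup A, Q2 q A ((PS q).comap f) U B

/-- DK1: subgroups of order divisible by `q` -/
def T_DK1 : Prop := ∀ q : ℕ, q.Prime → 7 ≤ q → ∀ T : Subgroup (PG q), q ∣ Nat.card T →
  PS q ≤ T ∨ (Group.IsSolvable T ∧ 2 * Nat.card (T ⊓ PS q : Subgroup (PG q)) ≤ q * (q - 1))

/-- DK2: subgroups of order prime to `q` -/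
def T_DK2 : Prop := ∀ q : ℕ, q.Prime → 7 ≤ q → ∀ T : Subgroup (PG q), ¬ q ∣ Nat.card T →
  ∃ (Ω : Type) (_ : Finite Ω) (_ : MulAction T Ω),
    (∀ t : T, t ≠ 1 → Nat.card {x : Ω // t • x = x} = 2) ∧
    ∀ (x : Ω) (s t : T), s • x = x → t • x = x → s * t = t * s

/-- DK3: groups acting with two fixed points for each non-trivial element -/
def T_DK3 : Prop := ∀ (T Ω : Type) [Group T] [Finite T] [Finite Ω] [MulAction T Ω],
  (∀ t : T, t ≠ 1 → Nat.card {x : Ω // t • x = x} = 2) →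
  (∀ (x : Ω) (s t : T), s • x = x → t • x = x → s * t = t * s) →
  Group.IsSolvable T ∨ Nat.card T = 60

/-- O60: groups of small order are solvable -/
def T_O60 : Prop := ∀ (G : Type) [Group G] [Finite G],
  (Nat.card G ∣ 60 ∧ Nat.card G ≠ 60) ∨ Nat.card G = 24 → Group.IsSolvable G

/-- H60: non-solvable groups of order 60 -/
def T_H60 : Prop := ∀ (T : Type) [Group T] [Finite T], Nat.card T = 60 →
  ¬ Group.IsSolvable T → ∃ f : T →* Equiv.Perm (Fin 5), Function.Injective f ∧ A5 ≤ f.range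

/-- IDQ: indices of subgroups -/
def T_IDQ : Prop := ∀ (q : ℕ) (A : Type) [Group A] [Finite A] (f : A →* PG q), q.Prime →
  7 ≤ q → Function.Injective f → PS q ≤ f.range → ∀ T : Subgroup A,
  ¬ (PS q).comap f ≤ T → q ≤ T.index

/-- AL5: groups between `A₅` and `S₅` -/
def T_AL5 : Prop := ∀ (A : Type) [Group A] [Finite A] (f : A →* Equiv.Perm (Fin 5)),
  Function.Injective f → A5 ≤ f.range → Al A (A5.comap f)

/-- SDP: an ambient group for an automorphism of a central extension -/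
def T_SDP : Prop := ∀ (A : Type) [Group A] [Finite A] (S : Subgroup A), Al A S →
  S.index.Prime → ∀ (M : Type) [Group M] [Finite M] (π : M →* A), π.range = S →
  π.ker ≤ Subgroup.center M → ∀ (σ : M ≃* M) (a : A), a ∉ S → (∀ z ∈ π.ker, σ z = z) →
  (∀ m, π (σ m) = a * π m * a⁻¹) →
  ∃ (Γ : Type) (_ : Group Γ) (_ : Fintype Γ) (j : M →* Γ) (t : Γ) (δ : Γ →* A),
    Function.Injective j ∧ (∀ m, δ (j m) = π m) ∧ δ t = a ∧
    (∀ m, t * j m * t⁻¹ = j (σ m)) ∧ AG S (π.ker.map j) j.range δ.ker δ ∧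
    ∀ g : Γ, ∃ (m : M) (k : ℕ), g = j m * t ^ k

/-- CH5: the conditions on the characters for `A₅` and `S₅` -/
def T_CH5 : Prop := ∀ (A : Type) [Group A] [Finite A] (f : A →* Equiv.Perm (Fin 5)),
  Function.Injective f → A5 ≤ f.range → Ch e0 A (A5.comap f)

end FI
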