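import Pool.Agent.H6.FIB.TargetsR

/-!
# MP_7500ea_al, board fib_modules: assembly R (central extensions of `PSL(2, q)`)
-/

open scoped Classical ComplexConjugate

namespace FI

open AMc AMt

theorem q2_card {q : ℕ} {A : Type} [Group A] {S U B : Subgroup A} (h : Q2 q A S U B) :
    (Nat.card S : ℝ) = (q : ℝ) * (q * q - 1) / 2 := by
  have h1 := h.crd
  have h2 : 1 ≤ q * q := Nat.one_le_iff_ne_zero.2 (by have := h.sev; positivity)
  have h3 : (2 : ℝ) * Nat.card S = q * (q * q - 1) := by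
    have := congrArg (fun n : ℕ => (n : ℝ)) h1
    push_cast [Nat.cast_sub h2] at this
    exact this
  linarith

theorem rpow_mono_e {x e : ℝ} (hx : 1 ≤ x) (he : 91 / 25 ≤ e) :
    x ^ (1 / e) ≤ x ^ ((25 : ℝ) / 91) := by
  apply Real.rpow_le_rpow_of_exponent_le hx
  rw [div_le_div_iff₀ (by linarith) (by norm_num)]
  linarith

theorem chq (MUL : T_MUL) (LUN : T_LUN) (SIG : T_SIG) (IOA : T_IOA) (NU1 : T_NU1)
    (NU2 : T_NU2) : T_CHQ := by
  intro q A _ _ S U B hQ e he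
  have hS := q2_card hQ
  have hS1 : (1 : ℝ) ≤ Nat.card S := by
    exact_mod_cast Nat.one_le_iff_ne_zero.2 Nat.card_pos.ne'
  -- the data
  have key : ∀ (M : Type) [Group M] [Fintype M] (π : M →* A), π.range = S →
      π.ker ≤ Subgroup.center M → ∀ ν ∈ Irr π.ker,
      ∃ (F : Finset (M → ℂ)) (l m1 m2 : (M → ℂ) → ℕ), Mu q F l m1 m2 ∧
        (↑F : Set (M → ℂ)) = IrrO π.ker ν ∧ (∀ χ ∈ F, dg q l m1 m2 χ = (χ 1).re) ∧
        (∀ χ ∈ F, m1 χ = 0 → m2 χ = 0 → χ 1 = 1) ∧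
        ∀ (σ : M ≃* M) (a : A), a ∉ S → (∀ z ∈ π.ker, σ z = z) →
          (∀ m, π (σ m) = a * π m * a⁻¹) → ∀ χ ∈ F, (fun m => χ (σ m)) = χ → m1 χ = m2 χ := by
    intro M _ _ π hr hk ν hν
    obtain ⟨i1, i2, -, -, -⟩ := IOA M π.ker ν hν
    obtain ⟨F, l, m1, m2, f0, f1, f2, f3, f4, f5, f6, f7, f8, f9⟩ :=
      MUL q A S U B hQ M π hr hk _ i1
    have hdg : ∀ χ ∈ F, dg q l m1 m2 χ = (χ 1).re := by
      intro χ hχ
      have := f1 χ hχ
      rw [dg]
      linarith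
    refine ⟨F, l, m1, m2, ⟨hQ.pri, hQ.sev, f2, f3, f4, f5, f6, f7, ?_, ?_⟩, ?_, hdg, f8, f9⟩
    · intro χ hχ h1 h2
      have h3 := f1 χ hχ
      rw [f8 χ hχ h1 h2, h1, h2] at h3
      have h4 : ((l χ : ℕ) : ℝ) = 1 := by
        simp only [Complex.one_re, Nat.cast_zero, add_zero, mul_zero] at h3
        linarith
      exact_mod_cast h4
    · intro χ hχ χ' hχ' h1 h2 h3 h4
      exact LUN A S hQ.alm M π hr hk _ i1 χ ((f0 χ).1 hχ) χ' ((f0 χ').1 hχ')
        (f8 χ hχ h1 h2) (f8 χ' hχ' h3 h4)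
    · ext χ
      rw [Finset.mem_coe, f0, i2]
  constructor
  · intro M _ _ π hr hk ν hν
    have := Fintype.ofFinite M
    obtain ⟨F, l, m1, m2, hM, hF, hd, -, -⟩ := key M π hr hk ν hν
    obtain ⟨-, -, -, i4, i5⟩ := IOA M π.ker ν hν
    have h1 := NU1 q _ F l m1 m2 hM
    rw [Finset.sum_congr rfl hd, ← hS] at h1
    rw [← hF, Set.ncard_coe_finset, finsum_mem_coe_finset] at i4
    rw [← hF, Set.ncard_coe_finset] at i5
    have h2 : (0 : ℝ) < F.card := by exact_mod_cast i5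
    refine (rpow_mono_e hS1 he).trans ?_
    have h3 : (Nat.card S : ℝ) ^ ((25 : ℝ) / 91) * F.card ≤ acd π.ker ν * F.card := by
      rw [i4]; exact h1
    exact le_of_mul_le_mul_right h3 h2
  · intro hidx M _ _ π hr hk ν hν σ a ha hσz hσ
    have := Fintype.ofFinite M
    obtain ⟨hi, b, hb, hbS⟩ := hQ.two.resolve_left hidx
    obtain ⟨F, l, m1, m2, hM, hF, hd, hl, hσm⟩ := key M π hr hk ν hν
    obtain ⟨i1, i2, -, -, -⟩ := IOA M π.ker ν hν
    set G := F.filter (fun χ => (fun m => χ (σ m)) = χ) with hG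
    have hGF : G ⊆ F := Finset.filter_subset _ _
    have hmem : ∀ χ, χ ∈ F ↔ χ ∈ IrrO π.ker ν := by
      intro χ
      rw [← hF, Finset.mem_coe]
    have hFx : (↑G : Set (M → ℂ)) = Fx π.ker ν σ := by
      ext χ
      rw [hG, Finset.mem_coe, Finset.mem_filter, hmem]
      rfl
    set D := F \ G with hD
    have hDF : D ⊆ F := Finset.sdiff_subset
    obtain ⟨n1, n2⟩ := NU2 q _ F G D l m1 m2 hM hGF (fun χ => Finset.mem_sdiff) (by
      intro χ hχ
      rw [hG, Finset.mem_filter] at hχ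
      exact hσm σ a ha hσz hσ χ hχ.1 hχ.2) (by
      intro χ hχ h1 h2
      rw [hG, Finset.mem_filter]
      refine ⟨hχ, ?_⟩
      have h3 : χ ∈ Ab ⊤ (ext0 π.ker ν) := by rw [← i2, ← hF]; exact hχ
      have h4 := SIG M π.ker σ hσz _ i1 χ h3
      refine LUN A S hQ.alm M π hr hk _ i1 _ h4 χ h3 ?_ (hl χ hχ h1 h2)
      rw [map_one]; exact hl χ hχ h1 h2)
    have hNx : (↑D : Set (M → ℂ)) = IrrO π.ker ν \ Fx π.ker ν σ := by
      rw [hD, Finset.coe_sdiff, hF, hFx]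
    have hcA : (Nat.card A : ℝ) = (q : ℝ) * (q * q - 1) := by
      have h1 := S.card_mul_index
      rw [hi] at h1
      rw [← h1]
      push_cast
      rw [hS]; ring
    have hA1 : (1 : ℝ) ≤ Nat.card A := by
      exact_mod_cast Nat.one_le_iff_ne_zero.2 Nat.card_pos.ne'
    have hu := rpow_mono_e hA1 he
    rw [Finset.sum_congr rfl (fun χ hχ => hd χ (hGF hχ)),
      Finset.sum_congr rfl (fun χ hχ => hd χ (hDF hχ)), ← hcA] at n1
    rw [Finset.sum_congr rfl (fun χ hχ => hd χ (hDF hχ)), ← hcA] at n2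
    rw [← hNx, ← hFx, Set.ncard_coe_finset, Set.ncard_coe_finset, finsum_mem_coe_finset,
      finsum_mem_coe_finset, hi]
    push_cast
    constructor
    · refine le_trans (mul_le_mul_of_nonneg_right hu (by positivity)) ?_
      exact n1
    · refine le_trans (mul_le_mul_of_nonneg_right hu (by positivity)) ?_
      exact n2

end FI
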