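import Pool.Agent.H6.FIB.TargetsG
import Pool.Agent.H6.FIB.AsmP
import Pool.Agent.H6.FIB.AsmR
import Pool.Agent.H6.FI.AsmG

/-!
# MP_7500ea_al, board fib_modules: assembly G, the class of the groups `PGL(2, p)`
-/

open scoped Classical ComplexConjugate

namespace FI

open AMc AMt

theorem sol_of_inj {A B : Type} [Group A] [Group B] (f : A →* B) (hf : Function.Injective f)
    (h : Group.IsSolvable f.range) : Group.IsSolvable A :=
  Group.isSolvable_of_isSolvable_injective (f := f.rangeRestrict)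
    (fun _ _ h => hf (congrArg Subtype.val h))

theorem q_solv (DK1 : T_DK1) (DK2 : T_DK2) (DK3 : T_DK3) (H60 : T_H60) (q : ℕ) (hq : q.Prime)
    (h7 : 7 ≤ q) (A : Type) [Group A] [Finite A] (f : A →* PG q) (hf : Function.Injective f) :
    Group.IsSolvable A ∨ InA A := by
  by_cases hd : q ∣ Nat.card f.range
  · rcases DK1 q hq h7 f.range hd with h | ⟨h, -⟩
    · exact Or.inr (Or.inr ⟨q, f, hq, h7, hf, h⟩)
    · exact Or.inl (sol_of_inj f hf h)
  · obtain ⟨Ω, _, _, h1, h2⟩ := DK2 q hq h7 f.range hd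
    have hfin : Finite f.range := Finite.of_surjective _ f.rangeRestrict_surjective
    rcases DK3 f.range Ω h1 h2 with h | h
    · exact Or.inl (sol_of_inj f hf h)
    · by_cases hs : Group.IsSolvable A
      · exact Or.inl hs
      · right; left
        refine H60 A ?_ hs
        rw [← h]
        exact Nat.card_congr (Equiv.ofInjective f hf)

theorem claS (S5V : T_S5V) (AID : T_AID) (NE : T_NE) (ALS : T_ALS) (CRD : T_CRD) (ALQ : T_ALQ)
    (Q2A : T_Q2A)
    (CHQ : T_CHQ) (DK1 : T_DK1) (DK2 : T_DK2) (DK3 : T_DK3) (H60 : T_H60) (IDQ : T_IDQ)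
    (AL5 : T_AL5) (CH5 : T_CH5) : Cls e0 (fun A [Group A] => InA A) := by
  have he : 91 / 25 ≤ e0 := NE.1
  have he1 : (1 : ℝ) ≤ e0 := by linarith
  constructor
  · rintro A _ _ (⟨f, hf, h5⟩ | ⟨q, f, hq, h7, hf, hP⟩)
    · exact ⟨_, AL5 A f hf h5, CH5 A f hf h5⟩
    · obtain ⟨U, B, h⟩ := Q2A q A f hq h7 hf hP
      exact ⟨_, ALQ q A f hq h7 hf hP, CHQ q A _ U B h e0 he⟩
  · intro A _ _ hA T
    have key : Group.IsSolvable T ∨ InA T := by
      rcases hA with ⟨f, hf, h5⟩ | ⟨q, f, hq, h7, hf, hP⟩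
      · have hfT : Function.Injective (f.comp T.subtype) := hf.comp T.subtype_injective
        by_cases h : A5 ≤ (f.comp T.subtype).range
        · exact Or.inr (Or.inl ⟨_, hfT, h⟩)
        · exact Or.inl (sol_of_inj _ hfT ((S5V _).2 h))
      · exact q_solv DK1 DK2 DK3 H60 q hq h7 T (f.comp T.subtype)
          (hf.comp T.subtype_injective)
    rcases key with h | h
    · exact Or.inl h
    · right
      refine ⟨T, inferInstance, inferInstance, MonoidHom.id T, h, Function.surjective_id, ?_⟩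
      have h1 : (MonoidHom.id T).ker = ⊥ := by
        rw [MonoidHom.ker_eq_bot_iff]; exact Function.injective_id
      rw [h1]; infer_instance
  · intro A _ _ hA T
    rcases hA with ⟨f, hf, h5⟩ | ⟨q, f, hq, h7, hf, hP⟩
    · have h1 := (ALS A _ (AL5 A f hf h5)).1
      have h2 := AID e0 (by linarith) A (by
        refine ⟨1, ⟨⟨fun x _ => f x, ?_⟩, ?_⟩, ?_⟩
        · funext i; simp
        · intro x y; funext i; simp
        · have h : (⟨⟨fun x _ => f x, by funext i; simp⟩, by intro x y; funext i; simp⟩ :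
              A →* (Fin 1 → Equiv.Perm (Fin 5))).ker = ⊥ := by
            rw [eq_bot_iff]
            intro x hx
            have h3 := congrFun (MonoidHom.mem_ker.1 hx) 0
            exact hf (by rw [map_one]; exact h3)
          rw [h]
          infer_instance) T
      rw [h1, Subgroup.index_bot] at h2
      exact h2
    · by_cases hT : (PS q).comap f ≤ T
      · -- `T` is almost simple
        have hPT : PS q ≤ (f.comp T.subtype).range := by
          intro x hx
          obtain ⟨a, rfl⟩ := hP hx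
          exact ⟨⟨a, hT hx⟩, rfl⟩
        have h1 := (ALS T _ (ALQ q T (f.comp T.subtype) hq h7 (hf.comp T.subtype_injective)
          hPT)).1
        rw [h1, Subgroup.index_bot, ← T.index_mul_card]
        push_cast
        have h2 : (1 : ℝ) ≤ T.index := by
          exact_mod_cast Nat.one_le_iff_ne_zero.2 T.index_ne_zero_of_finite
        have h3 : (T.index : ℝ) ≤ (T.index : ℝ) ^ e0 := by
          calc (T.index : ℝ) = (T.index : ℝ) ^ (1 : ℝ) := (Real.rpow_one _).symm
            _ ≤ _ := Real.rpow_le_rpow_of_exponent_le h2 he1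
        exact mul_le_mul_of_nonneg_right h3 (Nat.cast_nonneg _)
      · have h1 := IDQ q A f hq h7 hf hP T hT
        obtain ⟨c1, c2, -, -⟩ := CRD q hq h7
        have h2 : Nat.card A ≤ q * (q * q - 1) := by
          rw [← c2]
          exact Nat.card_le_card_of_injective f hf
        have h3 : q * (q * q - 1) ≤ q ^ 3 := by
          calc q * (q * q - 1) ≤ q * (q * q) := Nat.mul_le_mul_left _ (Nat.sub_le _ _)
            _ = q ^ 3 := by ring
        have h4 : q ^ 3 ≤ T.index ^ 3 := Nat.pow_le_pow_left h1 3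
        have h5 : (Nat.card A : ℝ) ≤ (T.index : ℝ) ^ (3 : ℕ) := by
          exact_mod_cast h2.trans (h3.trans h4)
        have h6 : (1 : ℝ) ≤ T.index := by
          exact_mod_cast Nat.one_le_iff_ne_zero.2 T.index_ne_zero_of_finite
        have h7' : (T.index : ℝ) ^ (3 : ℕ) ≤ (T.index : ℝ) ^ e0 := by
          rw [← Real.rpow_natCast]
          exact Real.rpow_le_rpow_of_exponent_le h6 (by push_cast; linarith)
        have h8 : (1 : ℝ) ≤ (sol T).index := by
          exact_mod_cast Nat.one_le_iff_ne_zero.2 (sol T).index_ne_zero_of_finite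
        have h9 : (0 : ℝ) ≤ (T.index : ℝ) ^ e0 := by positivity
        nlinarith

theorem kp_ka (CRD : T_CRD) (X : Type) [Group X] (h : Kp X) :
    KA (fun A [Group A] => InA A) X := by
  obtain ⟨n, A, _, hA, f, hf⟩ := h
  refine ⟨n, A, inferInstance, ?_, ?_, f, hf⟩
  · intro i
    rcases hA i with ⟨⟨u⟩⟩ | ⟨p, hp, h7, ⟨u⟩⟩
    · exact Finite.of_injective u u.injective
    · have := (CRD p hp h7).1
      exact Finite.of_injective u u.injective
  · intro i
    rcases hA i with ⟨⟨u⟩⟩ | ⟨p, hp, h7, ⟨u⟩⟩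
    · left
      refine ⟨u.toMonoidHom, u.injective, ?_⟩
      intro x _
      exact ⟨u.symm x, u.apply_symm_apply x⟩
    · right
      refine ⟨p, u.toMonoidHom, hp, h7, u.injective, ?_⟩
      intro x _
      exact ⟨u.symm x, u.apply_symm_apply x⟩

theorem kf_kp (X : Type) [Group X] (h : Kf X) : Kp X := by
  obtain ⟨n, f, hf⟩ := h
  exact ⟨n, fun _ => Equiv.Perm (Fin 5), inferInstance, fun _ => Or.inl ⟨MulEquiv.refl _⟩, f, hf⟩

/-- the theorem for a class of almost simple groups -/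
theorem almost (SOL : T_SOL) (SQ : T_SQ) (FNL : T_FNL) (CLF : T_CLF) (KKP : T_KKP)
    (BRG : T_BRG) (LCH : T_LCH) (GRP : T_GRP) (CRN : T_CRN) (DUA : T_DUA)
    (hLO : ∀ n, PLO n) (TRC : T_TRC) (STP : T_STP) (DGL : T_DGL) (SPL : T_SPL) (CPR : T_CPR)
    (ABL : T_ABL) (PCL : T_PCL) (PST : T_PST) (PSK : T_PSK) (PEC : T_PEC) (CVT : T_CVT)
    (PKC : T_PKC) (PKI : T_PKI) (ORB : T_ORB) (PIX : T_PIX) (PID : T_PID)
    (e : ℝ) (he : 91 / 25 ≤ e) (𝒜 : (A : Type) → [Group A] → Prop) (h𝒜 : Cls e 𝒜)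
    (G : Type) [Group G] [Finite G] (hG : KA 𝒜 G) :
    ∃ θ ∈ Irr (fit G), θ 1 = 1 ∧ ((fit G).index : ℝ) ≤ acd (fit G) θ ^ e := by
  have he1 : (1 : ℝ) ≤ e := by linarith
  exact red_core SOL FNL CLF KKP BRG LCH GRP CRN DUA hLO (fun X [Group X] => KA 𝒜 X)
    (PCL e 𝒜 h𝒜) e he (PID e he1 𝒜 h𝒜)
    (deltaP SOL SQ TRC STP PCL PST PSK PEC CVT PKC PKI ORB PIX KKP CLF DGL SPL CPR ABL PID e
      he1 𝒜 h𝒜) G hG

/-- average degrees over invariant characters -/
theorem inv_core (KKP : T_KKP) (BRG : T_BRG) (𝒞 : (X : Type) → [Group X] → Prop) (e : ℝ)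
    (hD : ∀ n, Delta 𝒞 e n) (G : Type) [Group G] [Finite G] (N : Subgroup G) (θ : N → ℂ)
    (hθ : θ ∈ Irr N) (hinv : ∀ g : G, ∀ a b : N, (b : G) = g * a * g⁻¹ → θ b = θ a)
    (Y : Type) [Group Y] [Finite Y] (q : G →* Y) (hY : 𝒞 Y) (hq : Function.Surjective q)
    (hker : q.ker = N) : (θ 1).re * ((sol Y).index : ℝ) ^ (1 / e) ≤ acd N θ := by
  have := Fintype.ofFinite G
  obtain ⟨h1, h2⟩ := BRG G N θ hθ
  have hv : ∀ g, g ∉ N → ext0 N θ g = 0 := fun g hg => by rw [ext0, dif_neg hg]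
  have hv' : ∀ a : N, ext0 N θ a = θ a := fun a => by rw [ext0, dif_pos a.2]
  have hN : N.Normal := by rw [← hker]; infer_instance
  have hcj : ∀ u : G, cj u (ext0 N θ) = ext0 N θ := by
    intro u
    funext x
    simp only [cj]
    by_cases hx : x ∈ N
    · have h3 := hv' ⟨x, hx⟩
      have h4 := hv' ⟨u * x * u⁻¹, hN.conj_mem x hx u⟩
      simp only at h3 h4
      rw [h3, h4]
      exact hinv u ⟨x, hx⟩ ⟨u * x * u⁻¹, hN.conj_mem x hx u⟩ rfl
    · rw [hv x hx, hv]
      intro h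
      apply hx
      have h5 := hN.conj_mem _ h u⁻¹
      have h6 : u⁻¹ * (u * x * u⁻¹) * u⁻¹⁻¹ = x := by group
      rwa [h6] at h5
  have h3 := hD (Nat.card Y) G N ⊤ ⟨le_top, fun u _ g hg => hN.conj_mem g hg u⟩ _ h1
    (fun u _ => hcj u) Y (q.comp (⊤ : Subgroup G).subtype) (by
      intro y
      obtain ⟨x, rfl⟩ := hq y
      exact ⟨⟨x, trivial⟩, rfl⟩) (by
      intro x
      rw [← hker]
      rfl) hY le_rfl
  obtain ⟨-, k1, -⟩ := KKP G N ⊤ le_top _ h1
  have k2 : (0 : ℝ) < kk ⊤ (ext0 N θ) := by exact_mod_cast k1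
  have h4 : (ext0 N θ 1) = θ 1 := hv' 1
  rw [h4, ← h2] at h3
  have h5 := le_of_mul_le_mul_right h3 k2
  rw [mul_comm]
  exact h5

/-- the conditions on primitive groups imply the conditions on the indices -/
theorem goop_good (PRB : T_PRB) (e : ℝ) (he : 1 ≤ e) (Y : Type) [Group Y] [Finite Y]
    (h : Goop e Y) : Good e Y :=
  ⟨h.chr, fun T S hTS => PRB e he Y h.prm T S hTS⟩

end FI
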