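import Pool.Agent.H6.FIB.TargetsR
import Pool.Agent.H63.FI.BRG

/-!
# MP_7500ea_al, board fib_modules, row IOA
-/

open scoped Classical ComplexConjugate

namespace Pool.Agent.H6.FIB

open _root_.FI AMc AMt

theorem irr_top {Γ : Type} [Group Γ] [Fintype Γ] (χ : Γ → ℂ) :
    χ ∈ IrrS (⊤ : Subgroup Γ) ↔ χ ∈ Irr Γ :=
  Pool.Agent.H63.FI.irr_top χ

theorem hset {Γ : Type} [Group Γ] [Fintype Γ] (N : Subgroup Γ) (θ : N → ℂ) :
    IrrO N θ = Ab ⊤ (ext0 N θ) := by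
  have hsum : ∀ χ : Γ → ℂ, ∑ᶠ n : N, χ n * conj (θ n) = ∑ g : Γ, χ g * conj (ext0 N θ g) := by
    intro χ
    have h1 : ∀ n : N, χ n * conj (θ n) = (fun g => χ g * conj (ext0 N θ g)) (n : Γ) := by
      intro n
      have h2 : ext0 N θ (n : Γ) = θ n := by
        rw [ext0, dif_pos n.2]
      change _ = χ n * conj (ext0 N θ n)
      rw [h2]
    rw [finsum_congr h1]
    have h3 := finsum_set_coe_eq_finsum_mem (N : Set Γ)
      (f := fun g => χ g * conj (ext0 N θ g))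
    refine h3.trans ?_
    rw [← finsum_eq_sum_of_fintype]
    refine finsum_congr fun g => ?_
    by_cases hg : g ∈ (N : Set Γ)
    · exact finsum_eq_if.trans (if_pos hg)
    · have h4 : ext0 N θ g = 0 := by
        rw [ext0]; exact dif_neg hg
      rw [finsum_eq_if, if_neg hg, h4, map_zero, mul_zero]
  ext χ
  change (χ ∈ Irr Γ ∧ _) ↔ (χ ∈ IrrS ⊤ ∧ Over χ (ext0 N θ))
  rw [irr_top, hsum]
  rfl

theorem pf_IOA (h1 : T_KKP) (h2 : T_BRG) : T_IOA := by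
  intro G _ _ N θ hθ
  obtain ⟨h3, h4⟩ := h2 G N θ hθ
  obtain ⟨h5, h6, h7⟩ := h1 G N ⊤ le_top _ h3
  refine ⟨h3, hset N θ, ?_, ?_, ?_⟩
  · rw [hset]; exact h5
  · rw [hset]; exact h4
  · rw [hset]; exact h6

end Pool.Agent.H6.FIB
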