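import Pool.Agent.H6.FIB.TargetsR

/-!
# MP_7500ea_al, board fib_modules, row NU1
-/

open scoped Classical

namespace Pool.Agent.H6.FIB

open FI

theorem rp {x y : ℝ} (hx : 0 ≤ x) (hy : 0 ≤ y) (h : x ^ 25 ≤ y ^ 91) :
    x ^ ((25 : ℝ) / 91) ≤ y := by
  have h1 : (x ^ ((25 : ℝ) / 91)) ^ (91 : ℕ) = x ^ 25 := by
    rw [← Real.rpow_natCast, ← Real.rpow_mul hx]
    have : (25 : ℝ) / 91 * ((91 : ℕ) : ℝ) = ((25 : ℕ) : ℝ) := by norm_num
    rw [this, Real.rpow_natCast]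
  exact le_of_pow_le_pow_left₀ (by norm_num : (91 : ℕ) ≠ 0) hy (by rw [h1]; exact h)

theorem vb {q : ℝ} (hq : 11 ≤ q) : (q * (q * q - 1) / 2) ^ ((25 : ℝ) / 91) ≤ (3 * q - 2) / 5 := by
  have h0 : 0 ≤ q * (q * q - 1) / 2 := by
    have : 0 ≤ q * q - 1 := by nlinarith
    positivity
  refine rp h0 (by linarith) ?_
  have h1 : (q * (q * q - 1) / 2) ^ 25 ≤ (q ^ 3 / 2) ^ 25 := by
    apply pow_le_pow_left₀ h0
    nlinarith
  have h2 : (q ^ 3 / 2) ^ 25 = q ^ 75 * (1 / 2 ^ 25) := by ring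
  have h3 : (31 / 55 * q) ^ 91 = q ^ 75 * ((31 / 55) ^ 91 * q ^ 16) := by ring
  have h4 : (1 : ℝ) / 2 ^ 25 ≤ (31 / 55) ^ 91 * q ^ 16 := by
    calc (1 : ℝ) / 2 ^ 25 ≤ (31 / 55) ^ 91 * 11 ^ 16 := by norm_num
      _ ≤ (31 / 55) ^ 91 * q ^ 16 := by gcongr
  have h5 : (31 / 55 * q) ^ 91 ≤ ((3 * q - 2) / 5) ^ 91 := by
    apply pow_le_pow_left₀ (by linarith)
    linarith
  calc (q * (q * q - 1) / 2) ^ 25 ≤ q ^ 75 * (1 / 2 ^ 25) := by rw [← h2]; exact h1
    _ ≤ q ^ 75 * ((31 / 55) ^ 91 * q ^ 16) := by gcongr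
    _ ≤ _ := by rw [← h3]; exact h5

/-- the two special indices -/
theorem special {q : ℕ} {ι : Type} {F : Finset ι} {l m1 m2 : ι → ℕ} (h : Mu q F l m1 m2) :
    ∃ i1 i2, i1 ∈ F ∧ i2 ∈ F ∧ i1 ≠ i2 ∧ (∃ a, m1 i1 + m2 i1 = 2 * a + 1) ∧
      (∃ a, m1 i2 + m2 i2 = 2 * a + 1) ∧ m1 i1 ≠ m2 i1 ∧ m1 i2 ≠ m2 i2 ∧
      ∀ i ∈ F, i ≠ i1 → i ≠ i2 → m1 i = m2 i := by
  have hd : ∑ i ∈ F, ((m1 i : ℤ) - m2 i) * ((m1 i : ℤ) - m2 i) = 2 := by
    have e1 : ∑ i ∈ F, ((m1 i : ℤ) - m2 i) * ((m1 i : ℤ) - m2 i) =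
        ∑ i ∈ F, ((m1 i : ℤ) * m1 i) + ∑ i ∈ F, ((m2 i : ℤ) * m2 i) -
          2 * ∑ i ∈ F, ((m1 i : ℤ) * m2 i) := by
      rw [Finset.mul_sum, ← Finset.sum_add_distrib, ← Finset.sum_sub_distrib]
      apply Finset.sum_congr rfl
      intro i _
      ring
    have h1 := congrArg (fun n : ℕ => (n : ℤ)) h.m11
    have h2 := congrArg (fun n : ℕ => (n : ℤ)) h.m22
    have h3 := congrArg (fun n : ℕ => (n : ℤ)) h.m12
    push_cast at h1 h2 h3
    rw [e1]
    linarith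
  set E := F.filter (fun i => m1 i ≠ m2 i) with hE
  have hdE : ∑ i ∈ E, ((m1 i : ℤ) - m2 i) * ((m1 i : ℤ) - m2 i) = 2 := by
    rw [← hd, hE, Finset.sum_filter]
    apply Finset.sum_congr rfl
    intro i _
    by_cases hi : m1 i = m2 i
    · rw [if_neg (by simpa using hi), hi]; ring
    · rw [if_pos hi]
  have hge : ∀ i ∈ E, 1 ≤ ((m1 i : ℤ) - m2 i) * ((m1 i : ℤ) - m2 i) := by
    intro i hi
    have hi' : m1 i ≠ m2 i := (Finset.mem_filter.1 hi).2
    have h1 : ((m1 i : ℤ) - m2 i) ≠ 0 := by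
      intro h
      apply hi'
      have : (m1 i : ℤ) = m2 i := by linarith
      exact_mod_cast this
    rcases lt_or_gt_of_ne h1 with h2 | h2 <;> nlinarith
  have hcard : E.card ≤ 2 := by
    have h1 : (E.card : ℤ) ≤ 2 := by
      rw [← hdE]
      calc (E.card : ℤ) = ∑ i ∈ E, (1 : ℤ) := by simp
        _ ≤ _ := Finset.sum_le_sum hge
    exact_mod_cast h1
  have hsq : ∀ x : ℤ, x * x ≠ 2 := by
    intro x hx
    have h1 : x ≤ 1 := by nlinarith
    have h2 : -1 ≤ x := by nlinarith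
    have : x = -1 ∨ x = 0 ∨ x = 1 := by omega
    rcases this with rfl | rfl | rfl <;> norm_num at hx
  have hc : E.card = 0 ∨ E.card = 1 ∨ E.card = 2 := by omega
  rcases hc with hc | hc | hc
  · rw [Finset.card_eq_zero] at hc
    rw [hc] at hdE
    norm_num at hdE
  · obtain ⟨i, hi⟩ := Finset.card_eq_one.1 hc
    rw [hi, Finset.sum_singleton] at hdE
    exact absurd hdE (hsq _)
  · obtain ⟨i1, i2, hne, hEE⟩ := Finset.card_eq_two.1 hc
    have hm1 : i1 ∈ E := by rw [hEE]; simp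
    have hm2 : i2 ∈ E := by rw [hEE]; simp
    rw [hEE, Finset.sum_pair hne] at hdE
    have g1 := hge i1 hm1
    have g2 := hge i2 hm2
    have e1 : ((m1 i1 : ℤ) - m2 i1) * ((m1 i1 : ℤ) - m2 i1) = 1 := by linarith
    have e2 : ((m1 i2 : ℤ) - m2 i2) * ((m1 i2 : ℤ) - m2 i2) = 1 := by linarith
    have odd : ∀ a b : ℕ, ((a : ℤ) - b) * ((a : ℤ) - b) = 1 → ∃ c, a + b = 2 * c + 1 := by
      intro a b hab
      have h1 : ((a : ℤ) - b - 1) * ((a : ℤ) - b + 1) = 0 := by linarith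
      rcases mul_eq_zero.1 h1 with h2 | h2
      · exact ⟨b, by omega⟩
      · exact ⟨a, by omega⟩
    refine ⟨i1, i2, (Finset.mem_filter.1 hm1).1, (Finset.mem_filter.1 hm2).1, hne,
      odd _ _ e1, odd _ _ e2, (Finset.mem_filter.1 hm1).2, (Finset.mem_filter.1 hm2).2, ?_⟩
    intro i hi h1 h2
    by_contra h3
    have h4 : i ∈ E := Finset.mem_filter.2 ⟨hi, h3⟩
    rw [hEE, Finset.mem_insert, Finset.mem_singleton] at h4
    rcases h4 with h4 | h4
    · exact h1 h4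
    · exact h2 h4

theorem sum_split {ι : Type} {F : Finset ι} {i1 i2 : ι} (h1 : i1 ∈ F) (h2 : i2 ∈ F)
    (hne : i1 ≠ i2) {M : Type} [AddCommMonoid M] (f : ι → M) :
    ∑ i ∈ F, f i = f i1 + f i2 + ∑ i ∈ (F.erase i1).erase i2, f i := by
  rw [← Finset.add_sum_erase F f h1,
    ← Finset.add_sum_erase (F.erase i1) f (Finset.mem_erase.2 ⟨hne.symm, h2⟩), add_assoc]

theorem sq_le {ι : Type} (R : Finset ι) (m : ι → ℕ) :
    ∑ i ∈ R, m i * m i ≤ (∑ i ∈ R, m i) * (∑ i ∈ R, m i) := by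
  rw [Finset.sum_mul]
  apply Finset.sum_le_sum
  intro i hi
  exact Nat.mul_le_mul_left _ (Finset.single_le_sum (fun _ _ => Nat.zero_le _) hi)

theorem num_a {q v z k T a b : ℝ} (hq : 11 ≤ q) (hv1 : 1 ≤ v) (hv : v ≤ (3 * q - 2) / 5)
    (hz0 : 0 ≤ z) (hz : z ≤ 1) (hk : 2 ≤ k) (hT : k ≤ T) (ha : 0 ≤ a) (hb : 0 ≤ b) :
    v * (2 + (z + k)) ≤ z + (q - 1) / 2 * (2 * a + 1 + (2 * b + 1) + 2 * T) := by
  have k1 : v * z - z ≤ v - 1 := by nlinarith
  have k2 : (q - 1) / 2 * (2 + 2 * k) ≤ (q - 1) / 2 * (2 * a + 1 + (2 * b + 1) + 2 * T) := by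
    apply mul_le_mul_of_nonneg_left _ (by linarith)
    linarith
  have k3 : v * (3 + k) ≤ (3 * q - 2) / 5 * (3 + k) :=
    mul_le_mul_of_nonneg_right hv (by linarith)
  have k4 : 0 ≤ (k - 2) * (2 * q - 3) := mul_nonneg (by linarith) (by linarith)
  nlinarith

theorem num_b {q v z k S : ℝ} (hq : 11 ≤ q) (hv1 : 1 ≤ v) (hv : v ≤ (3 * q - 2) / 5)
    (hz0 : 0 ≤ z) (hz : z ≤ 1) (hk : k ≤ 1) (hS : 5 ≤ S) :
    v * (2 + (z + k)) ≤ z + (q - 1) / 2 * S := by
  have k1 : v * z - z ≤ v - 1 := by nlinarith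
  have k2 : (q - 1) / 2 * 5 ≤ (q - 1) / 2 * S := mul_le_mul_of_nonneg_left hS (by linarith)
  have k3 : v * k ≤ v := by nlinarith
  nlinarith

theorem five {a b T Q q : ℕ} (hq : 11 ≤ q) (hQ : Q ≤ T * T)
    (h : (2 * a + 1) * (2 * a + 1) + (2 * b + 1) * (2 * b + 1) + 4 * Q = 2 * q) :
    5 ≤ (2 * a + 1) + (2 * b + 1) + 2 * T := by
  by_contra hlt
  have hlt' : (2 * a + 1) + (2 * b + 1) + 2 * T ≤ 4 := by omega
  have ha : a ≤ 1 := by omega
  have hb : b ≤ 1 := by omega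
  have hT : T ≤ 1 := by omega
  interval_cases a <;> interval_cases b <;> interval_cases T <;> omega

theorem pf_NU1 : T_NU1 := by
  intro q ι F l m1 m2 h
  obtain ⟨i1, i2, hi1, hi2, hne, ⟨a1, ha1⟩, ⟨a2, ha2⟩, -, -, hrest⟩ := special h
  set R := (F.erase i1).erase i2 with hR
  have hRm : ∀ i ∈ R, i ∈ F ∧ i ≠ i1 ∧ i ≠ i2 := by
    intro i hi
    rw [hR, Finset.mem_erase, Finset.mem_erase] at hi
    exact ⟨hi.2.2, hi.2.1, hi.1⟩
  have hmm : ∀ i ∈ R, m1 i = m2 i := fun i hi =>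
    hrest i (hRm i hi).1 (hRm i hi).2.1 (hRm i hi).2.2
  -- the sum of the squares
  have hss : ∑ i ∈ F, (m1 i + m2 i) * (m1 i + m2 i) = 2 * q := by
    have e1 : ∑ i ∈ F, (m1 i + m2 i) * (m1 i + m2 i) =
        ∑ i ∈ F, m1 i * m1 i + ∑ i ∈ F, m2 i * m2 i + 2 * ∑ i ∈ F, m1 i * m2 i := by
      rw [Finset.mul_sum, ← Finset.sum_add_distrib, ← Finset.sum_add_distrib]
      apply Finset.sum_congr rfl
      intro i _
      ring
    have := h.m11
    have := h.m22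
    have := h.m12
    omega
  rw [sum_split hi1 hi2 hne] at hss
  have hsR : ∑ i ∈ R, (m1 i + m2 i) * (m1 i + m2 i) = 4 * ∑ i ∈ R, m1 i * m1 i := by
    rw [Finset.mul_sum]
    apply Finset.sum_congr rfl
    intro i hi
    rw [← hmm i hi]; ring
  rw [← hR, hsR] at hss
  -- zero and non-zero indices
  set R0 := R.filter (fun i => m1 i = 0) with hR0
  set R1 := R.filter (fun i => ¬ m1 i = 0) with hR1
  have hcR : R0.card + R1.card = R.card := by
    rw [hR0, hR1]; exact Finset.card_filter_add_card_filter_not _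
  have hcF : F.card = 2 + R.card := by
    have h1 : F.card = ∑ i ∈ F, 1 := by simp
    have h2 : R.card = ∑ i ∈ R, 1 := by simp
    rw [h1, h2, sum_split hi1 hi2 hne]
  have hz : R0.card ≤ 1 := by
    rw [Finset.card_le_one]
    intro i hi j hj
    have h1 := Finset.mem_filter.1 hi
    have h2 := Finset.mem_filter.1 hj
    exact h.uni i (hRm i h1.1).1 j (hRm j h2.1).1 h1.2 (by rw [← hmm i h1.1]; exact h1.2) h2.2
      (by rw [← hmm j h2.1]; exact h2.2)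
  set T := ∑ i ∈ R, m1 i with hT
  have hTk : R1.card ≤ T := by
    have h1 : R1.card = ∑ i ∈ R1, 1 := by simp
    rw [h1, hT]
    calc ∑ i ∈ R1, 1 ≤ ∑ i ∈ R1, m1 i := by
          apply Finset.sum_le_sum
          intro i hi
          exact Nat.one_le_iff_ne_zero.2 (Finset.mem_filter.1 hi).2
      _ ≤ ∑ i ∈ R, m1 i := Finset.sum_le_sum_of_subset (Finset.filter_subset _ _)
  -- the degrees
  have hq7 : (7 : ℝ) ≤ q := by exact_mod_cast h.sev
  have hdeg : (R0.card : ℝ) + ((q : ℝ) - 1) / 2 * ((2 * a1 + 1 : ℕ) + (2 * a2 + 1 : ℕ) + 2 * T) ≤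
      ∑ i ∈ F, dg q l m1 m2 i := by
    rw [sum_split hi1 hi2 hne, ← hR]
    have e1 : ((q : ℝ) - 1) / 2 * ((2 * a1 + 1 : ℕ)) ≤ dg q l m1 m2 i1 := by
      rw [dg, ← ha1]
      push_cast
      have : (0 : ℝ) ≤ l i1 := Nat.cast_nonneg _
      linarith
    have e2 : ((q : ℝ) - 1) / 2 * ((2 * a2 + 1 : ℕ)) ≤ dg q l m1 m2 i2 := by
      rw [dg, ← ha2]
      push_cast
      have : (0 : ℝ) ≤ l i2 := Nat.cast_nonneg _
      linarith
    have e3 : (R0.card : ℝ) + ((q : ℝ) - 1) / 2 * (2 * T) ≤ ∑ i ∈ R, dg q l m1 m2 i := by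
      have f1 : (R0.card : ℝ) = ∑ i ∈ R, if m1 i = 0 then (1 : ℝ) else 0 := by
        rw [hR0, Finset.sum_ite, Finset.sum_const, Finset.sum_const_zero, add_zero]
        simp
      rw [f1, hT]
      push_cast
      rw [Finset.mul_sum, Finset.mul_sum, ← Finset.sum_add_distrib]
      apply Finset.sum_le_sum
      intro i hi
      rw [dg, ← hmm i hi]
      by_cases hi0 : m1 i = 0
      · rw [if_pos hi0, hi0]
        have h1 := h.lin i (hRm i hi).1 hi0 (by rw [← hmm i hi]; exact hi0)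
        rw [h1]
        push_cast
        linarith
      · rw [if_neg hi0]
        have : (0 : ℝ) ≤ l i := Nat.cast_nonneg _
        linarith
    linarith
  refine le_trans ?_ hdeg
  rw [hcF, ← hcR]
  -- numerical part
  have hA : (1 : ℝ) ≤ ((q : ℝ) * (q * q - 1) / 2) ^ ((25 : ℝ) / 91) := by
    apply Real.one_le_rpow _ (by norm_num)
    nlinarith
  have hsq := sq_le R m1
  rw [← hT] at hsq
  rw [ha1, ha2] at hss
  by_cases hq : 11 ≤ q
  · have hqr : (11 : ℝ) ≤ q := by exact_mod_cast hq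
    have hv := vb hqr
    have hzr : (R0.card : ℝ) ≤ 1 := by exact_mod_cast hz
    have hz0 : (0 : ℝ) ≤ R0.card := Nat.cast_nonneg _
    by_cases hk : 2 ≤ R1.card
    · have hkr : (2 : ℝ) ≤ R1.card := by exact_mod_cast hk
      have hTr : (R1.card : ℝ) ≤ T := by exact_mod_cast hTk
      push_cast
      exact num_a hqr hA hv hz0 hzr hkr hTr (Nat.cast_nonneg _) (Nat.cast_nonneg _)
    · have hSr : (5 : ℝ) ≤ ((2 * a1 + 1 : ℕ) : ℝ) + ((2 * a2 + 1 : ℕ) : ℝ) + 2 * T := by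
        exact_mod_cast five hq hsq hss
      have hkr : (R1.card : ℝ) ≤ 1 := by
        have : R1.card ≤ 1 := by omega
        exact_mod_cast this
      rw [Nat.cast_add, Nat.cast_add, Nat.cast_ofNat]
      exact num_b hqr hA hv hz0 hzr hkr hSr
  · have h7 : q = 7 := by
      have h1 := h.pri
      have h2 := h.sev
      have h3 : q < 11 := by omega
      interval_cases q
      · rfl
      · exact absurd h1 (by norm_num)
      · exact absurd h1 (by norm_num)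
      · exact absurd h1 (by norm_num)
    subst h7
    have hv : (((7 : ℕ) : ℝ) * (((7 : ℕ) : ℝ) * ((7 : ℕ) : ℝ) - 1) / 2) ^ ((25 : ℝ) / 91) ≤
        25 / 6 := by
      apply rp (by norm_num) (by norm_num)
      norm_num
    generalize (((7 : ℕ) : ℝ) * (((7 : ℕ) : ℝ) * ((7 : ℕ) : ℝ) - 1) / 2) ^ ((25 : ℝ) / 91) = v at *
    -- the possibilities
    have hb1 : a1 ≤ 1 := by
      by_contra hlt
      have : 5 ≤ 2 * a1 + 1 := by omega
      have := Nat.mul_le_mul this this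
      omega
    have hb2 : a2 ≤ 1 := by
      by_contra hlt
      have : 5 ≤ 2 * a2 + 1 := by omega
      have := Nat.mul_le_mul this this
      omega
    have hm : ∀ i ∈ R, m1 i ≤ 1 := by
      intro i hi
      by_contra hlt
      have h1 : 2 ≤ m1 i := by omega
      have h2 : m1 i * m1 i ≤ ∑ i ∈ R, m1 i * m1 i :=
        Finset.single_le_sum (f := fun i => m1 i * m1 i) (fun _ _ => Nat.zero_le _) hi
      have h3 := Nat.mul_le_mul h1 h1
      omega
    have hTT : ∑ i ∈ R, m1 i * m1 i = T := by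
      rw [hT]
      apply Finset.sum_congr rfl
      intro i hi
      have := hm i hi
      interval_cases m1 i <;> rfl
    have hTk' : T = R1.card := by
      have h1 : R1.card = ∑ i ∈ R1, 1 := by simp
      rw [h1, hT, hR1, Finset.sum_filter]
      apply Finset.sum_congr rfl
      intro i hi
      have := hm i hi
      interval_cases m1 i <;> simp
    rw [hTT] at hss
    rw [hTk'] at hss ⊢
    have hzr : (R0.card : ℝ) ≤ 1 := by exact_mod_cast hz
    have hz0 : (0 : ℝ) ≤ R0.card := Nat.cast_nonneg _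
    have k1 : v * R0.card - R0.card ≤ v - 1 := by nlinarith
    have hposs : (a1 = 0 ∧ a2 = 0 ∧ R1.card = 3) ∨ (a1 + a2 = 1 ∧ R1.card = 1) := by
      interval_cases a1 <;> interval_cases a2 <;> omega
    rcases hposs with ⟨e1, e2, e3⟩ | ⟨e1, e2⟩
    · rw [e1, e2, e3]
      push_cast
      linarith
    · rw [e2]
      have e3 : (a1 : ℝ) + a2 = 1 := by exact_mod_cast e1
      push_cast
      linarith

end Pool.Agent.H6.FIB
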