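import Pool.Agent.H6.FIB.NU1

/-!
# MP_7500ea_al, board fib_modules, row NU2
-/

open scoped Classical

namespace Pool.Agent.H6.FIB

open FI

theorem ub {q : ℝ} (hq : 11 ≤ q) : (q * (q * q - 1)) ^ ((25 : ℝ) / 91) ≤ (7 * q - 3) / 10 := by
  have h0 : 0 ≤ q * (q * q - 1) := by
    have : 0 ≤ q * q - 1 := by nlinarith
    positivity
  refine rp h0 (by linarith) ?_
  have h1 : (q * (q * q - 1)) ^ 25 ≤ (q ^ 3) ^ 25 := by
    apply pow_le_pow_left₀ h0
    nlinarith
  have h2 : (q ^ 3) ^ 25 = q ^ 75 * 1 := by ring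
  have h3 : (37 / 55 * q) ^ 91 = q ^ 75 * ((37 / 55) ^ 91 * q ^ 16) := by ring
  have h4 : (1 : ℝ) ≤ (37 / 55) ^ 91 * q ^ 16 := by
    calc (1 : ℝ) ≤ (37 / 55) ^ 91 * 11 ^ 16 := by norm_num
      _ ≤ (37 / 55) ^ 91 * q ^ 16 := by gcongr
  have h5 : (37 / 55 * q) ^ 91 ≤ ((7 * q - 3) / 10) ^ 91 := by
    apply pow_le_pow_left₀ (by linarith)
    linarith
  calc (q * (q * q - 1)) ^ 25 ≤ q ^ 75 * 1 := by rw [← h2]; exact h1
    _ ≤ q ^ 75 * ((37 / 55) ^ 91 * q ^ 16) := by gcongr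
    _ ≤ _ := by rw [← h3]; exact h5

theorem num_c {q u z f d TG TD a b : ℝ} (hq : 11 ≤ q) (hu1 : 1 ≤ u) (hu : u ≤ (7 * q - 3) / 10)
    (hz : z ≤ 1) (hf : 0 ≤ f) (hd : 0 ≤ d) (hfd : 2 ≤ f + d) (hTG : f ≤ TG) (hTD : d ≤ TD)
    (ha : 0 ≤ a) (hb : 0 ≤ b) :
    u * (2 * (z + f) + (2 + d) / 2) ≤ 2 * (z + (q - 1) * TG) +
      ((q - 1) / 2 * (2 * a + 1 + (2 * b + 1)) + (q - 1) * TD) := by
  have k1 : 2 * (u * z) - 2 * z ≤ 2 * u - 2 := by nlinarith
  have k2 : (q - 1) * (2 * f + 1 + d) ≤ 2 * ((q - 1) * TG) +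
      ((q - 1) / 2 * (2 * a + 1 + (2 * b + 1)) + (q - 1) * TD) := by
    have e : 2 * ((q - 1) * TG) + ((q - 1) / 2 * (2 * a + 1 + (2 * b + 1)) + (q - 1) * TD) =
      (q - 1) * (2 * TG + (a + b + 1) + TD) := by ring
    rw [e]
    apply mul_le_mul_of_nonneg_left _ (by linarith)
    linarith
  have k3 : u * (2 * f + 3 + d / 2) ≤ (7 * q - 3) / 10 * (2 * f + 3 + d / 2) :=
    mul_le_mul_of_nonneg_right hu (by linarith)
  have k4 : 0 ≤ (f + d - 2) * (3 * q - 7) := mul_nonneg (by linarith) (by linarith)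
  have k5 : 0 ≤ d * (q + 11) := mul_nonneg hd (by linarith)
  nlinarith

theorem num_d {q u z f d TG TD a b : ℝ} (hq : 11 ≤ q) (hu1 : 1 ≤ u) (hu : u ≤ (7 * q - 3) / 10)
    (hz : z ≤ 1) (hf : 0 ≤ f) (hd : 0 ≤ d) (hfd : f + d ≤ 1) (hTG : f ≤ TG)
    (hS : 6 ≤ 2 * a + 1 + (2 * b + 1) + 2 * (TG + TD)) :
    u * (2 * (z + f) + (2 + d) / 2) ≤ 2 * (z + (q - 1) * TG) +
      ((q - 1) / 2 * (2 * a + 1 + (2 * b + 1)) + (q - 1) * TD) := by
  have k1 : 2 * (u * z) - 2 * z ≤ 2 * u - 2 := by nlinarith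
  have k2 : (q - 1) * (f + 3) ≤ 2 * ((q - 1) * TG) +
      ((q - 1) / 2 * (2 * a + 1 + (2 * b + 1)) + (q - 1) * TD) := by
    have e : 2 * ((q - 1) * TG) + ((q - 1) / 2 * (2 * a + 1 + (2 * b + 1)) + (q - 1) * TD) =
      (q - 1) * (TG + (2 * a + 1 + (2 * b + 1) + 2 * (TG + TD)) / 2) := by ring
    rw [e]
    apply mul_le_mul_of_nonneg_left _ (by linarith)
    linarith
  have k3 : u * (2 * f + 3 + d / 2) ≤ (7 * q - 3) / 10 * (2 * f + 3 + d / 2) :=
    mul_le_mul_of_nonneg_right hu (by linarith)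
  have k4 : (7 * q - 3) / 10 * (2 * f + 3 + d / 2) - 2 ≤ (q - 1) * (f + 3) := by
    have k5 : 0 ≤ (1 - f - d) * (q - 1) := mul_nonneg (by linarith) (by linarith)
    have k6 : 0 ≤ d * (q - 1) := mul_nonneg hd (by linarith)
    have k7 : 0 ≤ f * (q - 1) := mul_nonneg hf (by linarith)
    nlinarith
  nlinarith

theorem num_s {q u d T a b : ℝ} (hq : 7 ≤ q) (hu : u ≤ q - 1) (hd : 0 ≤ d) (hT : d ≤ T)
    (ha : 0 ≤ a) (hb : 0 ≤ b) :
    u * ((2 + d) / 2) ≤ (q - 1) / 2 * (2 * a + 1 + (2 * b + 1)) + (q - 1) * T := by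
  have k5 : u * ((2 + d) / 2) ≤ (q - 1) * ((2 + d) / 2) :=
    mul_le_mul_of_nonneg_right hu (by linarith)
  have k6 : (q - 1) * d ≤ (q - 1) * T := mul_le_mul_of_nonneg_left hT (by linarith)
  have k7 : 0 ≤ (q - 1) * d := mul_nonneg (by linarith) hd
  have k8 : 0 ≤ (q - 1) * a := mul_nonneg (by linarith) ha
  have k9 : 0 ≤ (q - 1) * b := mul_nonneg (by linarith) hb
  nlinarith

theorem num_e {u z f d L1 L2 sD sG A B : ℝ} (hu : u ≤ 5) (hz0 : 0 ≤ z) (hz : z ≤ 1)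
    (hf : 0 ≤ f) (hd : 0 ≤ d) (h3 : d + f = 3) (hL : L1 + L2 + (sD + sG) = 6) (hL1 : 0 ≤ L1)
    (hL2 : 0 ≤ L2) (hsG : 0 ≤ sG)
    (hA : z + 6 * f + sG / 2 ≤ A) (hB : 6 + L1 + L2 + (6 * d + sD / 2) ≤ B) :
    u * (2 * (z + f) + (2 + d) / 2) ≤ 2 * A + B := by
  have : u * (2 * (z + f) + (2 + d) / 2) ≤ 5 * (2 * (z + f) + (2 + d) / 2) :=
    mul_le_mul_of_nonneg_right hu (by linarith)
  linarith

theorem num_f {u z f d a b l1 l2 A B : ℝ} (hu : u ≤ 5) (hz0 : 0 ≤ z) (hz : z ≤ 1)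
    (hf : 0 ≤ f) (hd : 0 ≤ d) (h3 : d + f = 1) (hab : a + b = 1) (hl1 : 0 ≤ l1) (hl2 : 0 ≤ l2)
    (hA : z + 6 * f ≤ A)
    (hB : 3 * (2 * a + 1 + (2 * b + 1)) + 6 * d + l1 + l2 ≤ B) :
    u * (2 * (z + f) + (2 + d) / 2) ≤ 2 * A + B := by
  have : u * (2 * (z + f) + (2 + d) / 2) ≤ 5 * (2 * (z + f) + (2 + d) / 2) :=
    mul_le_mul_of_nonneg_right hu (by linarith)
  linarith

/-- lower bound for the degrees over a set of indices with `m1 = m2` -/
theorem low {q : ℕ} {ι : Type} {F : Finset ι} {l m1 m2 : ι → ℕ} (h : Mu q F l m1 m2)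
    (H : Finset ι) (hH : H ⊆ F) (hm : ∀ i ∈ H, m1 i = m2 i) :
    (((H.filter fun i => m1 i = 0).card : ℝ) + ((q : ℝ) - 1) * (∑ i ∈ H, m1 i : ℕ) ≤
      ∑ i ∈ H, dg q l m1 m2 i) ∧
    (H.filter fun i => m1 i = 0).card + (H.filter fun i => ¬ m1 i = 0).card = H.card ∧
    (H.filter fun i => m1 i = 0).card ≤ 1 ∧
    (H.filter fun i => ¬ m1 i = 0).card ≤ ∑ i ∈ H, m1 i := by
  refine ⟨?_, Finset.card_filter_add_card_filter_not _, ?_, ?_⟩
  · have f1 : ((H.filter fun i => m1 i = 0).card : ℝ) =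
        ∑ i ∈ H, if m1 i = 0 then (1 : ℝ) else 0 := by
      rw [Finset.sum_ite, Finset.sum_const, Finset.sum_const_zero, add_zero]
      simp
    rw [f1]
    push_cast
    rw [Finset.mul_sum, ← Finset.sum_add_distrib]
    apply Finset.sum_le_sum
    intro i hi
    rw [dg, ← hm i hi]
    by_cases hi0 : m1 i = 0
    · rw [if_pos hi0, hi0]
      have h1 := h.lin i (hH hi) hi0 (by rw [← hm i hi]; exact hi0)
      rw [h1]
      push_cast
      linarith
    · rw [if_neg hi0]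
      have : (0 : ℝ) ≤ l i := Nat.cast_nonneg _
      linarith
  · rw [Finset.card_le_one]
    intro i hi j hj
    have h1 := Finset.mem_filter.1 hi
    have h2 := Finset.mem_filter.1 hj
    exact h.uni i (hH h1.1) j (hH h2.1) h1.2 (by rw [← hm i h1.1]; exact h1.2) h2.2
      (by rw [← hm j h2.1]; exact h2.2)
  · have h1 : (H.filter fun i => ¬ m1 i = 0).card = ∑ i ∈ H.filter (fun i => ¬ m1 i = 0), 1 := by
      simp
    rw [h1]
    calc ∑ i ∈ H.filter (fun i => ¬ m1 i = 0), 1 ≤ ∑ i ∈ H.filter (fun i => ¬ m1 i = 0), m1 i := by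
          apply Finset.sum_le_sum
          intro i hi
          exact Nat.one_le_iff_ne_zero.2 (Finset.mem_filter.1 hi).2
      _ ≤ ∑ i ∈ H, m1 i := Finset.sum_le_sum_of_subset (Finset.filter_subset _ _)

theorem pf_NU2 : T_NU2 := by
  intro q ι F G D l m1 m2 h hGF hD hG hlin
  obtain ⟨i1, i2, hi1, hi2, hne, ⟨a1, ha1⟩, ⟨a2, ha2⟩, hn1, hn2, hrest⟩ := special h
  have hD1 : i1 ∈ D := (hD i1).2 ⟨hi1, fun hh => hn1 (hG i1 hh)⟩
  have hD2 : i2 ∈ D := (hD i2).2 ⟨hi2, fun hh => hn2 (hG i2 hh)⟩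
  set D' := (D.erase i1).erase i2 with hD'
  have hDm : ∀ i ∈ D', i ∈ D ∧ i ≠ i1 ∧ i ≠ i2 := by
    intro i hi
    rw [hD', Finset.mem_erase, Finset.mem_erase] at hi
    exact ⟨hi.2.2, hi.2.1, hi.1⟩
  have hDF : D' ⊆ F := fun i hi => ((hD i).1 (hDm i hi).1).1
  have hmm : ∀ i ∈ D', m1 i = m2 i := fun i hi =>
    hrest i (hDF hi) (hDm i hi).2.1 (hDm i hi).2.2
  have hD0 : D'.filter (fun i => m1 i = 0) = ∅ := by
    rw [Finset.filter_eq_empty_iff]
    intro i hi h0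
    have h1 := ((hD i).1 (hDm i hi).1).2
    exact h1 (hlin i (hDF hi) h0 (by rw [← hmm i hi]; exact h0))
  obtain ⟨p1, p2, p3, p4⟩ := low h G hGF hG
  obtain ⟨r1, r2, -, r4⟩ := low h D' hDF hmm
  rw [hD0, Finset.card_empty, Nat.cast_zero, zero_add] at r1
  rw [hD0, Finset.card_empty, zero_add] at r2
  rw [r2] at r4
  have hcD : D.card = 2 + D'.card := by
    have h1 : D.card = ∑ i ∈ D, 1 := by simp
    have h2 : D'.card = ∑ i ∈ D', 1 := by simp
    rw [h1, h2, sum_split hD1 hD2 hne]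
  -- sums over `F`
  have hsplit : ∀ f : ι → ℕ, ∑ i ∈ F, f i = f i1 + f i2 + (∑ i ∈ D', f i + ∑ i ∈ G, f i) := by
    intro f
    have h1 : F = D ∪ G := by
      ext i
      rw [Finset.mem_union, hD]
      constructor
      · intro hi
        by_cases hg : i ∈ G
        · exact Or.inr hg
        · exact Or.inl ⟨hi, hg⟩
      · rintro (hi | hi)
        · exact hi.1
        · exact hGF hi
    have h2 : Disjoint D G := by
      rw [Finset.disjoint_left]
      intro i hi hg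
      exact ((hD i).1 hi).2 hg
    rw [h1, Finset.sum_union h2, sum_split hD1 hD2 hne, ← hD', add_assoc]
  have hss : ∑ i ∈ F, (m1 i + m2 i) * (m1 i + m2 i) = 2 * q := by
    have e1 : ∑ i ∈ F, (m1 i + m2 i) * (m1 i + m2 i) =
        ∑ i ∈ F, m1 i * m1 i + ∑ i ∈ F, m2 i * m2 i + 2 * ∑ i ∈ F, m1 i * m2 i := by
      rw [Finset.mul_sum, ← Finset.sum_add_distrib, ← Finset.sum_add_distrib]
      apply Finset.sum_congr rfl
      intro i _
      ring
    have := h.m11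
    have := h.m22
    have := h.m12
    omega
  have hsq4 : ∀ H : Finset ι, (∀ i ∈ H, m1 i = m2 i) →
      ∑ i ∈ H, (m1 i + m2 i) * (m1 i + m2 i) = 4 * ∑ i ∈ H, m1 i * m1 i := by
    intro H hH
    rw [Finset.mul_sum]
    apply Finset.sum_congr rfl
    intro i hi
    rw [← hH i hi]; ring
  rw [hsplit, ha1, ha2, hsq4 _ hmm, hsq4 _ hG] at hss
  have hsqD := sq_le D' m1
  have hsqG := sq_le G m1
  -- degrees
  have hq7 : (7 : ℝ) ≤ q := by exact_mod_cast h.sev
  have hdD : ((q : ℝ) - 1) / 2 * (2 * a1 + 1 + (2 * a2 + 1)) +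
      ((q : ℝ) - 1) * (∑ i ∈ D', m1 i : ℕ) + l i1 + l i2 ≤ ∑ i ∈ D, dg q l m1 m2 i := by
    rw [sum_split hD1 hD2 hne, ← hD']
    have e1 : ((q : ℝ) - 1) / 2 * (2 * a1 + 1) + l i1 ≤ dg q l m1 m2 i1 := by
      have e : (m1 i1 : ℝ) + m2 i1 = 2 * a1 + 1 := by exact_mod_cast ha1
      rw [dg, e]
      linarith
    have e2 : ((q : ℝ) - 1) / 2 * (2 * a2 + 1) + l i2 ≤ dg q l m1 m2 i2 := by
      have e : (m1 i2 : ℝ) + m2 i2 = 2 * a2 + 1 := by exact_mod_cast ha2
      rw [dg, e]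
      linarith
    linarith
  have hl1 : (0 : ℝ) ≤ l i1 := Nat.cast_nonneg _
  have hl2 : (0 : ℝ) ≤ l i2 := Nat.cast_nonneg _
  have hA : (1 : ℝ) ≤ ((q : ℝ) * (q * q - 1)) ^ ((25 : ℝ) / 91) := by
    apply Real.one_le_rpow _ (by norm_num)
    nlinarith
  -- the second inequality from a bound on `u`
  have second : ∀ u : ℝ, 1 ≤ u → u ≤ (q : ℝ) - 1 →
      u * ((D.card : ℝ) / 2) ≤ ∑ i ∈ D, dg q l m1 m2 i := by
    intro u hu1 hu
    have hdD' : ((q : ℝ) - 1) / 2 * (2 * a1 + 1 + (2 * a2 + 1)) +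
        ((q : ℝ) - 1) * (∑ i ∈ D', m1 i : ℕ) ≤ ∑ i ∈ D, dg q l m1 m2 i := by linarith
    refine le_trans ?_ hdD'
    rw [hcD]
    push_cast
    have k1 : (D'.card : ℝ) ≤ (∑ i ∈ D', m1 i : ℕ) := by exact_mod_cast r4
    push_cast at k1
    exact num_s hq7 hu (Nat.cast_nonneg _) k1 (Nat.cast_nonneg _) (Nat.cast_nonneg _)
  have hTGr : ((G.filter fun i => ¬ m1 i = 0).card : ℝ) ≤ (∑ i ∈ G, m1 i : ℕ) := by
    exact_mod_cast p4
  have hTDr : (D'.card : ℝ) ≤ (∑ i ∈ D', m1 i : ℕ) := by exact_mod_cast r4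
  have hzr : ((G.filter fun i => m1 i = 0).card : ℝ) ≤ 1 := by exact_mod_cast p3
  have hcG : (G.card : ℝ) = (G.filter fun i => m1 i = 0).card +
      (G.filter fun i => ¬ m1 i = 0).card := by exact_mod_cast p2.symm
  have hcDr : (D.card : ℝ) = 2 + D'.card := by exact_mod_cast hcD
  by_cases hq : 11 ≤ q
  · have hqr : (11 : ℝ) ≤ q := by exact_mod_cast hq
    have hu := ub hqr
    refine ⟨?_, second _ hA (by linarith)⟩
    refine le_trans ?_ (add_le_add (mul_le_mul_of_nonneg_left p1 (by norm_num)) hdD)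
    refine le_trans ?_ (by linarith : 2 * (((G.filter fun i => m1 i = 0).card : ℝ) +
      ((q : ℝ) - 1) * (∑ i ∈ G, m1 i : ℕ)) + (((q : ℝ) - 1) / 2 * (2 * a1 + 1 + (2 * a2 + 1)) +
      ((q : ℝ) - 1) * (∑ i ∈ D', m1 i : ℕ)) ≤ _)
    rw [hcG, hcDr]
    by_cases hfd : 2 ≤ (G.filter fun i => ¬ m1 i = 0).card + D'.card
    · have hfdr : (2 : ℝ) ≤ ((G.filter fun i => ¬ m1 i = 0).card : ℝ) + D'.card := by
        exact_mod_cast hfd
      exact num_c hqr hA hu hzr (Nat.cast_nonneg _) (Nat.cast_nonneg _) hfdr hTGr hTDr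
        (Nat.cast_nonneg _) (Nat.cast_nonneg _)
    · have hfdr : ((G.filter fun i => ¬ m1 i = 0).card : ℝ) + D'.card ≤ 1 := by
        have : (G.filter fun i => ¬ m1 i = 0).card + D'.card ≤ 1 := by omega
        exact_mod_cast this
      have h5 : 5 ≤ (2 * a1 + 1) + (2 * a2 + 1) + 2 * (∑ i ∈ D', m1 i + ∑ i ∈ G, m1 i) := by
        refine five (Q := ∑ i ∈ D', m1 i * m1 i + ∑ i ∈ G, m1 i * m1 i) hq ?_ (by omega)
        nlinarith
      have h6 : 6 ≤ (2 * a1 + 1) + (2 * a2 + 1) + 2 * (∑ i ∈ G, m1 i + ∑ i ∈ D', m1 i) := by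
        omega
      exact num_d hqr hA hu hzr (Nat.cast_nonneg _) (Nat.cast_nonneg _) hfdr hTGr
        (by exact_mod_cast h6)
  · have h7 : q = 7 := by
      have h1 := h.pri
      have h2 := h.sev
      have h3 : q < 11 := by omega
      interval_cases q
      · rfl
      · exact absurd h1 (by norm_num)
      · exact absurd h1 (by norm_num)
      · exact absurd h1 (by norm_num)
    subst h7
    have hu : (((7 : ℕ) : ℝ) * (((7 : ℕ) : ℝ) * ((7 : ℕ) : ℝ) - 1)) ^ ((25 : ℝ) / 91) ≤ 5 := by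
      apply rp (by norm_num) (by norm_num)
      norm_num
    refine ⟨?_, second _ hA (by push_cast; linarith)⟩
    generalize (((7 : ℕ) : ℝ) * (((7 : ℕ) : ℝ) * ((7 : ℕ) : ℝ) - 1)) ^ ((25 : ℝ) / 91) = u at *
    have hb1 : a1 ≤ 1 := by
      by_contra hlt
      have : 5 ≤ 2 * a1 + 1 := by omega
      have := Nat.mul_le_mul this this
      omega
    have hb2 : a2 ≤ 1 := by
      by_contra hlt
      have : 5 ≤ 2 * a2 + 1 := by omega
      have := Nat.mul_le_mul this this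
      omega
    have small : ∀ H : Finset ι, ∑ i ∈ H, m1 i * m1 i ≤ 3 → ∀ i ∈ H, m1 i ≤ 1 := by
      intro H hH i hi
      by_contra hlt
      have h1 : 2 ≤ m1 i := by omega
      have h2 : m1 i * m1 i ≤ ∑ i ∈ H, m1 i * m1 i :=
        Finset.single_le_sum (f := fun i => m1 i * m1 i) (fun _ _ => Nat.zero_le _) hi
      have h3 := Nat.mul_le_mul h1 h1
      omega
    have smallT : ∀ H : Finset ι, (∀ i ∈ H, m1 i ≤ 1) →
        ∑ i ∈ H, m1 i * m1 i = ∑ i ∈ H, m1 i ∧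
        ∑ i ∈ H, m1 i = (H.filter fun i => ¬ m1 i = 0).card := by
      intro H hH
      constructor
      · apply Finset.sum_congr rfl
        intro i hi
        have := hH i hi
        interval_cases m1 i <;> rfl
      · have h1 : (H.filter fun i => ¬ m1 i = 0).card =
            ∑ i ∈ H.filter (fun i => ¬ m1 i = 0), 1 := by simp
        rw [h1, Finset.sum_filter]
        apply Finset.sum_congr rfl
        intro i hi
        have := hH i hi
        interval_cases m1 i <;> simp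
    have hG1 := small G (by omega)
    have hD1' := small D' (by omega)
    obtain ⟨tG1, tG2⟩ := smallT G hG1
    obtain ⟨tD1, tD2⟩ := smallT D' hD1'
    rw [r2] at tD2
    rw [tG1, tG2, tD1, tD2] at hss
    have hposs : (a1 = 0 ∧ a2 = 0 ∧ D'.card + (G.filter fun i => ¬ m1 i = 0).card = 3) ∨
        (a1 + a2 = 1 ∧ D'.card + (G.filter fun i => ¬ m1 i = 0).card = 1) := by
      interval_cases a1 <;> interval_cases a2 <;> omega
    rw [tG2] at p1
    rw [tD2] at hdD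
    rw [hcG, hcDr]
    have hz0 : (0 : ℝ) ≤ (G.filter fun i => m1 i = 0).card := Nat.cast_nonneg _
    have hf0 : (0 : ℝ) ≤ (G.filter fun i => ¬ m1 i = 0).card := Nat.cast_nonneg _
    have hd0 : (0 : ℝ) ≤ D'.card := Nat.cast_nonneg _
    rcases hposs with ⟨e1, e2, e3⟩ | ⟨e1, e2⟩
    · -- the sum of the `l i`
      have hls : ∑ i ∈ F, l i * (m1 i + m2 i) = 6 := by
        have e4 : ∑ i ∈ F, l i * (m1 i + m2 i) = ∑ i ∈ F, l i * m1 i + ∑ i ∈ F, l i * m2 i := by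
          rw [← Finset.sum_add_distrib]
          apply Finset.sum_congr rfl
          intro i _
          ring
        have := h.l1
        have := h.l2
        omega
      rw [hsplit, ha1, ha2, e1, e2] at hls
      have hlr : (l i1 : ℝ) + l i2 + (∑ i ∈ D', (l i : ℝ) * (m1 i + m2 i) +
          ∑ i ∈ G, (l i : ℝ) * (m1 i + m2 i)) = 6 := by
        have := congrArg (fun n : ℕ => (n : ℝ)) hls
        push_cast at this
        linarith
      have bG : ((G.filter fun i => m1 i = 0).card : ℝ) + 6 * (G.filter fun i => ¬ m1 i = 0).card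
          + (∑ i ∈ G, (l i : ℝ) * (m1 i + m2 i)) / 2 ≤ ∑ i ∈ G, dg 7 l m1 m2 i := by
        rw [← tG2]
        have f1 : ((G.filter fun i => m1 i = 0).card : ℝ) =
            ∑ i ∈ G, if m1 i = 0 then (1 : ℝ) else 0 := by
          rw [Finset.sum_ite, Finset.sum_const, Finset.sum_const_zero, add_zero]
          simp
        rw [f1, Finset.sum_div]
        push_cast
        rw [Finset.mul_sum, ← Finset.sum_add_distrib, ← Finset.sum_add_distrib]
        apply Finset.sum_le_sum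
        intro i hi
        have h1 := hG1 i hi
        rw [dg, ← hG i hi]
        by_cases hi0 : m1 i = 0
        · rw [if_pos hi0, hi0, h.lin i (hGF hi) hi0 (by rw [← hG i hi]; exact hi0)]
          norm_num
        · have h2 : m1 i = 1 := by omega
          rw [if_neg hi0, h2]
          push_cast
          linarith
      have bD : 6 * (D'.card : ℝ) + (∑ i ∈ D', (l i : ℝ) * (m1 i + m2 i)) / 2 ≤
          ∑ i ∈ D', dg 7 l m1 m2 i := by
        rw [← tD2, Finset.sum_div]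
        push_cast
        rw [Finset.mul_sum, ← Finset.sum_add_distrib]
        apply Finset.sum_le_sum
        intro i hi
        have h1 := hD1' i hi
        have hi0 : m1 i ≠ 0 := by
          intro h0
          have : i ∈ D'.filter (fun i => m1 i = 0) := Finset.mem_filter.2 ⟨hi, h0⟩
          rw [hD0] at this
          exact absurd this (Finset.notMem_empty _)
        have h2 : m1 i = 1 := by omega
        rw [dg, ← hmm i hi, h2]
        push_cast
        linarith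
      have hD3 : 6 + (l i1 : ℝ) + l i2 + (6 * (D'.card : ℝ) +
          (∑ i ∈ D', (l i : ℝ) * (m1 i + m2 i)) / 2) ≤ ∑ i ∈ D, dg 7 l m1 m2 i := by
        rw [sum_split hD1 hD2 hne, ← hD']
        have e4 : dg 7 l m1 m2 i1 = l i1 + 3 := by
          have e : (m1 i1 : ℝ) + m2 i1 = 1 := by
            rw [e1] at ha1
            exact_mod_cast ha1
          rw [dg, e]
          push_cast
          norm_num
        have e5 : dg 7 l m1 m2 i2 = l i2 + 3 := by
          have e : (m1 i2 : ℝ) + m2 i2 = 1 := by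
            rw [e2] at ha2
            exact_mod_cast ha2
          rw [dg, e]
          push_cast
          norm_num
        rw [e4, e5]
        linarith
      have hGs : 0 ≤ ∑ i ∈ G, (l i : ℝ) * (m1 i + m2 i) :=
        Finset.sum_nonneg fun i _ => by positivity
      have e3r : (D'.card : ℝ) + (G.filter fun i => ¬ m1 i = 0).card = 3 := by exact_mod_cast e3
      exact num_e hu hz0 hzr hf0 hd0 e3r hlr hl1 hl2 hGs bG hD3
    · have e3 : (a1 : ℝ) + a2 = 1 := by exact_mod_cast e1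
      have e4 : (D'.card : ℝ) + (G.filter fun i => ¬ m1 i = 0).card = 1 := by exact_mod_cast e2
      push_cast at hdD p1
      refine num_f hu hz0 hzr hf0 hd0 e4 e3 hl1 hl2 (A := ∑ i ∈ G, dg 7 l m1 m2 i) ?_
        (B := ∑ i ∈ D, dg 7 l m1 m2 i) ?_
      · refine le_trans (le_of_eq ?_) p1
        norm_num
      · refine le_trans (le_of_eq ?_) hdD
        norm_num

end Pool.Agent.H6.FIB
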