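import Pool.Agent.H6.FIB.Ind

/-!
# MP_7500ea_al, board fib_modules, row ORB
-/

open scoped Classical ComplexConjugate

namespace Pool.Agent.H6.FIB

open _root_.FI AMc AMt

variable {Γ : Type} [Group Γ] [Fintype Γ]

theorem cj_mul (u v : Γ) (f : Γ → ℂ) : cj (u * v) f = cj v (cj u f) := by
  funext g
  simp only [cj]
  congr 1
  group

theorem cj_one' (f : Γ → ℂ) : cj (1 : Γ) f = f := by
  funext g
  simp [cj]

theorem cj_over {M : Subgroup Γ} {χ φ : Γ → ℂ} (hχ : χ ∈ IrrS (⊤ : Subgroup Γ))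
    (h : Over χ φ) (u : Γ) : Over χ (cj u φ) := by
  unfold Over at h ⊢
  have e : ∑ g, χ g * conj (cj u φ g) = ∑ g, χ g * conj (φ g) := by
    rw [← sum_conj_eq (fun g => χ g * conj (φ g)) u]
    apply Finset.sum_congr rfl
    intro g _
    rw [(_root_.FI.Lib.lS1 Γ ⊤ χ hχ).2.1 u trivial g]
    rfl
  rw [e]
  exact h

theorem cj_mem {M : Subgroup Γ} (hM : NIn M ⊤) {φ : Γ → ℂ} (hφ : φ ∈ IrrS M) (u : Γ) :
    cj u φ ∈ IrrS M := by
  apply _root_.FI.Lib.lS7 Γ M M u _ φ hφ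
  intro g
  constructor
  · intro hg
    exact hM.nor u trivial g hg
  · intro hg
    have := hM.nor u⁻¹ trivial _ hg
    have e : u⁻¹ * (u * g * u⁻¹) * u⁻¹⁻¹ = g := by group
    rwa [e] at this

/-- the number of the constituents on a normal subgroup -/
theorem orbit_card {M : Subgroup Γ} (hM : NIn M ⊤) (fs : Finset (Γ → ℂ))
    (hfs : ∀ θ, θ ∈ fs ↔ θ ∈ IrrS M) {χ φ : Γ → ℂ} (hχ : χ ∈ IrrS (⊤ : Subgroup Γ))
    (hφ : φ ∈ IrrS M) (ho : Over χ φ) :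
    (fs.filter fun ψ => Over χ ψ).card = (stab ⊤ φ).index := by
  have hst : 0 < Nat.card (stab ⊤ φ) := Nat.card_pos
  have hmaps : ∀ u ∈ (Finset.univ : Finset Γ), cj u φ ∈ fs.filter fun ψ => Over χ ψ := by
    intro u _
    rw [Finset.mem_filter, hfs]
    exact ⟨cj_mem hM hφ u, cj_over (M := M) hχ ho u⟩
  have h1 := Finset.card_eq_sum_card_fiberwise hmaps
  have h2 : ∀ ψ ∈ fs.filter (fun ψ => Over χ ψ),
      (Finset.univ.filter fun u : Γ => cj u φ = ψ).card = Nat.card (stab ⊤ φ) := by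
    intro ψ hψ
    obtain ⟨hψ1, hψ2⟩ := Finset.mem_filter.1 hψ
    obtain ⟨u0, -, hu0⟩ := _root_.FI.Lib.lE2 Γ M ⊤ le_top hM.nor χ hχ φ hφ ψ ((hfs ψ).1 hψ1)
      ho hψ2
    have h3 : Nat.card (stab ⊤ φ) =
        (Finset.univ.filter fun u : Γ => u ∈ stab ⊤ φ).card := by
      rw [Nat.card_eq_fintype_card, ← Fintype.card_subtype]
    rw [h3]
    apply Finset.card_bij (fun u _ => u * u0⁻¹)
    · intro u hu
      rw [Finset.mem_filter] at hu ⊢
      refine ⟨Finset.mem_univ _, trivial, ?_⟩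
      rw [cj_mul, hu.2, hu0, ← cj_mul, mul_inv_cancel, cj_one']
    · intro u _ v _ huv
      exact mul_right_cancel huv
    · intro v hv
      rw [Finset.mem_filter] at hv
      refine ⟨v * u0, ?_, by group⟩
      rw [Finset.mem_filter]
      refine ⟨Finset.mem_univ _, ?_⟩
      rw [cj_mul, hv.2.2, hu0]
  rw [Finset.sum_congr rfl h2, Finset.sum_const, smul_eq_mul, Finset.card_univ,
    ← Nat.card_eq_fintype_card, ← (stab ⊤ φ).index_mul_card] at h1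
  exact (Nat.eq_of_mul_eq_mul_right hst h1).symm

theorem pf_ORB (_h1 : T_CLF) : T_ORB := by
  intro Γ _ _ K M hKM hK hM θ hθ hinv
  obtain ⟨fsT, hfsT, -⟩ := _root_.FI.Lib.lS9 Γ ⊤
  obtain ⟨fsM, hfsM, -⟩ := _root_.FI.Lib.lS9 Γ M
  have hsetT : ∀ ψ, Ab ⊤ ψ = ↑(fsT.filter fun χ => Over χ ψ) := by
    intro ψ
    ext χ
    simp only [Finset.coe_filter, Set.mem_ofPred_eq, hfsT]
    rfl
  have hsetM : Ab M θ = ↑(fsM.filter fun χ => Over χ θ) := by
    ext χ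
    simp only [Finset.coe_filter, Set.mem_ofPred_eq, hfsM]
    rfl
  have c1 : ∀ χ ∈ fsT, Over χ θ → ∀ φ ∈ fsM, Over χ φ → Over φ θ := by
    intro χ hχ hχθ φ hφ hχφ
    obtain ⟨θ', hθ', hφθ'⟩ := _root_.FI.Lib.lE1 Γ K M hKM φ ((hfsM φ).1 hφ)
    have h2 : Over χ θ' := (_root_.FI.Lib.lOT Γ K M ⊤ hKM le_top χ ((hfsT χ).1 hχ) θ' hθ').2
      ⟨φ, (hfsM φ).1 hφ, hχφ, hφθ'⟩
    obtain ⟨u, -, hu⟩ := _root_.FI.Lib.lE2 Γ K ⊤ le_top hK.nor χ ((hfsT χ).1 hχ) θ hθ θ' hθ'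
      hχθ h2
    rw [hinv u] at hu
    rw [← hu]
    exact hφθ'
  have c2 : ∀ φ ∈ fsM, Over φ θ → ∀ χ ∈ fsT, Over χ φ → Over χ θ := by
    intro φ hφ h1 χ hχ h2
    exact (_root_.FI.Lib.lOT Γ K M ⊤ hKM le_top χ ((hfsT χ).1 hχ) θ hθ).2
      ⟨φ, (hfsM φ).1 hφ, h2, h1⟩
  have key : ∀ w : (Γ → ℂ) → ℝ, ∑ χ ∈ fsT.filter (fun χ => Over χ θ), w χ =
      ∑ φ ∈ fsM.filter (fun φ => Over φ θ),
        (∑ χ ∈ fsT.filter (fun χ => Over χ φ), w χ) / (stab ⊤ φ).index := by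
    intro w
    have e1 : ∀ φ ∈ fsM.filter (fun φ => Over φ θ),
        (∑ χ ∈ fsT.filter (fun χ => Over χ φ), w χ) / (stab ⊤ φ).index =
        ∑ χ ∈ fsT.filter (fun χ => Over χ θ),
          if Over χ φ then w χ / (stab ⊤ φ).index else 0 := by
      intro φ hφ
      obtain ⟨hφ1, hφ2⟩ := Finset.mem_filter.1 hφ
      rw [Finset.sum_div, ← Finset.sum_filter, Finset.filter_filter]
      apply Finset.sum_congr _ (fun _ _ => rfl)
      ext χ
      simp only [Finset.mem_filter]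
      constructor
      · rintro ⟨h1, h2⟩
        exact ⟨h1, c2 φ hφ1 hφ2 χ h1 h2, h2⟩
      · rintro ⟨h1, -, h2⟩
        exact ⟨h1, h2⟩
    rw [Finset.sum_congr rfl e1, Finset.sum_comm]
    apply Finset.sum_congr rfl
    intro χ hχ
    obtain ⟨hχ1, hχ2⟩ := Finset.mem_filter.1 hχ
    rw [← Finset.sum_filter, Finset.filter_filter]
    have e2 : fsM.filter (fun φ => Over φ θ ∧ Over χ φ) = fsM.filter (fun φ => Over χ φ) := by
      ext φ
      simp only [Finset.mem_filter]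
      constructor
      · rintro ⟨h1, -, h2⟩
        exact ⟨h1, h2⟩
      · rintro ⟨h1, h2⟩
        exact ⟨h1, c1 χ hχ1 hχ2 φ h1 h2, h2⟩
    rw [e2]
    obtain ⟨φ0, hφ0, hχφ0⟩ := _root_.FI.Lib.lE1 Γ M ⊤ le_top χ ((hfsT χ).1 hχ1)
    have hcard := orbit_card hM fsM hfsM ((hfsT χ).1 hχ1) hφ0 hχφ0
    have e3 : ∀ φ ∈ fsM.filter (fun φ => Over χ φ), w χ / (stab ⊤ φ).index =
        w χ / (fsM.filter (fun φ => Over χ φ)).card := by
      intro φ hφ
      obtain ⟨h1, h2⟩ := Finset.mem_filter.1 hφ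
      rw [← orbit_card hM fsM hfsM ((hfsT χ).1 hχ1) ((hfsM φ).1 h1) h2]
    rw [Finset.sum_congr rfl e3, Finset.sum_const, nsmul_eq_mul]
    have hne : ((fsM.filter (fun φ => Over χ φ)).card : ℝ) ≠ 0 := by
      have : φ0 ∈ fsM.filter (fun φ => Over χ φ) :=
        Finset.mem_filter.2 ⟨(hfsM φ0).2 hφ0, hχφ0⟩
      exact_mod_cast (Finset.card_pos.2 ⟨φ0, this⟩).ne'
    field_simp
  constructor
  · have h1 := key (fun _ => 1)
    rw [Finset.sum_const, nsmul_eq_mul, mul_one] at h1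
    rw [kk, hsetT θ, Set.ncard_coe_finset, h1, hsetM, finsum_mem_coe_finset]
    apply Finset.sum_congr rfl
    intro φ _
    rw [Finset.sum_const, nsmul_eq_mul, mul_one, kk, hsetT φ, Set.ncard_coe_finset]
  · have h1 := key (fun χ => (χ 1).re)
    rw [dd, hsetT θ, finsum_mem_coe_finset, h1, hsetM, finsum_mem_coe_finset]
    apply Finset.sum_congr rfl
    intro φ _
    rw [dd, hsetT φ, finsum_mem_coe_finset]

end Pool.Agent.H6.FIB
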