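import Pool.Agent.H6.FIB.TargetsR

/-!
# MP_7500ea_al, board fib_modules, row PAB
-/

open scoped Classical ComplexConjugate

namespace Pool.Agent.H6.FIB

open _root_.FI AMc AMt

theorem card_comap' {M A : Type} [Group M] [Finite M] [Group A] (π : M →* A) (H : Subgroup A)
    (hH : H ≤ π.range) : Nat.card (H.comap π) = Nat.card π.ker * Nat.card H := by
  have h1 : Nat.card (H.comap π) = Nat.card π.ker * π.ker.relIndex (H.comap π) := by
    have := Subgroup.relIndex_mul_relIndex (⊥ : Subgroup M) π.ker (H.comap π) bot_le (by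
      intro x hx
      rw [Subgroup.mem_comap, MonoidHom.mem_ker.1 hx]
      exact H.one_mem)
    rw [Subgroup.relIndex_bot_left, Subgroup.relIndex_bot_left] at this
    exact this.symm
  have h2 : π.ker.relIndex (H.comap π) = Nat.card H := by
    have h3 : π.ker = (⊥ : Subgroup A).comap π := rfl
    rw [h3, Subgroup.relIndex_comap, Subgroup.map_comap_eq_self hH, Subgroup.relIndex_bot_left]
  rw [h1, h2]

theorem pf_PAB : T_PAB := by
  intro q A _ _ S U B h M _ _ π hr hk
  have hUr : U ≤ π.range := by rw [hr]; exact h.US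
  have hq := h.pri
  have hBS : B.comap π = (B ⊓ S).comap π := by
    ext x
    rw [Subgroup.mem_comap, Subgroup.mem_comap, Subgroup.mem_inf]
    constructor
    · intro hx
      exact ⟨hx, by rw [← hr]; exact ⟨x, rfl⟩⟩
    · intro hx
      exact hx.1
  refine ⟨?_, ?_, ?_, ?_, ?_, ?_, ?_, ?_⟩
  · intro x hx
    rw [Subgroup.mem_comap, MonoidHom.mem_ker.1 hx]
    exact U.one_mem
  · exact Subgroup.comap_mono h.UB
  · -- the subgroup is abelian
    have : Fact q.Prime := ⟨hq⟩
    have hcyc : IsCyclic U := isCyclic_of_prime_card h.crU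
    obtain ⟨⟨u0, hu0⟩, hgen⟩ := hcyc.exists_generator
    obtain ⟨x0, hx0⟩ := hUr hu0
    have hrep : ∀ a ∈ U.comap π, ∃ (k : ℤ) (z : M), z ∈ π.ker ∧ a = x0 ^ k * z := by
      intro a ha
      obtain ⟨k, hk'⟩ := hgen ⟨π a, ha⟩
      have hk2 : u0 ^ k = π a := congrArg Subtype.val hk'
      refine ⟨k, (x0 ^ k)⁻¹ * a, ?_, by group⟩
      rw [MonoidHom.mem_ker, map_mul, map_inv, map_zpow, hx0, hk2, inv_mul_cancel]
    intro a ha b hb
    obtain ⟨k, z, hz, rfl⟩ := hrep a ha
    obtain ⟨k', z', hz', rfl⟩ := hrep b hb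
    have c1 := Subgroup.mem_center_iff.1 (hk hz)
    have c2 := Subgroup.mem_center_iff.1 (hk hz')
    calc x0 ^ k * z * (x0 ^ k' * z') = x0 ^ k * (z * (x0 ^ k' * z')) := by group
      _ = x0 ^ k * (x0 ^ k' * z' * z) := by rw [c1]
      _ = x0 ^ (k + k') * (z' * z) := by rw [zpow_add]; group
      _ = x0 ^ (k' + k) * (z * z') := by rw [add_comm, c1]
      _ = x0 ^ k' * (x0 ^ k * z * z') := by rw [zpow_add]; group
      _ = x0 ^ k' * (z' * (x0 ^ k * z)) := by rw [c2]
      _ = x0 ^ k' * z' * (x0 ^ k * z) := by group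
  · intro g hg x hx
    rw [Subgroup.mem_comap, map_mul, map_mul, map_inv]
    exact h.nor _ hg _ hx
  · intro g hg x hx hgx
    rw [Subgroup.mem_comap, map_mul, map_mul, map_inv] at hgx
    exact MonoidHom.mem_ker.2 (h.ti (π g) (by rw [← hr]; exact ⟨g, rfl⟩) hg (π x) hx hgx)
  · rw [card_comap' π U hUr, h.crU]
  · rw [hBS, card_comap' π (B ⊓ S) (by rw [hr]; exact inf_le_right)]
    calc 2 * (Nat.card π.ker * Nat.card (B ⊓ S : Subgroup A)) =
        Nat.card π.ker * (2 * Nat.card (B ⊓ S : Subgroup A)) := by ring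
      _ = _ := by rw [h.crB]
  · have h1 : Nat.card M = Nat.card (S.comap π) := by
      have : S.comap π = ⊤ := by
        rw [eq_top_iff]
        intro x _
        rw [Subgroup.mem_comap, ← hr]
        exact ⟨x, rfl⟩
      rw [this, Subgroup.card_top]
    rw [h1, card_comap' π S (by rw [hr])]
    calc 2 * (Nat.card π.ker * Nat.card S) = Nat.card π.ker * (2 * Nat.card S) := by ring
      _ = _ := by rw [h.crd]

end Pool.Agent.H6.FIB
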