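import Pool.Agent.H6.FIB.TIM
import Pool.Agent.H6.FIB.ORB
import Pool.Agent.H94.FI.LCH

/-!
# MP_7500ea_al, board fib_modules, rows PAC, PAS
-/

open scoped Classical ComplexConjugate

namespace Pool.Agent.H6.FIB

open _root_.FI AMc AMt

section

variable {q : ℕ} {A : Type} [Group A] [Finite A] {S U B : Subgroup A} {M : Type} [Group M]
  [Fintype M] {π : M →* A}

/-- a homomorphism on an abelian subgroup which extends `ν` -/
theorem lin_mem (h2 : T_ABL) {Z P : Subgroup M} (hZP : Z ≤ P)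
    (hP : ∀ a ∈ P, ∀ b ∈ P, a * b = b * a) {ν : M → ℂ} (hν : ν ∈ IrrS Z) (α : M → ℂ)
    (h0 : ∀ g, g ∉ P → α g = 0) (h1 : α 1 = 1) (hm : ∀ a ∈ P, ∀ b ∈ P, α (a * b) = α a * α b)
    (hz : ∀ z ∈ Z, α z = ν z) : α ∈ Ab P ν := by
  have hne : ∀ a ∈ P, α a ≠ 0 := by
    intro a ha h
    have := hm a ha _ (P.inv_mem ha)
    rw [mul_inv_cancel, h1, h, zero_mul] at this
    exact one_ne_zero this
  let l : P →* ℂˣ := MonoidHom.mk' (fun a => Units.mk0 (α a) (hne a a.2)) (by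
    intro a b
    apply Units.ext
    exact hm a a.2 b b.2)
  have hI := Pool.Agent.H94.FI.pf_LCH P l
  have he : ext0 P (fun g => ((l g : ℂˣ) : ℂ)) = α := by
    funext g
    rw [ext0]
    by_cases hg : g ∈ P
    · rw [dif_pos hg]
      rfl
    · rw [dif_neg hg, h0 g hg]
  have hIS : α ∈ IrrS P := ⟨_, hI, he⟩
  refine ⟨hIS, ?_⟩
  have hνν := _root_.FI.Lib.lS2 M Z ν ν hν hν
  rw [if_pos rfl] at hνν
  have hZ0 : (Nat.card Z : ℂ) ≠ 0 := by exact_mod_cast Nat.card_pos.ne'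
  have e : ∑ g, α g * conj (ν g) = (Nat.card Z : ℂ) := by
    rw [← hνν]
    apply Finset.sum_congr rfl
    intro g _
    by_cases hg : g ∈ Z
    · rw [hz g hg]
    · rw [(_root_.FI.Lib.lS1 M Z ν hν).1 g hg, map_zero, mul_zero, mul_zero]
  unfold Over
  rw [e]
  exact hZ0

theorem lin_ne {Z P : Subgroup M} (h1 : T_ABL) (hZP : Z ≤ P)
    (hP : ∀ a ∈ P, ∀ b ∈ P, a * b = b * a) {ν α : M → ℂ} (hν : ν ∈ IrrS Z) (hα : α ∈ Ab P ν)
    {x : M} (hx : x ∈ P) : α x ≠ 0 := by
  intro h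
  have := (ab_lin h1 hZP hP hν hα).2.2 x hx
  rw [h, zero_mul] at this
  exact zero_ne_one this

/-- two different extensions of `ν` agree only on the kernel -/
theorem keyc (h1 : T_PAB) (h2 : T_ABL) (h : Q2 q A S U B) (hr : π.range = S)
    (hk : π.ker ≤ Subgroup.center M) {ν : M → ℂ} (hν : ν ∈ IrrS π.ker) {α β : M → ℂ}
    (hα : α ∈ Ab (U.comap π) ν) (hβ : β ∈ Ab (U.comap π) ν) (hne : α ≠ β) {y : M}
    (hy : y ∈ U.comap π) (he : α y = β y) : y ∈ π.ker := by
  obtain ⟨p1, p2, p3, p4, p5, p6, p7, p8⟩ := h1 q A S U B h M π hr hk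
  by_contra hyZ
  apply hne
  obtain ⟨a1, a2, a3⟩ := ab_lin h2 p1 p3 hν hα
  obtain ⟨b1, b2, b3⟩ := ab_lin h2 p1 p3 hν hβ
  have hpy : π y ≠ 1 := fun h0 => hyZ (MonoidHom.mem_ker.2 h0)
  have : Fact q.Prime := ⟨h.pri⟩
  have hpow : ∀ (f : M → ℂ), (f 1 = 1 ∧ ∀ a ∈ U.comap π, ∀ b ∈ U.comap π,
      f (a * b) = f a * f b) → ∀ n : ℕ, f (y ^ n) = f y ^ n := by
    intro f hf n
    induction n with
    | zero => rw [pow_zero, pow_zero, hf.1]
    | succ n ih =>
      rw [pow_succ, hf.2 _ ((U.comap π).pow_mem hy n) _ hy, ih, pow_succ]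
  funext g
  by_cases hg : g ∈ U.comap π
  · have hgen := mem_powers_of_prime_card (p := q) (G := U) h.crU
      (g := ⟨π y, hy⟩) (g' := ⟨π g, hg⟩) (by
        intro h0
        exact hpy (congrArg Subtype.val h0))
    obtain ⟨c, hc⟩ := (Submonoid.mem_powers_iff _ _).1 hgen
    have hc' : π y ^ c = π g := congrArg Subtype.val hc
    have hz : (y ^ c)⁻¹ * g ∈ π.ker := by
      rw [MonoidHom.mem_ker, map_mul, map_inv, map_pow, hc', inv_mul_cancel]
    have hg' : g = y ^ c * ((y ^ c)⁻¹ * g) := by group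
    rw [hg', a1.2 _ ((U.comap π).pow_mem hy c) _ (p1 hz),
      b1.2 _ ((U.comap π).pow_mem hy c) _ (p1 hz), hpow α a1, hpow β b1, a2 _ hz, b2 _ hz, he]
  · rw [(_root_.FI.Lib.lS1 M _ α hα.1).1 g hg, (_root_.FI.Lib.lS1 M _ β hβ.1).1 g hg]

theorem exists_x (h : Q2 q A S U B) (hr : π.range = S) :
    ∃ x ∈ U.comap π, π x ≠ 1 := by
  have h1 : 1 < Nat.card U := by
    rw [h.crU]
    have := h.sev
    omega
  have hnt : Nontrivial U := Finite.one_lt_card_iff_nontrivial.1 h1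
  obtain ⟨⟨u, hu⟩, hu1⟩ := exists_ne (1 : U)
  have : u ∈ π.range := by rw [hr]; exact h.US hu
  obtain ⟨x, rfl⟩ := this
  exact ⟨x, hu, fun h0 => hu1 (Subtype.ext h0)⟩

theorem card_Ab (h1 : T_PAB) (h2 : T_ABL) (h3 : T_SSQ) (h : Q2 q A S U B) (hr : π.range = S)
    (hk : π.ker ≤ Subgroup.center M) {ν : M → ℂ} (hν : ν ∈ IrrS π.ker)
    (fs : Finset (M → ℂ)) (hfs : ∀ α, α ∈ fs ↔ α ∈ Ab (U.comap π) ν) : fs.card = q := by
  obtain ⟨p1, p2, p3, p4, p5, p6, p7, p8⟩ := h1 q A S U B h M π hr hk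
  have e := h3 M π.ker (U.comap π) p1 (fun z hz g hg => p3 z (p1 hz) g hg) ν hν
  have hset : Ab (U.comap π) ν = ↑fs := by
    ext α
    rw [Finset.mem_coe, hfs]
  rw [hset, finsum_mem_coe_finset, Finset.sum_congr rfl (fun α hα => by
    rw [(ab_lin h2 p1 p3 hν ((hfs α).1 hα)).1.1, mul_one]), Finset.sum_const, nsmul_eq_mul,
    mul_one] at e
  have e2 : fs.card = π.ker.relIndex (U.comap π) := by exact_mod_cast e
  have e3 := Subgroup.relIndex_mul_relIndex (⊥ : Subgroup M) π.ker (U.comap π) bot_le p1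
  rw [Subgroup.relIndex_bot_left, Subgroup.relIndex_bot_left, p6] at e3
  rw [e2]
  exact Nat.eq_of_mul_eq_mul_left Nat.card_pos e3

/-- the stabiliser of the other characters -/
theorem stabc (h1 : T_PAB) (h2 : T_ABL) (h : Q2 q A S U B) (hr : π.range = S)
    (hk : π.ker ≤ Subgroup.center M) {ν : M → ℂ} (hν : ν ∈ IrrS π.ker) {α α0 : M → ℂ}
    (hα : α ∈ Ab (U.comap π) ν) (hα0 : α0 ∈ Ab (U.comap π) ν)
    (hinv : ∀ b ∈ B.comap π, cj b α0 = α0) (hne : α ≠ α0) {b : M} (hb : b ∈ B.comap π)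
    (hs : cj b α = α) : b ∈ U.comap π := by
  obtain ⟨p1, p2, p3, p4, p5, p6, p7, p8⟩ := h1 q A S U B h M π hr hk
  obtain ⟨x, hx, hx1⟩ := exists_x h hr
  obtain ⟨a1, a2, a3⟩ := ab_lin h2 p1 p3 hν hα
  obtain ⟨b1, b2, b3⟩ := ab_lin h2 p1 p3 hν hα0
  have hbx := p4 b hb x hx
  have hval : ∀ f : M → ℂ, (f 1 = 1 ∧ ∀ a ∈ U.comap π, ∀ b ∈ U.comap π,
      f (a * b) = f a * f b) → f (b * x * b⁻¹) = f x → f (b * x * b⁻¹ * x⁻¹) = 1 := by
    intro f hf hfx
    rw [hf.2 _ hbx _ ((U.comap π).inv_mem hx), hfx, ← hf.2 _ hx _ ((U.comap π).inv_mem hx),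
      mul_inv_cancel, hf.1]
  have e1 := hval α a1 (congrFun hs x)
  have e2 := hval α0 b1 (congrFun (hinv b hb) x)
  have hy := keyc h1 h2 h hr hk hν hα hα0 hne
    ((U.comap π).mul_mem hbx ((U.comap π).inv_mem hx)) (by rw [e1, e2])
  rw [MonoidHom.mem_ker, map_mul, map_mul, map_mul, map_inv, map_inv] at hy
  apply h.reg (π b) hb (π x) hx hx1
  have : π b * π x = π b * π x * (π b)⁻¹ * (π x)⁻¹ * (π x * π b) := by group
  rw [this, hy, one_mul]

/-- the invariant extension of `ν` -/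
theorem inv_ext (h1 : T_PAB) (h2 : T_ABL) (h : Q2 q A S U B) (hr : π.range = S)
    (hk : π.ker ≤ Subgroup.center M) {ν : M → ℂ} (hν : ν ∈ IrrS π.ker) {α : M → ℂ}
    (hα : α ∈ Ab (U.comap π) ν) :
    ∃ α0 ∈ Ab (U.comap π) ν, ∀ b ∈ B.comap π, cj b α0 = α0 := by
  obtain ⟨p1, p2, p3, p4, p5, p6, p7, p8⟩ := h1 q A S U B h M π hr hk
  set P := U.comap π with hP
  set N := B.comap π with hN
  obtain ⟨a1, a2, a3⟩ := ab_lin h2 p1 p3 hν hα
  obtain ⟨n1, n2, n3⟩ := ab_lin h2 le_rfl (fun a ha b hb => p3 a (p1 ha) b (p1 hb)) hν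
    (⟨hν, by
      have hνν := _root_.FI.Lib.lS2 M π.ker ν ν hν hν
      rw [if_pos rfl] at hνν
      unfold Over
      rw [hνν]
      exact_mod_cast Nat.card_pos.ne'⟩ : ν ∈ Ab π.ker ν)
  have hPN : P ≤ N := p2
  have hnor : (P.subgroupOf N).Normal := by
    refine ⟨fun x hx g => ?_⟩
    rw [Subgroup.mem_subgroupOf] at hx ⊢
    exact p4 g g.2 x hx
  -- the product over the cosets
  let F : M → N ⧸ P.subgroupOf N → ℂ := fun x c => if hx : x ∈ P then
    Quotient.liftOn' c (fun b : N => α ((b : M) * x * (b : M)⁻¹)) (by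
      intro b c hbc
      rw [QuotientGroup.leftRel_apply, Subgroup.mem_subgroupOf] at hbc
      change α ((b : M) * x * (b : M)⁻¹) = α ((c : M) * x * (c : M)⁻¹)
      have hbc' : (b : M)⁻¹ * (c : M) ∈ P := hbc
      have e : (c : M) * x * (c : M)⁻¹ = (b : M) * (((b : M)⁻¹ * c) * x * ((b : M)⁻¹ * c)⁻¹) *
          (b : M)⁻¹ := by group
      rw [e, p3 _ hbc' x hx, mul_inv_cancel_right]) else 0
  have hF : ∀ x ∈ P, ∀ b : N, F x (b : N ⧸ P.subgroupOf N) = α ((b : M) * x * (b : M)⁻¹) := by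
    intro x hx b
    simp only [F]
    rw [dif_pos hx]
    rfl
  have hFne : ∀ x ∈ P, ∀ c, F x c ≠ 0 := by
    intro x hx c
    induction c using QuotientGroup.induction_on with
    | H b =>
      rw [hF x hx b]
      exact lin_ne h2 p1 p3 hν hα (p4 b b.2 x hx)
  let Λ : M → ℂ := fun x => ∏ c : N ⧸ P.subgroupOf N, F x c
  have hΛne : ∀ x ∈ P, Λ x ≠ 0 := fun x hx => Finset.prod_ne_zero_iff.2 fun c _ => hFne x hx c
  have hΛmul : ∀ x ∈ P, ∀ y ∈ P, Λ (x * y) = Λ x * Λ y := by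
    intro x hx y hy
    simp only [Λ]
    rw [← Finset.prod_mul_distrib]
    apply Finset.prod_congr rfl
    intro c _
    induction c using QuotientGroup.induction_on with
    | H b =>
      rw [hF _ (P.mul_mem hx hy) b, hF x hx b, hF y hy b, ← a1.2 _ (p4 b b.2 x hx) _
        (p4 b b.2 y hy)]
      congr 1
      group
  have hΛinv : ∀ x ∈ P, ∀ b ∈ N, Λ (b * x * b⁻¹) = Λ x := by
    intro x hx b hb
    simp only [Λ]
    apply Fintype.prod_equiv (Equiv.mulRight ((⟨b, hb⟩ : N) : N ⧸ P.subgroupOf N))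
    intro c
    induction c using QuotientGroup.induction_on with
    | H c =>
      have e0 : (Equiv.mulRight ((⟨b, hb⟩ : N) : N ⧸ P.subgroupOf N)) (c : N ⧸ P.subgroupOf N) =
        ((c * ⟨b, hb⟩ : N) : N ⧸ P.subgroupOf N) := rfl
      rw [e0, hF _ (p4 b hb x hx) c, hF x hx]
      congr 1
      push_cast
      group
  have hcard : 2 * Fintype.card (N ⧸ P.subgroupOf N) + 1 = q := by
    have e1 : Fintype.card (N ⧸ P.subgroupOf N) = P.relIndex N := by
      rw [Subgroup.relIndex, Subgroup.index, Nat.card_eq_fintype_card]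
    have e2 := Subgroup.relIndex_mul_relIndex (⊥ : Subgroup M) P N bot_le hPN
    rw [Subgroup.relIndex_bot_left, Subgroup.relIndex_bot_left] at e2
    rw [e1]
    have e3 : (Nat.card π.ker * q) * (2 * P.relIndex N) = (Nat.card π.ker * q) * (q - 1) := by
      rw [← p6]
      calc Nat.card P * (2 * P.relIndex N) = 2 * (Nat.card P * P.relIndex N) := by ring
        _ = 2 * Nat.card N := by rw [e2]
        _ = Nat.card π.ker * (q * (q - 1)) := p7
        _ = _ := by rw [p6]; ring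
    have e4 : 0 < Nat.card π.ker * q := Nat.mul_pos Nat.card_pos h.pri.pos
    have e5 := Nat.eq_of_mul_eq_mul_left e4 e3
    have := h.sev
    omega
  have hΛz : ∀ z ∈ π.ker, Λ z = ν z ^ Fintype.card (N ⧸ P.subgroupOf N) := by
    intro z hz
    simp only [Λ]
    rw [Finset.prod_congr rfl (g := fun _ => ν z), Finset.prod_const, Finset.card_univ]
    intro c _
    induction c using QuotientGroup.induction_on with
    | H b =>
      rw [hF _ (p1 hz) b]
      have e : (b : M) * z * (b : M)⁻¹ = z := by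
        rw [Subgroup.mem_center_iff.1 (hk hz) b, mul_inv_cancel_right]
      rw [e, a2 z hz]
  -- `x ^ q` is in the kernel
  have hpq : ∀ x ∈ P, x ^ q ∈ π.ker := by
    intro x hx
    rw [MonoidHom.mem_ker, map_pow]
    have h3 : (⟨π x, hx⟩ : U) ^ q = 1 := by
      rw [← h.crU]
      exact pow_card_eq_one'
    exact congrArg Subtype.val h3
  have hνpow : ∀ x ∈ P, ∀ y ∈ P, ν ((x * y) ^ q) = ν (x ^ q) * ν (y ^ q) := by
    intro x hx y hy
    rw [(show Commute x y from p3 x hx y hy).mul_pow, n1.2 _ (hpq x hx) _ (hpq y hy)]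
  have hνz : ∀ z ∈ π.ker, ∀ n : ℕ, ν (z ^ n) = ν z ^ n := by
    intro z hz n
    induction n with
    | zero => rw [pow_zero, pow_zero, n1.1]
    | succ n ih => rw [pow_succ, n1.2 _ (π.ker.pow_mem hz n) _ hz, ih, pow_succ]
  have hνne : ∀ z ∈ π.ker, ν z ≠ 0 := by
    intro z hz h0
    have := n3 z hz
    rw [h0, zero_mul] at this
    exact zero_ne_one this
  refine ⟨fun x => if x ∈ P then ν (x ^ q) * (Λ x)⁻¹ * (Λ x)⁻¹ else 0, ?_, ?_⟩
  · apply lin_mem h2 p1 p3 hν
    · intro g hg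
      exact if_neg hg
    · rw [if_pos P.one_mem, one_pow, n1.1, one_mul]
      have : Λ 1 = 1 := by
        have e := hΛmul 1 P.one_mem 1 P.one_mem
        rw [mul_one] at e
        exact (mul_eq_left₀ (hΛne 1 P.one_mem)).1 e.symm
      rw [this, inv_one, one_mul]
    · intro a ha b hb
      rw [if_pos (P.mul_mem ha hb), if_pos ha, if_pos hb, hνpow a ha b hb, hΛmul a ha b hb,
        mul_inv]
      ring
    · intro z hz
      rw [if_pos (p1 hz), hΛz z hz, hνz z hz]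
      have e : ν z ^ q = ν z ^ Fintype.card (N ⧸ P.subgroupOf N) *
          ν z ^ Fintype.card (N ⧸ P.subgroupOf N) * ν z := by
        rw [← pow_add, ← pow_succ]
        congr 1
        omega
      rw [e]
      have := pow_ne_zero (Fintype.card (N ⧸ P.subgroupOf N)) (hνne z hz)
      field_simp
  · intro b hb
    funext x
    simp only [cj]
    have hiff : b * x * b⁻¹ ∈ P ↔ x ∈ P := by
      constructor
      · intro hx
        have e := p4 b⁻¹ (N.inv_mem hb) _ hx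
        have e2 : b⁻¹ * (b * x * b⁻¹) * b⁻¹⁻¹ = x := by group
        rwa [e2] at e
      · intro hx
        exact p4 b hb x hx
    by_cases hx : x ∈ P
    · rw [if_pos (hiff.2 hx), if_pos hx, hΛinv x hx b hb]
      have e : (b * x * b⁻¹) ^ q = x ^ q := by
        rw [conj_pow, Subgroup.mem_center_iff.1 (hk (hpq x hx)) b, mul_inv_cancel_right]
      rw [e]
    · rw [if_neg (fun h0 => hx (hiff.1 h0)), if_neg hx]

/-- the orbit of a character which is not invariant -/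
theorem orb_card (h1 : T_PAB) (h2 : T_ABL) (h : Q2 q A S U B) (hr : π.range = S)
    (hk : π.ker ≤ Subgroup.center M) {ν : M → ℂ} (hν : ν ∈ IrrS π.ker) {α α0 : M → ℂ}
    (hα : α ∈ Ab (U.comap π) ν) (hα0 : α0 ∈ Ab (U.comap π) ν)
    (hinv : ∀ b ∈ B.comap π, cj b α0 = α0) (hne : α ≠ α0) :
    2 * ((Finset.univ.filter fun b : M => b ∈ B.comap π).image fun b => cj b α).card + 1 = q := by
  obtain ⟨p1, p2, p3, p4, p5, p6, p7, p8⟩ := h1 q A S U B h M π hr hk
  set X := Finset.univ.filter fun b : M => b ∈ B.comap π with hX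
  have hXc : X.card = Nat.card (B.comap π) := by
    rw [Nat.card_eq_fintype_card, ← Fintype.card_subtype]
  have h3 := Finset.card_eq_sum_card_image (fun b : M => cj b α) X
  have h4 : ∀ ψ ∈ X.image (fun b : M => cj b α),
      (X.filter fun b => cj b α = ψ).card = Nat.card (U.comap π) := by
    intro ψ hψ
    obtain ⟨b0, hb0, rfl⟩ := Finset.mem_image.1 hψ
    have hb0' : b0 ∈ B.comap π := (Finset.mem_filter.1 hb0).2
    have h5 : Nat.card (U.comap π) = (Finset.univ.filter fun u : M => u ∈ U.comap π).card := by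
      rw [Nat.card_eq_fintype_card, ← Fintype.card_subtype]
    rw [h5]
    apply Finset.card_bij (fun u _ => u * b0⁻¹)
    · intro u hu
      rw [Finset.mem_filter, hX, Finset.mem_filter] at hu
      rw [Finset.mem_filter]
      refine ⟨Finset.mem_univ _, ?_⟩
      apply stabc h1 h2 h hr hk hν hα hα0 hinv hne
        ((B.comap π).mul_mem hu.1.2 ((B.comap π).inv_mem hb0'))
      rw [cj_mul, hu.2, ← cj_mul, mul_inv_cancel, cj_one']
    · intro u _ v _ huv
      exact mul_right_cancel huv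
    · intro v hv
      rw [Finset.mem_filter] at hv
      refine ⟨v * b0, ?_, by group⟩
      rw [Finset.mem_filter, hX, Finset.mem_filter]
      refine ⟨⟨Finset.mem_univ _, (B.comap π).mul_mem (p2 hv.2) hb0'⟩, ?_⟩
      rw [cj_mul]
      congr 1
      funext g
      simp only [cj]
      by_cases hg : g ∈ U.comap π
      · rw [p3 v hv.2 g hg, mul_inv_cancel_right]
      · rw [(_root_.FI.Lib.lS1 M _ α hα.1).1 g hg, (_root_.FI.Lib.lS1 M _ α hα.1).1]
        intro h0
        apply hg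
        have e := (U.comap π).mul_mem ((U.comap π).mul_mem ((U.comap π).inv_mem hv.2) h0) hv.2
        have e2 : v⁻¹ * (v * g * v⁻¹) * v = g := by group
        rwa [e2] at e
  rw [Finset.sum_congr rfl h4, Finset.sum_const, smul_eq_mul, hXc, p6] at h3
  have e4 : 0 < Nat.card π.ker * q := Nat.mul_pos Nat.card_pos h.pri.pos
  have e3 : (Nat.card π.ker * q) * (2 * (X.image fun b => cj b α).card) =
      (Nat.card π.ker * q) * (q - 1) := by
    calc (Nat.card π.ker * q) * (2 * (X.image fun b => cj b α).card)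
        = 2 * ((X.image fun b => cj b α).card * (Nat.card π.ker * q)) := by ring
      _ = 2 * Nat.card (B.comap π) := by rw [← h3]
      _ = Nat.card π.ker * (q * (q - 1)) := p7
      _ = _ := by ring
  have e5 := Nat.eq_of_mul_eq_mul_left e4 e3
  have := h.sev
  omega

end

theorem pf_PAC (h1 : T_PAB) (h2 : T_ABL) (h3 : T_SSQ) : T_PAC := by
  intro q A _ _ S U B h M _ _ π hr hk ν hν
  obtain ⟨p1, p2, p3, p4, p5, p6, p7, p8⟩ := h1 q A S U B h M π hr hk
  obtain ⟨fs0, hfs0, -⟩ := _root_.FI.Lib.lS9 M (U.comap π)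
  set fs := fs0.filter fun α => Over α ν with hfsdef
  have hfs : ∀ α, α ∈ fs ↔ α ∈ Ab (U.comap π) ν := by
    intro α
    rw [hfsdef, Finset.mem_filter, hfs0]
    rfl
  have hc := card_Ab h1 h2 h3 h hr hk hν fs hfs
  have h7 := h.sev
  obtain ⟨α, hα⟩ : fs.Nonempty := Finset.card_pos.1 (by omega)
  obtain ⟨α0, hα0, hinv⟩ := inv_ext h1 h2 h hr hk hν ((hfs α).1 hα)
  -- orbits
  set O : (M → ℂ) → Finset (M → ℂ) := fun α =>
    (Finset.univ.filter fun b : M => b ∈ B.comap π).image fun b => cj b α with hO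
  have hOm : ∀ α β, β ∈ O α ↔ ∃ b ∈ B.comap π, β = cj b α := by
    intro α β
    rw [hO]
    simp only [Finset.mem_image, Finset.mem_filter, Finset.mem_univ, true_and]
    constructor
    · rintro ⟨b, hb, rfl⟩
      exact ⟨b, hb, rfl⟩
    · rintro ⟨b, hb, rfl⟩
      exact ⟨b, hb, rfl⟩
  have hOc : ∀ α ∈ fs, α ≠ α0 → 2 * (O α).card + 1 = q := fun α hα hne =>
    orb_card h1 h2 h hr hk hν ((hfs α).1 hα) hα0 hinv hne
  have hcjAb : ∀ α ∈ fs, ∀ b ∈ B.comap π, cj b α ∈ fs := by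
    intro α hα b hb
    have hα' := (hfs α).1 hα
    rw [hfs]
    obtain ⟨a1, a2, a3⟩ := ab_lin h2 p1 p3 hν hα'
    have hiff : ∀ x, b * x * b⁻¹ ∈ U.comap π ↔ x ∈ U.comap π := by
      intro x
      constructor
      · intro hx
        have e := p4 b⁻¹ ((B.comap π).inv_mem hb) _ hx
        have e2 : b⁻¹ * (b * x * b⁻¹) * b⁻¹⁻¹ = x := by group
        rwa [e2] at e
      · intro hx
        exact p4 b hb x hx
    apply lin_mem h2 p1 p3 hν
    · intro g hg
      exact (_root_.FI.Lib.lS1 M _ α hα'.1).1 _ (fun h0 => hg ((hiff g).1 h0))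
    · simp only [cj, mul_one, mul_inv_cancel]
      exact a1.1
    · intro x hx y hy
      simp only [cj]
      rw [← a1.2 _ ((hiff x).2 hx) _ ((hiff y).2 hy)]
      congr 1
      group
    · intro z hz
      simp only [cj]
      have e : b * z * b⁻¹ = z := by
        rw [Subgroup.mem_center_iff.1 (hk hz) b, mul_inv_cancel_right]
      rw [e, a2 z hz]
  have hα0f : α0 ∈ fs := (hfs α0).2 hα0
  have hOsub : ∀ α ∈ fs, α ≠ α0 → O α ⊆ fs.erase α0 := by
    intro α hα hne β hβ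
    obtain ⟨b, hb, rfl⟩ := (hOm α β).1 hβ
    rw [Finset.mem_erase]
    refine ⟨?_, hcjAb α hα b hb⟩
    intro h0
    apply hne
    have e : cj b⁻¹ (cj b α) = α := by
      rw [← cj_mul, mul_inv_cancel, cj_one']
    rw [← e, h0, hinv _ ((B.comap π).inv_mem hb)]
  obtain ⟨α1, hα1⟩ : (fs.erase α0).Nonempty := by
    rw [← Finset.card_pos, Finset.card_erase_of_mem hα0f]
    omega
  obtain ⟨hne1, hα1f⟩ := Finset.mem_erase.1 hα1
  have hc1 := hOc α1 hα1f hne1
  have hs1 := hOsub α1 hα1f hne1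
  obtain ⟨α2, hα2⟩ : ((fs.erase α0) \ O α1).Nonempty := by
    rw [← Finset.card_pos, Finset.card_sdiff_of_subset hs1, Finset.card_erase_of_mem hα0f]
    omega
  obtain ⟨hα2e, hα2O⟩ := Finset.mem_sdiff.1 hα2
  obtain ⟨hne2, hα2f⟩ := Finset.mem_erase.1 hα2e
  have hc2 := hOc α2 hα2f hne2
  have hs2 := hOsub α2 hα2f hne2
  have hdisj : Disjoint (O α1) (O α2) := by
    rw [Finset.disjoint_left]
    intro β hβ1 hβ2
    obtain ⟨b, hb, rfl⟩ := (hOm α1 β).1 hβ1
    obtain ⟨c, hc', he⟩ := (hOm α2 _).1 hβ2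
    apply hα2O
    rw [hOm]
    refine ⟨b * c⁻¹, (B.comap π).mul_mem hb ((B.comap π).inv_mem hc'), ?_⟩
    rw [cj_mul, he, ← cj_mul, mul_inv_cancel, cj_one']
  have hun : O α1 ∪ O α2 = fs.erase α0 := by
    apply Finset.eq_of_subset_of_card_le (Finset.union_subset hs1 hs2)
    rw [Finset.card_union_of_disjoint hdisj, Finset.card_erase_of_mem hα0f]
    omega
  refine ⟨α0, α1, α2, ⟨hα0, (hfs _).1 hα1f, (hfs _).1 hα2f, hinv, ?_, ?_, ?_, ?_, ?_, ?_⟩⟩
  · intro β hβ
    by_cases h0 : β = α0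
    · exact Or.inl h0
    · have hβ' : β ∈ O α1 ∪ O α2 := by
        rw [hun, Finset.mem_erase]
        exact ⟨h0, (hfs β).2 hβ⟩
      rcases Finset.mem_union.1 hβ' with h4 | h4
      · exact Or.inr (Or.inl ((hOm _ _).1 h4))
      · exact Or.inr (Or.inr ((hOm _ _).1 h4))
  · intro b hb h0
    have := hs1 ((hOm α1 (cj b α1)).2 ⟨b, hb, rfl⟩)
    exact (Finset.mem_erase.1 this).1 h0
  · intro b hb h0
    have := hs2 ((hOm α2 (cj b α2)).2 ⟨b, hb, rfl⟩)
    exact (Finset.mem_erase.1 this).1 h0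
  · intro b hb h0
    exact hα2O ((hOm _ _).2 ⟨b, hb, h0.symm⟩)
  · intro b hb hs
    exact stabc h1 h2 h hr hk hν ((hfs _).1 hα1f) hα0 hinv hne1 hb hs
  · intro b hb hs
    exact stabc h1 h2 h hr hk hν ((hfs _).1 hα2f) hα0 hinv hne2 hb hs

theorem pf_PAS (h1 : T_PAB) (h2 : T_ABL) : T_PAS := by
  intro q A _ _ S U B h M _ _ π hr hk ν hν α0 α1 α2 hPA σ a ha haS hσz hσ
  obtain ⟨p1, p2, p3, p4, p5, p6, p7, p8⟩ := h1 q A S U B h M π hr hk
  -- `σ` preserves the two subgroups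
  have hσP : ∀ m, σ m ∈ U.comap π ↔ m ∈ U.comap π := by
    intro m
    rw [Subgroup.mem_comap, Subgroup.mem_comap, hσ]
    constructor
    · intro hm
      have e := h.nor a⁻¹ (B.inv_mem ha) _ hm
      have e2 : a⁻¹ * (a * π m * a⁻¹) * a⁻¹⁻¹ = π m := by group
      rwa [e2] at e
    · intro hm
      exact h.nor a ha _ hm
  have hσN : ∀ m, m ∈ B.comap π → σ m ∈ B.comap π := by
    intro m hm
    rw [Subgroup.mem_comap, hσ]
    exact B.mul_mem (B.mul_mem ha hm) (B.inv_mem ha)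
  have hcomp : ∀ α ∈ Ab (U.comap π) ν, (fun m => α (σ m)) ∈ Ab (U.comap π) ν := by
    intro α hα
    obtain ⟨a1, a2, a3⟩ := ab_lin h2 p1 p3 hν hα
    apply lin_mem h2 p1 p3 hν
    · intro g hg
      exact (_root_.FI.Lib.lS1 M _ α hα.1).1 _ (fun h0 => hg ((hσP g).1 h0))
    · simp only [map_one]
      exact a1.1
    · intro x hx y hy
      rw [map_mul, a1.2 _ ((hσP x).2 hx) _ ((hσP y).2 hy)]
    · intro z hz
      rw [hσz z hz, a2 z hz]
  -- the stabilisers are small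
  have hNP : ∃ b ∈ B.comap π, b ∉ U.comap π := by
    by_contra hcon
    push Not at hcon
    have h3 : B.comap π ≤ U.comap π := hcon
    have h4 : Nat.card (B.comap π) ≤ Nat.card (U.comap π) := Subgroup.card_le_of_le h3
    rw [p6] at h4
    have h5 : Nat.card π.ker * (q * (q - 1)) ≤ 2 * (Nat.card π.ker * q) := by
      rw [← p7]
      exact Nat.mul_le_mul_left 2 h4
    have h6 : (Nat.card π.ker * q) * (q - 1) ≤ (Nat.card π.ker * q) * 2 := by
      calc (Nat.card π.ker * q) * (q - 1) = Nat.card π.ker * (q * (q - 1)) := by ring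
        _ ≤ 2 * (Nat.card π.ker * q) := h5
        _ = _ := by ring
    have h7 := Nat.le_of_mul_le_mul_left h6 (Nat.mul_pos Nat.card_pos h.pri.pos)
    have := h.sev
    omega
  obtain ⟨b1, hb1, hb1P⟩ := hNP
  -- the invariant character
  have h0 : (fun m => α0 (σ m)) = α0 := by
    have hinv : ∀ b ∈ B.comap π, cj b (fun m => α0 (σ m)) = fun m => α0 (σ m) := by
      intro b hb
      funext x
      simp only [cj]
      rw [map_mul, map_mul, map_inv]
      exact congrFun (hPA.inv (σ b) (hσN b hb)) (σ x)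
    have hcase : ∀ α : M → ℂ, (∀ b ∈ B.comap π, cj b α = α → b ∈ U.comap π) →
        ∀ b ∈ B.comap π, (fun m => α0 (σ m)) ≠ cj b α := by
      intro α hs b hb he
      have e1 := hinv b1 hb1
      rw [he, ← cj_mul] at e1
      have e2 : cj (b * b1 * b⁻¹) α = α := by
        rw [cj_mul, e1, ← cj_mul, mul_inv_cancel, cj_one']
      have e3 := hs _ ((B.comap π).mul_mem ((B.comap π).mul_mem hb hb1)
        ((B.comap π).inv_mem hb)) e2
      apply hb1P
      have e4 := p4 b⁻¹ ((B.comap π).inv_mem hb) _ e3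
      have e5 : b⁻¹ * (b * b1 * b⁻¹) * b⁻¹⁻¹ = b1 := by group
      rwa [e5] at e4
    rcases hPA.all _ (hcomp α0 hPA.m0) with h3 | ⟨b, hb, h3⟩ | ⟨b, hb, h3⟩
    · exact h3
    · exact absurd h3 (hcase α1 hPA.s1 b hb)
    · exact absurd h3 (hcase α2 hPA.s2 b hb)
  have hne : α2 ≠ α0 := by
    intro he
    apply hPA.n2 1 (B.comap π).one_mem
    rw [cj_one', he]
  rcases hPA.all _ (hcomp α2 hPA.m2) with h3 | ⟨b, hb, h3⟩ | ⟨b, hb, h3⟩
  · exfalso
    apply hne
    funext m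
    have e1 := congrFun h3 (σ.symm m)
    have e2 := congrFun h0 (σ.symm m)
    simp only [MulEquiv.apply_symm_apply] at e1 e2
    rw [e1, e2]
  · exact ⟨b, hb, h3⟩
  · exfalso
    obtain ⟨x, hx, hx1⟩ := exists_x h hr
    have hbx := p4 b hb x hx
    have hval : ∀ f ∈ Ab (U.comap π) ν, f (σ x) = f (b * x * b⁻¹) →
        f (σ x * (b * x * b⁻¹)⁻¹) = 1 := by
      intro f hf he
      obtain ⟨a1, a2, a3⟩ := ab_lin h2 p1 p3 hν hf
      rw [a1.2 _ ((hσP x).2 hx) _ ((U.comap π).inv_mem hbx), he,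
        ← a1.2 _ hbx _ ((U.comap π).inv_mem hbx), mul_inv_cancel, a1.1]
    have e1 := hval α2 hPA.m2 (congrFun h3 x)
    have e2 := hval α0 hPA.m0 ((congrFun h0 x).trans (congrFun (hPA.inv b hb) x).symm)
    have hy := keyc h1 h2 h hr hk hν hPA.m2 hPA.m0 hne
      ((U.comap π).mul_mem ((hσP x).2 hx) ((U.comap π).inv_mem hbx)) (by rw [e1, e2])
    rw [MonoidHom.mem_ker, map_mul, map_inv, map_mul, map_mul, map_inv, hσ,
      mul_inv_eq_one] at hy
    have h4 := h.reg ((π b)⁻¹ * a) (B.mul_mem (B.inv_mem hb) ha) (π x) hx hx1 (by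
      have e3 : (π b)⁻¹ * a * π x = (π b)⁻¹ * (a * π x * a⁻¹) * a := by group
      rw [e3, hy]
      group)
    apply haS
    have h5 : a = π b * ((π b)⁻¹ * a) := by group
    rw [h5]
    exact S.mul_mem (by rw [← hr]; exact ⟨b, rfl⟩) (h.US h4)

end Pool.Agent.H6.FIB
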