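import Pool.Agent.H6.FIB.Ind

/-!
# MP_7500ea_al, board fib_modules, rows PIX, PRI
-/

open scoped Classical ComplexConjugate

namespace Pool.Agent.H6.FIB

open _root_.FI AMc AMt

/-- the number of characters over a character of a subgroup -/
theorem over_card {Γ : Type} [Group Γ] [Fintype Γ] (V : Subgroup Γ) (ξ : Γ → ℂ)
    (hξ : ξ ∈ IrrS V) : {χ | χ ∈ IrrS (⊤ : Subgroup Γ) ∧ Over χ ξ}.Finite ∧
      {χ | χ ∈ IrrS (⊤ : Subgroup Γ) ∧ Over χ ξ}.ncard ≤ V.index := by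
  obtain ⟨fs, hfs, -⟩ := _root_.FI.Lib.lS9 Γ ⊤
  have hset : {χ | χ ∈ IrrS (⊤ : Subgroup Γ) ∧ Over χ ξ} = ↑(fs.filter fun χ => Over χ ξ) := by
    ext χ
    simp only [Finset.coe_filter, Set.mem_ofPred_eq, hfs]
  obtain ⟨d, hd, hd1⟩ := (_root_.FI.Lib.lS1 Γ V ξ hξ).2.2.1
  have h1 := indf_expand V ξ fs hfs 1
  rw [indf_one] at h1
  have h2 := congrArg Complex.re h1
  rw [Complex.re_sum, hd1, ← Nat.cast_mul, Complex.natCast_re] at h2
  have hpos : ∀ χ ∈ fs, 0 ≤ ((∑ g, ξ g * conj (χ g)) / (Nat.card V : ℂ) * χ 1).re := by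
    intro χ hχ
    obtain ⟨k, -, hk, -⟩ := mult_nat le_top ((hfs χ).1 hχ) hξ
    obtain ⟨e, he, he1⟩ := (_root_.FI.Lib.lS1 Γ ⊤ χ ((hfs χ).1 hχ)).2.2.1
    rw [hk, he1, ← Nat.cast_mul, Complex.natCast_re]
    positivity
  have hge : ∀ χ ∈ fs.filter (fun χ => Over χ ξ),
      (d : ℝ) ≤ ((∑ g, ξ g * conj (χ g)) / (Nat.card V : ℂ) * χ 1).re := by
    intro χ hχ
    obtain ⟨hχ1, hχ2⟩ := Finset.mem_filter.1 hχ
    obtain ⟨k, -, hk, hk0⟩ := mult_nat le_top ((hfs χ).1 hχ1) hξ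
    obtain ⟨e, he, he1⟩ := (_root_.FI.Lib.lS1 Γ ⊤ χ ((hfs χ).1 hχ1)).2.2.1
    have h3 := deg_le le_top ((hfs χ).1 hχ1) hξ hχ2
    rw [hd1, he1, Complex.natCast_re, Complex.natCast_re] at h3
    have h4 : d ≤ e := by exact_mod_cast h3
    rw [hk, he1, ← Nat.cast_mul, Complex.natCast_re]
    have h5 : 1 ≤ k := Nat.one_le_iff_ne_zero.2 (hk0.1 hχ2)
    have h6 : 1 * d ≤ k * e := Nat.mul_le_mul h5 h4
    rw [one_mul] at h6
    exact_mod_cast h6
  have h3 : ((fs.filter fun χ => Over χ ξ).card : ℝ) * d ≤ ((V.index * d : ℕ) : ℝ) := by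
    rw [h2]
    calc ((fs.filter fun χ => Over χ ξ).card : ℝ) * d
        = ∑ χ ∈ fs.filter (fun χ => Over χ ξ), (d : ℝ) := by
          rw [Finset.sum_const, nsmul_eq_mul]
      _ ≤ ∑ χ ∈ fs.filter (fun χ => Over χ ξ),
          ((∑ g, ξ g * conj (χ g)) / (Nat.card V : ℂ) * χ 1).re := Finset.sum_le_sum hge
      _ ≤ _ := Finset.sum_le_sum_of_subset_of_nonneg (Finset.filter_subset _ _)
          (fun χ hχ _ => hpos χ hχ)
  rw [hset]
  refine ⟨Finset.finite_toSet _, ?_⟩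
  rw [Set.ncard_coe_finset]
  have h4 : (fs.filter fun χ => Over χ ξ).card * d ≤ V.index * d := by exact_mod_cast h3
  exact Nat.le_of_mul_le_mul_right h4 hd

theorem pf_PIX (_h1 : T_CLF) (h2 : T_KKP) : T_PIX := by
  intro Γ _ _ M V hMV ψ hψ
  obtain ⟨hfin, -, -⟩ := h2 Γ M V hMV ψ hψ
  have hsub : Ab (⊤ : Subgroup Γ) ψ ⊆
      ⋃ η ∈ hfin.toFinset, {χ | χ ∈ IrrS (⊤ : Subgroup Γ) ∧ Over χ η} := by
    rintro χ ⟨hχ, hχψ⟩
    obtain ⟨η, hη, h2, h3⟩ := (_root_.FI.Lib.lOT Γ M V ⊤ hMV le_top χ hχ ψ hψ).1 hχψ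
    refine Set.mem_biUnion (x := η) ?_ ⟨hχ, h2⟩
    exact hfin.mem_toFinset.2 ⟨hη, h3⟩
  have hbf : (⋃ η ∈ hfin.toFinset, {χ | χ ∈ IrrS (⊤ : Subgroup Γ) ∧ Over χ η}).Finite := by
    refine Set.Finite.biUnion (Finset.finite_toSet _) fun η hη => ?_
    exact (over_card V η (hfin.mem_toFinset.1 hη).1).1
  unfold kk
  refine (Set.ncard_le_ncard hsub hbf).trans ?_
  refine (Finset.set_ncard_biUnion_le _ _).trans ?_
  refine (Finset.sum_le_card_nsmul _ _ V.index fun η hη =>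
    (over_card V η (hfin.mem_toFinset.1 hη).1).2).trans ?_
  rw [smul_eq_mul, mul_comm, Set.ncard_eq_toFinset_card _ hfin]

theorem pf_PRI (h1 : T_CLF) : T_PRI := by
  intro Γ _ _ V hV hp χ hχ
  obtain ⟨fs, hfs, -⟩ := _root_.FI.Lib.lS9 Γ ⊤
  have hset : Ab ⊤ χ = ↑(fs.filter fun η => Over η χ) := by
    ext η
    simp only [Finset.coe_filter, Set.mem_ofPred_eq, hfs]
    rfl
  constructor
  · intro hinv
    have hVn : V.Normal := ⟨fun n hn g => hV.nor g trivial n hn⟩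
    have hne : V ≠ ⊤ := by
      intro h
      rw [h, Subgroup.index_top] at hp
      exact Nat.not_prime_one hp
    obtain ⟨g, -, hg⟩ := SetLike.exists_of_lt (lt_top_iff_ne_top.2 hne)
    have hcyc : ∀ h ∈ (⊤ : Subgroup Γ), ∃ c : ℕ, ∃ k ∈ V, h = g ^ c * k := by
      intro h _
      have hcard : Nat.card (Γ ⧸ V) = V.index := rfl
      have : Fact (V.index).Prime := ⟨hp⟩
      have hgen := mem_powers_of_prime_card (p := V.index) hcard
        (g := ((g : Γ) : Γ ⧸ V)) (g' := ((h : Γ) : Γ ⧸ V)) (by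
          intro h0
          exact hg ((QuotientGroup.eq_one_iff g).1 h0))
      obtain ⟨c, hc⟩ := Submonoid.mem_powers_iff _ _ |>.1 hgen
      refine ⟨c, (g ^ c)⁻¹ * h, ?_, by group⟩
      rw [← QuotientGroup.mk_pow] at hc
      exact QuotientGroup.eq.1 hc
    have hext : ∀ η ∈ IrrS (⊤ : Subgroup Γ), Over η χ → ∀ k ∈ V, η k = χ k :=
      _root_.FI.Lib.lCX Γ V ⊤ hV g trivial hcyc χ hχ (hinv g)
    obtain ⟨d, hd, hd1⟩ := (_root_.FI.Lib.lS1 Γ V χ hχ).2.2.1
    have hV0 : (Nat.card V : ℂ) ≠ 0 := by exact_mod_cast Nat.card_pos.ne'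
    have h2 := indf_expand V χ fs hfs 1
    rw [indf_one] at h2
    have h3 : ∀ η ∈ fs, (∑ g, χ g * conj (η g)) / (Nat.card V : ℂ) * η 1 =
        if Over η χ then (d : ℂ) else 0 := by
      intro η hη
      obtain ⟨k, hk1, hk2, hk3⟩ := mult_nat le_top ((hfs η).1 hη) hχ
      split_ifs with ho
      · have e1 := hext η ((hfs η).1 hη) ho
        have e2 : ∑ g, χ g * conj (η g) = (Nat.card V : ℂ) := by
          have e3 := _root_.FI.Lib.lS2 Γ V χ χ hχ hχ
          rw [if_pos rfl] at e3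
          rw [← e3]
          apply Finset.sum_congr rfl
          intro g _
          by_cases hg : g ∈ V
          · rw [e1 g hg]
          · rw [(_root_.FI.Lib.lS1 Γ V χ hχ).1 g hg, zero_mul, zero_mul]
        rw [e2, div_self hV0, one_mul, e1 1 V.one_mem, hd1]
      · rw [hk2]
        have : k = 0 := by
          by_contra h
          exact ho (hk3.2 h)
        rw [this, Nat.cast_zero, zero_mul]
    rw [Finset.sum_congr rfl h3, ← Finset.sum_filter, Finset.sum_const, nsmul_eq_mul, hd1] at h2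
    have hd0 : (d : ℂ) ≠ 0 := by exact_mod_cast hd.ne'
    have h4 := mul_right_cancel₀ hd0 h2
    rw [kk, hset, Set.ncard_coe_finset]
    exact_mod_cast h4.symm
  · intro hinv
    obtain ⟨c1, -, -⟩ := h1 Γ V ⊤ hV χ hχ
    have hst : stab ⊤ χ = V := by
      have hidx := Subgroup.relIndex_mul_index c1
      have hne : (stab ⊤ χ).index ≠ 1 := by
        intro h
        apply hinv
        intro g
        have : g ∈ stab ⊤ χ := by rw [Subgroup.index_eq_one.1 h]; trivial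
        exact this.2
      have h2 : (stab ⊤ χ).index = V.index := by
        rcases (Nat.dvd_prime hp).1 (Dvd.intro_left _ hidx) with h | h
        · exact absurd h hne
        · exact h
      rw [h2] at hidx
      have h3 : V.relIndex (stab ⊤ χ) = 1 :=
        Nat.eq_of_mul_eq_mul_right hp.pos (by rw [hidx, one_mul])
      exact le_antisymm (Subgroup.relIndex_eq_one.1 h3) c1
    refine ⟨?_, hst⟩
    obtain ⟨η, hη, ho⟩ := _root_.FI.Lib.lE4 Γ V ⊤ hV.le χ hχ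
    have huniq := (_root_.FI.Lib.lE7 Γ V ⊤ hV.le hV.nor η hη χ hχ ho (by
      intro u _ hu
      rw [← hst]
      exact ⟨trivial, hu⟩)).2.2
    have : Ab ⊤ χ = {η} := by
      ext η'
      constructor
      · rintro ⟨h5, h6⟩
        exact huniq η' h5 h6
      · rintro rfl
        exact ⟨hη, ho⟩
    rw [kk, this, Set.ncard_singleton]

end Pool.Agent.H6.FIB
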