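import Pool.Agent.H6.FIB.Ind

/-!
# MP_7500ea_al, board fib_modules, rows TIM, RSM
-/

open scoped Classical ComplexConjugate

namespace Pool.Agent.H6.FIB

open _root_.FI AMc AMt

/-- characters of an abelian subgroup containing `Z`, over `ν` -/
theorem ab_lin (h1 : T_ABL) {Γ : Type} [Group Γ] [Fintype Γ] {Z P : Subgroup Γ} (hZP : Z ≤ P)
    (hP : ∀ a ∈ P, ∀ b ∈ P, a * b = b * a) {ν α : Γ → ℂ} (hν : ν ∈ IrrS Z) (hα : α ∈ Ab P ν) :
    (α 1 = 1 ∧ ∀ a ∈ P, ∀ b ∈ P, α (a * b) = α a * α b) ∧ (∀ z ∈ Z, α z = ν z) ∧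
      ∀ x ∈ P, α x * conj (α x) = 1 := by
  have hl := h1 Γ P hP α hα.1
  have hlν := h1 Γ Z (fun a ha b hb => hP a (hZP ha) b (hZP hb)) ν hν
  refine ⟨hl, ?_, ?_⟩
  · obtain ⟨k, hk, -, hk0⟩ := mult_nat hZP hα.1 hν
    have hn : ∀ u ∈ P, ∀ g ∈ Z, u * g * u⁻¹ ∈ Z := by
      intro u hu g hg
      rw [hP u hu g (hZP hg), mul_inv_cancel_right]
      exact hg
    obtain ⟨a, t, ha, ht, -, e1, -, e2⟩ := _root_.FI.Lib.lE3 Γ Z P hZP hn α hα.1 ν hν hα.2
    intro z hz
    have h := e2 z hz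
    have hP0 : (Nat.card P : ℂ) ≠ 0 := by exact_mod_cast Nat.card_pos.ne'
    have h2 : ∑ u : P, ν ((u : Γ) * z * (u : Γ)⁻¹) = (Nat.card P : ℂ) * ν z := by
      have : ∀ u : P, ν ((u : Γ) * z * (u : Γ)⁻¹) = ν z := by
        intro u
        congr 1
        rw [hP u u.2 z (hZP hz)]; simp
      rw [Finset.sum_congr rfl (fun u _ => this u), Finset.sum_const, nsmul_eq_mul,
        Finset.card_univ, Nat.card_eq_fintype_card]
    rw [h2, ← mul_assoc, mul_comm ((a : ℂ) * t), mul_assoc] at h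
    rw [hl.1, hlν.1, mul_one] at e1
    rw [← e1, one_mul] at h
    exact mul_left_cancel₀ hP0 h
  · intro x hx
    rw [(_root_.FI.Lib.lS1 Γ P α hα.1).2.2.2.1 x, ← hl.2 x hx _ (P.inv_mem hx), mul_inv_cancel,
      hl.1]

theorem pf_RSM (h1 : T_ABL) : T_RSM := by
  intro Γ _ _ Z P hZP hZ hP ν hν χ hχ
  obtain ⟨fs, hfs, -⟩ := _root_.FI.Lib.lS9 Γ P
  have hset : Ab P ν = ↑(fs.filter fun α => Over α ν) := by
    ext α
    simp only [Finset.coe_filter, Set.mem_ofPred_eq, hfs]
    rfl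
  have hrest : ∀ x ∈ P, χ x = ∑ᶠ α ∈ Ab P ν, ml P χ α * α x := by
    intro x hx
    rw [restr le_top hχ.1 fs hfs x hx, hset, finsum_mem_coe_finset, Finset.sum_filter]
    apply Finset.sum_congr rfl
    intro α hα
    split_ifs with ho
    · rfl
    · have h0 : ¬ Over χ α := by
        intro hoα
        apply ho
        -- a constituent of `α` on `Z`
        obtain ⟨ν', hν', hαν'⟩ := _root_.FI.Lib.lE1 Γ Z P hZP α ((hfs α).1 hα)
        have hχν' : Over χ ν' := (_root_.FI.Lib.lOT Γ Z P ⊤ hZP le_top χ hχ.1 ν' hν').2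
          ⟨α, (hfs α).1 hα, hoα, hαν'⟩
        obtain ⟨u, -, hu⟩ := _root_.FI.Lib.lE2 Γ Z ⊤ le_top (by
          intro u _ g hg
          rw [← hZ g hg u, mul_inv_cancel_right]; exact hg) χ hχ.1 ν hν ν' hν' hχ.2 hχν'
        have hcj : cj u ν = ν := by
          funext g
          simp only [cj]
          by_cases hg : g ∈ Z
          · rw [← hZ g hg u, mul_inv_cancel_right]
          · rw [(_root_.FI.Lib.lS1 Γ Z ν hν).1 g hg, (_root_.FI.Lib.lS1 Γ Z ν hν).1]
            intro h
            apply hg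
            have h2 := hZ _ h u
            have h3 : g = u * g * u⁻¹ := by
              have : u * g * u⁻¹ * u = u * (u * g * u⁻¹) := h2
              rw [inv_mul_cancel_right] at this
              exact mul_left_cancel this
            rw [h3]; exact h
        rw [hcj] at hu
        rw [hu] at hαν'
        exact hαν'
      obtain ⟨k, hk, -, hk0⟩ := mult_nat (le_top : P ≤ ⊤) hχ.1 ((hfs α).1 hα)
      rw [hk]
      have : k = 0 := by
        by_contra h
        exact h0 (hk0.2 h)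
      rw [this, Nat.cast_zero, zero_mul]
  refine ⟨?_, hrest, ?_, ?_⟩
  · intro α hα
    obtain ⟨k, hk, -, -⟩ := mult_nat (le_top : P ≤ ⊤) hχ.1 hα.1
    exact ⟨k, hk⟩
  · rw [hrest 1 P.one_mem]
    apply finsum_mem_congr rfl
    intro α hα
    rw [(ab_lin h1 hZP hP hν hα).1.1, mul_one]
  · intro α b
    unfold ml cj
    congr 1
    rw [← sum_conj_eq (fun g => χ g * conj (α g)) b]
    apply Finset.sum_congr rfl
    intro g _
    rw [(_root_.FI.Lib.lS1 Γ ⊤ χ hχ.1).2.1 b trivial g]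

theorem pf_TIM (h1 : T_ABL) : T_TIM := by
  intro Γ _ _ Z P N hZP hPN hZ hP hNP hTI ν hν α hα β hβ
  obtain ⟨fs, hfs, -⟩ := _root_.FI.Lib.lS9 Γ ⊤
  have hset : Ab ⊤ ν = ↑(fs.filter fun χ => Over χ ν) := by
    ext χ
    simp only [Finset.coe_filter, Set.mem_ofPred_eq, hfs]
    rfl
  have hP0 : (Nat.card P : ℂ) ≠ 0 := by exact_mod_cast Nat.card_pos.ne'
  have hΓ0 : (Nat.card Γ : ℂ) ≠ 0 := by exact_mod_cast Nat.card_pos.ne'
  -- the sum over all characters
  have hsum : ∑ᶠ χ ∈ Ab ⊤ ν, ml P χ α * ml P χ β = ∑ χ ∈ fs, ml P χ α * ml P χ β := by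
    rw [hset, finsum_mem_coe_finset, Finset.sum_filter]
    apply Finset.sum_congr rfl
    intro χ hχ
    split_ifs with ho
    · rfl
    · obtain ⟨k, hk, -, hk0⟩ := mult_nat (le_top : P ≤ ⊤) ((hfs χ).1 hχ) hα.1
      have hk1 : k = 0 := by
        by_contra h
        apply ho
        exact (_root_.FI.Lib.lOT Γ Z P ⊤ hZP le_top χ ((hfs χ).1 hχ) ν hν).2
          ⟨α, hα.1, hk0.2 h, hα.2⟩
      have : ml P χ α = 0 := by
        change (∑ g, χ g * conj (α g)) / (Nat.card P : ℂ) = 0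
        rw [hk, hk1, Nat.cast_zero]
      rw [this, zero_mul]
  rw [hsum]
  -- the value as a sum over `P`
  have h2 : ∑ χ ∈ fs, ml P χ α * ml P χ β =
      (∑ x, indf P α x * conj (β x)) / (Nat.card P : ℂ) := by
    have e1 : ∀ x, indf P α x * conj (β x) =
        ∑ χ ∈ fs, ml P χ α * (χ x * conj (β x)) := by
      intro x
      rw [indf_expand P α fs hfs x, Finset.sum_mul]
      apply Finset.sum_congr rfl
      intro χ hχ
      obtain ⟨k, hk, hk', -⟩ := mult_nat (le_top : P ≤ ⊤) ((hfs χ).1 hχ) hα.1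
      have : ml P χ α = k := hk
      rw [hk', this]
      ring
    rw [Finset.sum_congr rfl (fun x _ => e1 x), Finset.sum_comm, Finset.sum_div]
    apply Finset.sum_congr rfl
    intro χ _
    rw [← Finset.mul_sum, mul_div_assoc]
    rfl
  rw [h2]
  have hα0 := (_root_.FI.Lib.lS1 Γ P α hα.1).1
  have hβ0 := (_root_.FI.Lib.lS1 Γ P β hβ.1).1
  obtain ⟨a1, a2, a3⟩ := ab_lin h1 hZP hP hν hα
  obtain ⟨b1, b2, b3⟩ := ab_lin h1 hZP hP hν hβ
  have h3 : ∑ x, indf P α x * conj (β x) =
      (∑ u : Γ, ∑ x, cj u α x * conj (β x)) / (Nat.card P : ℂ) := by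
    have e1 : ∀ x, indf P α x * conj (β x) =
        (∑ u : Γ, cj u α x * conj (β x)) / (Nat.card P : ℂ) := by
      intro x
      unfold indf cj
      rw [← Finset.sum_mul]
      ring
    rw [Finset.sum_congr rfl (fun x _ => e1 x), ← Finset.sum_div, Finset.sum_comm]
  rw [h3]
  -- the inner sums
  have h4 : ∀ u : Γ, ∑ x, cj u α x * conj (β x) =
      if u ∈ N then (if cj u α = β then (Nat.card P : ℂ) else 0) else (Nat.card Z : ℂ) := by
    intro u
    split_ifs with hu hu2
    · rw [hu2]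
      have e1 := _root_.FI.Lib.lS2 Γ P β β hβ.1 hβ.1
      rw [if_pos rfl] at e1
      exact e1
    · have hcj : cj u α ∈ IrrS P := by
        apply _root_.FI.Lib.lS7 Γ P P u _ α hα.1
        intro g
        constructor
        · intro hg
          exact hNP u hu g hg
        · intro hg
          have := hNP u⁻¹ (N.inv_mem hu) _ hg
          have e : u⁻¹ * (u * g * u⁻¹) * u⁻¹⁻¹ = g := by group
          rwa [e] at this
      have e1 := _root_.FI.Lib.lS2 Γ P (cj u α) β hcj hβ.1
      rw [if_neg hu2] at e1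
      exact e1
    · have e1 : ∀ x, cj u α x * conj (β x) = if x ∈ Z then (1 : ℂ) else 0 := by
        intro x
        simp only [cj]
        split_ifs with hx
        · have e2 : u * x * u⁻¹ = x := by rw [← hZ x hx u, mul_inv_cancel_right]
          rw [e2, a2 x hx, ← b2 x hx, b3 x (hZP hx)]
        · by_cases hxP : x ∈ P
          · by_cases hy : u * x * u⁻¹ ∈ P
            · exact absurd (hTI u hu x hxP hy) hx
            · rw [hα0 _ hy, zero_mul]
          · rw [hβ0 _ hxP, map_zero, mul_zero]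
      rw [Finset.sum_congr rfl (fun x _ => e1 x), Finset.sum_ite, Finset.sum_const,
        Finset.sum_const_zero, add_zero, nsmul_eq_mul, mul_one]
      congr 1
      rw [Nat.card_eq_fintype_card, ← Fintype.card_subtype]
  rw [Finset.sum_congr rfl (fun u _ => h4 u), Finset.sum_ite, Finset.sum_const, nsmul_eq_mul,
    Finset.sum_ite, Finset.sum_const, Finset.sum_const_zero, add_zero, nsmul_eq_mul]
  have hcN : ((Finset.univ.filter (fun u : Γ => u ∉ N)).card : ℂ) =
      (Nat.card Γ : ℂ) - Nat.card N := by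
    have e1 := Finset.card_filter_add_card_filter_not (s := (Finset.univ : Finset Γ))
      (p := fun u => u ∈ N)
    have e2 : (Finset.univ.filter (fun u : Γ => u ∈ N)).card = Nat.card N := by
      rw [Nat.card_eq_fintype_card, ← Fintype.card_subtype]
    rw [e2, Finset.card_univ, ← Nat.card_eq_fintype_card] at e1
    rw [← e1]
    push_cast
    ring
  have hcb : ((Finset.filter (fun u => cj u α = β)
      (Finset.filter (fun u : Γ => u ∈ N) Finset.univ)).card : ℂ) =
      (Nat.card {b : N // cj (b : Γ) α = β} : ℂ) := by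
    congr 1
    rw [Finset.filter_filter, Nat.card_congr (Equiv.subtypeSubtypeEquivSubtypeInter
      (fun u : Γ => u ∈ N) (fun u : Γ => cj u α = β)), Nat.card_eq_fintype_card,
      ← Fintype.card_subtype]
  rw [hcN, hcb]
  field_simp
  ring

end Pool.Agent.H6.FIB
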