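import Pool.Agent.H6.FIB.IOA

/-!
# MP_7500ea_al, board fib_modules, row ZCH
-/

open scoped Classical ComplexConjugate

namespace Pool.Agent.H6.FIB

open _root_.FI AMc AMt

theorem schur_scalar {G : Type} [Group G] {n : ℕ} (ρ : Representation ℂ G (Fin n → ℂ))
    (h : ρ.IsIrreducible) (f : Module.End ℂ (Fin n → ℂ)) (hf : ∀ g, f * ρ g = ρ g * f) :
    ∃ c : ℂ, f = c • 1 := by
  let F : Representation.IntertwiningMap ρ ρ := { f with isIntertwining' := hf }
  obtain ⟨c, hc⟩ :=
    (Representation.IsIrreducible.algebraMap_intertwiningMap_bijective_of_isAlgClosed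
      (ρ := ρ)).2 F
  refine ⟨c, ?_⟩
  have h2 := congrArg (fun k => k.toLinearMap) hc
  exact h2.symm

/-- an irreducible representation all of whose operators commute with all endomorphisms has
dimension 1 -/
theorem dim_one {G : Type} [Group G] {n : ℕ} (ρ : Representation ℂ G (Fin n → ℂ))
    (h : ρ.IsIrreducible) (hall : ∀ (g : G) (f : Module.End ℂ (Fin n → ℂ)), f * ρ g = ρ g * f) :
    n = 1 := by
  have h1 : Module.finrank ℂ (Module.End ℂ (Fin n → ℂ)) ≤ 1 := by
    apply finrank_le_one (1 : Module.End ℂ (Fin n → ℂ))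
    intro f
    obtain ⟨c, hc⟩ := schur_scalar ρ h f (fun g => hall g f)
    exact ⟨c, hc.symm⟩
  rw [Module.finrank_linearMap, Module.finrank_fin_fun] at h1
  have h2 : n ≠ 0 := by
    rintro rfl
    have h3 := Representation.IsIrreducible.finrank_intertwiningMap_self ρ
    have h4 : Subsingleton (Representation.IntertwiningMap ρ ρ) := by
      constructor
      intro a b
      ext x i
      exact i.elim0
    rw [Module.finrank_zero_of_subsingleton] at h3
    exact absurd h3 (by norm_num)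
  have h3 : n * n ≤ 1 := h1
  have h4 : 1 ≤ n := Nat.one_le_iff_ne_zero.2 h2
  nlinarith

theorem pf_ZCH (h1 : T_ABL) : T_ZCH := by
  intro A _ _ S hA M _ _ π hπ hcen χ hχ P α hα hab hres hx
  rw [irr_top] at hχ
  obtain ⟨n, ρ, hirr, hρ⟩ := hχ
  obtain ⟨hα1, hαm⟩ := h1 M P hab α hα
  obtain ⟨hαsupp, -, -, hαc, -, -⟩ := _root_.FI.Lib.lS1 M P α hα
  -- `α x * conj (α x) = 1`
  have hαα : ∀ x ∈ P, conj (α x) * α x = 1 := by
    intro x hx
    rw [hαc, ← hαm _ (P.inv_mem hx) _ hx, inv_mul_cancel, hα1]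
  have hP0 : (Nat.card P : ℂ) ≠ 0 := by exact_mod_cast (Nat.card_pos (α := P)).ne'
  have hchar1 : χ 1 = n := by
    rw [← hρ, Representation.char_one, Module.finrank_fin_fun]
  -- the sum
  let T : Module.End ℂ (Fin n → ℂ) := ∑ x : P, conj (α x) • ρ x
  have hT : ∀ y : P, (conj (α y) • ρ y) * T = T := by
    intro y
    change (conj (α y) • ρ y) * (∑ x : P, conj (α x) • ρ x) = ∑ x : P, conj (α x) • ρ x
    rw [Finset.mul_sum, ← Equiv.sum_comp (Equiv.mulLeft y) (fun x : P => conj (α x) • ρ x)]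
    apply Finset.sum_congr rfl
    intro x _
    rw [Equiv.coe_mulLeft, Subgroup.coe_mul, hαm _ y.2 _ x.2, map_mul, map_mul,
      smul_mul_smul_comm]
  have hTT : T * T = (Nat.card P : ℂ) • T := by
    have e : T * T = ∑ y : P, (conj (α y) • ρ y) * T := by
      rw [← Finset.sum_mul]
    rw [e, Finset.sum_congr rfl (fun y _ => hT y), Finset.sum_const, Finset.card_univ,
      ← Nat.card_eq_fintype_card, ← Nat.cast_smul_eq_nsmul ℂ]
  have htr : LinearMap.trace ℂ (Fin n → ℂ) T = (Nat.card P : ℂ) * n := by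
    change LinearMap.trace ℂ (Fin n → ℂ) (∑ x : P, conj (α x) • ρ x) = _
    rw [map_sum]
    have e : ∀ x : P, LinearMap.trace ℂ (Fin n → ℂ) (conj (α x) • ρ x) = n := by
      intro x
      rw [map_smul, smul_eq_mul]
      have h3 : LinearMap.trace ℂ (Fin n → ℂ) (ρ x) = χ x := by rw [← hρ]; rfl
      rw [h3, hres x x.2, hchar1]
      have := hαα x x.2
      linear_combination (n : ℂ) * this
    rw [Finset.sum_congr rfl (fun x _ => e x), Finset.sum_const, Finset.card_univ,
      ← Nat.card_eq_fintype_card, nsmul_eq_mul]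
  -- the projection `1 - e`
  have hidem : IsIdempotentElem (1 - (Nat.card P : ℂ)⁻¹ • T) := by
    apply IsIdempotentElem.one_sub
    change ((Nat.card P : ℂ)⁻¹ • T) * ((Nat.card P : ℂ)⁻¹ • T) = (Nat.card P : ℂ)⁻¹ • T
    rw [smul_mul_smul_comm, hTT, smul_smul]
    congr 1
    field_simp
  have hzero : 1 - (Nat.card P : ℂ)⁻¹ • T = 0 := by
    apply LinearMap.IsIdempotentElem.eq_zero_of_trace_eq_zero hidem
    rw [map_sub, map_smul, htr, LinearMap.trace_one, Module.finrank_fin_fun, smul_eq_mul]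
    field_simp
    ring
  have hone : (Nat.card P : ℂ)⁻¹ • T = 1 := (sub_eq_zero.1 hzero).symm
  have hsc : ∀ y ∈ P, ∀ f : Module.End ℂ (Fin n → ℂ), f * ρ y = ρ y * f := by
    intro y hy f
    have e1 : conj (α y) • ρ y = 1 := by
      have e2 := hT ⟨y, hy⟩
      have e3 : (conj (α y) • ρ y) * ((Nat.card P : ℂ)⁻¹ • T) = (Nat.card P : ℂ)⁻¹ • T := by
        rw [mul_smul_comm, e2]
      rw [hone, mul_one] at e3
      exact e3
    have e4 : ρ y = α y • 1 := by
      rw [← e1, smul_smul, mul_comm (α y), hαα y hy, one_smul]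
    rw [e4, mul_smul_comm, smul_mul_assoc, mul_one, one_mul]
  -- the subgroup of elements acting by scalars
  let H : Subgroup M :=
    { carrier := {m | ∀ f : Module.End ℂ (Fin n → ℂ), f * ρ m = ρ m * f}
      mul_mem' := by
        intro a b ha hb f
        rw [map_mul, ← mul_assoc, ha f, mul_assoc, hb f, mul_assoc]
      one_mem' := by
        intro f
        rw [map_one, mul_one, one_mul]
      inv_mem' := by
        intro a ha f
        have e1 : ρ a⁻¹ * ρ a = 1 := by rw [← map_mul, inv_mul_cancel, map_one]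
        have e2 : ρ a * ρ a⁻¹ = 1 := by rw [← map_mul, mul_inv_cancel, map_one]
        have e3 := ha f
        calc f * ρ a⁻¹ = ρ a⁻¹ * (ρ a * f) * ρ a⁻¹ := by
              rw [← mul_assoc, e1, one_mul]
          _ = ρ a⁻¹ * (f * ρ a) * ρ a⁻¹ := by rw [e3]
          _ = ρ a⁻¹ * f * (ρ a * ρ a⁻¹) := by noncomm_ring
          _ = ρ a⁻¹ * f := by rw [e2, mul_one] }
  have hH : ∀ m, m ∈ H ↔ ∀ f : Module.End ℂ (Fin n → ℂ), f * ρ m = ρ m * f := fun m => Iff.rfl
  have hHn : ∀ g, ∀ m ∈ H, g * m * g⁻¹ ∈ H := by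
    intro g m hm
    have e1 : ρ (g * m * g⁻¹) = ρ m := by
      rw [map_mul, map_mul, (hH m).1 hm (ρ g), mul_assoc, ← map_mul, mul_inv_cancel, map_one,
        mul_one]
    rw [hH, e1]
    exact (hH m).1 hm
  have hker : π.ker ≤ H := by
    intro z hz
    have hz2 := hcen hz
    rw [Subgroup.mem_center_iff] at hz2
    obtain ⟨c, hc⟩ := schur_scalar ρ hirr (ρ z) (by
      intro g
      rw [← map_mul, ← map_mul, hz2 g])
    rw [hH, hc]
    intro f
    rw [mul_smul_comm, smul_mul_assoc, mul_one, one_mul]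
  have hmap : H.map π = S := by
    obtain ⟨x, hxP, hx1⟩ := hx
    rcases hA.sim (H.map π) (by
        rintro _ ⟨h, -, rfl⟩
        rw [← hπ]
        exact ⟨h, rfl⟩) (by
        rintro s hs _ ⟨h, hh, rfl⟩
        rw [← hπ] at hs
        obtain ⟨m, rfl⟩ := hs
        refine ⟨m * h * m⁻¹, hHn m h hh, ?_⟩
        rw [map_mul, map_mul, map_inv]) with h | h
    · exfalso
      apply hx1
      have : π x ∈ H.map π := ⟨x, (hH x).2 (hsc x hxP), rfl⟩
      rw [h] at this
      exact Subgroup.mem_bot.1 this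
    · exact h
  have hall : ∀ m, m ∈ H := by
    intro m
    have h2 : π m ∈ H.map π := by
      rw [hmap, ← hπ]
      exact ⟨m, rfl⟩
    obtain ⟨h, hh, he⟩ := h2
    have h3 : h⁻¹ * m ∈ π.ker := by
      rw [MonoidHom.mem_ker, map_mul, map_inv, he, inv_mul_cancel]
    have h4 := H.mul_mem hh (hker h3)
    rwa [mul_inv_cancel_left] at h4
  have hn : n = 1 := dim_one ρ hirr (fun g => (hH g).1 (hall g))
  rw [hchar1, hn, Nat.cast_one]

end Pool.Agent.H6.FIB
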