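import Pool.Agent.H6.FI.All
import Pool.Agent.H6.FIB.AsmG
import Pool.Agent.H1.FIB.PCL
import Pool.Agent.H1.FIB.PRB
import Pool.Agent.H11.FIB.ALS
import Pool.Agent.H2.FIB.DK1
import Pool.Agent.H32.FIB.CRD
import Pool.Agent.H34.FIB.RMU
import Pool.Agent.H34.FIB.SIG
import Pool.Agent.H34.FIB.SLG
import Pool.Agent.H36.FIB.DK3
import Pool.Agent.H36.FIB.PBJ
import Pool.Agent.H37.FIB.PID
import Pool.Agent.H37.FIB.PKC
import Pool.Agent.H37.FIB.PST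
import Pool.Agent.H4.FIB.CVT
import Pool.Agent.H4.FIB.H60
import Pool.Agent.H45.FIB.PEC
import Pool.Agent.H5.FIB.Q2A
import Pool.Agent.H52.FIB.AL5
import Pool.Agent.H52.FIB.IDQ
import Pool.Agent.H52.FIB.LUN
import Pool.Agent.H6.FIB.IOA
import Pool.Agent.H6.FIB.NU1
import Pool.Agent.H6.FIB.NU2
import Pool.Agent.H6.FIB.ORB
import Pool.Agent.H6.FIB.PAB
import Pool.Agent.H6.FIB.PAC
import Pool.Agent.H6.FIB.PIX
import Pool.Agent.H6.FIB.PKI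
import Pool.Agent.H6.FIB.TIM
import Pool.Agent.H6.FIB.ZCH
import Pool.Agent.H66.FIB.MUL
import Pool.Agent.H7.FIB.CH5
import Pool.Agent.H7.FIB.UBF
import Pool.Agent.H70.FIB.O60
import Pool.Agent.H72.FIB.ALQ
import Pool.Agent.H74.FIB.DK2
import Pool.Agent.H74.FIB.SDP
import Pool.Agent.H77.FIB.PSK
import Pool.Agent.H94.FIB.PKR

/-!
# MP_7500ea_al, board fib_modules: composition of the rows
-/

open scoped Classical ComplexConjugate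

namespace FI.All2

open FI FI.All AMc AMt

theorem rAL5 : T_AL5 := Pool.Agent.H52.FIB.pf_AL5 rS5R
theorem rCRD : T_CRD := Pool.Agent.H32.FIB.pf_CRD
theorem rSLG : T_SLG := Pool.Agent.H34.FIB.pf_SLG
theorem rUBF : T_UBF := Pool.Agent.H7.FIB.pf_UBF rCRD
theorem rALQ : T_ALQ := Pool.Agent.H72.FIB.pf_ALQ rCRD rSLG rUBF
theorem rALS : T_ALS := Pool.Agent.H11.FIB.pf_ALS rSOL
theorem rSDP : T_SDP := Pool.Agent.H74.FIB.pf_SDP rSOL rALS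
theorem rIOA : T_IOA := Pool.Agent.H6.FIB.pf_IOA rKKP rBRG
theorem rCH5 : T_CH5 := Pool.Agent.H7.FIB.pf_CH5 rSOL rALS rAL5 rSDP rNE rAEC rAEX rEXM rNIV rA5T rIMN rIOA rABL rCLF
theorem rPEC : T_PEC := Pool.Agent.H45.FIB.pf_PEC rSOL rALS
theorem rCVT : T_CVT := Pool.Agent.H4.FIB.pf_CVT rSOL rALS rPEC rIOA rABL
theorem rDK1 : T_DK1 := Pool.Agent.H2.FIB.pf_DK1 rCRD rUBF
theorem rDK2 : T_DK2 := Pool.Agent.H74.FIB.pf_DK2
theorem rO60 : T_O60 := Pool.Agent.H70.FIB.pf_O60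
theorem rDK3 : T_DK3 := Pool.Agent.H36.FIB.pf_DK3 rO60
theorem rH60 : T_H60 := Pool.Agent.H4.FIB.pf_H60 rO60
theorem rIDQ : T_IDQ := Pool.Agent.H52.FIB.pf_IDQ rCRD rDK1
theorem rLUN : T_LUN := Pool.Agent.H52.FIB.pf_LUN rSOL rALS rABL
theorem rTIM : T_TIM := Pool.Agent.H6.FIB.pf_TIM rABL
theorem rRSM : T_RSM := Pool.Agent.H6.FIB.pf_RSM rABL
theorem rPAB : T_PAB := Pool.Agent.H6.FIB.pf_PAB
theorem rPAC : T_PAC := Pool.Agent.H6.FIB.pf_PAC rPAB rABL rSSQ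
theorem rPAS : T_PAS := Pool.Agent.H6.FIB.pf_PAS rPAB rABL
theorem rZCH : T_ZCH := Pool.Agent.H6.FIB.pf_ZCH rABL
theorem rSIG : T_SIG := Pool.Agent.H34.FIB.pf_SIG
theorem rMUL : T_MUL := Pool.Agent.H66.FIB.pf_MUL rTIM rRSM rPAB rPAC rPAS rZCH rABL rSIG
theorem rNU1 : T_NU1 := Pool.Agent.H6.FIB.pf_NU1
theorem rNU2 : T_NU2 := Pool.Agent.H6.FIB.pf_NU2
theorem rORB : T_ORB := Pool.Agent.H6.FIB.pf_ORB rCLF
theorem rPBJ : T_PBJ := Pool.Agent.H36.FIB.pf_PBJ rSOL rALS rABL rSSQ rPEC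
theorem rPKR : T_PKR := Pool.Agent.H94.FIB.pf_PKR rSOL rALS
theorem rPCL : T_PCL := Pool.Agent.H1.FIB.pf_PCL rSOL rSQ rPKR
theorem rPST : T_PST := Pool.Agent.H37.FIB.pf_PST rSOL rALS rPKR
theorem rPSK : T_PSK := Pool.Agent.H77.FIB.pf_PSK rSOL rALS
theorem rRMU : T_RMU := Pool.Agent.H34.FIB.pf_RMU rSOL
theorem rPID : T_PID := Pool.Agent.H37.FIB.pf_PID rSOL rSQ rALS rPKR rPCL rPST rPSK rRMU
theorem rPIX : T_PIX := Pool.Agent.H6.FIB.pf_PIX rCLF rKKP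
theorem rPKC : T_PKC := Pool.Agent.H37.FIB.pf_PKC rPBJ
theorem rPRI : T_PRI := Pool.Agent.H6.FIB.pf_PRI rCLF
theorem rPKI : T_PKI := Pool.Agent.H6.FIB.pf_PKI rSOL rALS rPEC rPBJ rORB rPRI rABL rCLF
theorem rPRB : T_PRB := Pool.Agent.H1.FIB.pf_PRB rSOL rSQ
theorem rQ2A : T_Q2A := Pool.Agent.H5.FIB.pf_Q2A rCRD rUBF rALQ

theorem rCHQ : T_CHQ := chq rMUL rLUN rSIG rIOA rNU1 rNU2

theorem hCls : Cls e0 (fun A [Group A] => InA A) :=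
  claS rS5V rAID rNE rALS rCRD rALQ rQ2A rCHQ rDK1 rDK2 rDK3 rH60 rIDQ rAL5 rCH5

/-- the theorem for a class of almost simple groups -/
theorem hAlm (e : ℝ) (he : 91 / 25 ≤ e) (𝒜 : (A : Type) → [Group A] → Prop) (h𝒜 : Cls e 𝒜)
    (G : Type) [Group G] [Finite G] (hG : KA 𝒜 G) :
    ∃ θ ∈ Irr (fit G), θ 1 = 1 ∧ ((fit G).index : ℝ) ≤ acd (fit G) θ ^ e :=
  almost rSOL rSQ rFNL rCLF rKKP rBRG rLCH rGRP rCRN rDUA hLO rTRC rSTP rDGL rSPL rCPR rABL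
    rPCL rPST rPSK rPEC rCVT rPKC rPKI rORB rPIX rPID e he 𝒜 h𝒜 G hG

theorem hDelA (e : ℝ) (he : 1 ≤ e) (𝒜 : (A : Type) → [Group A] → Prop) (h𝒜 : Cls e 𝒜) :
    ∀ n, Delta (fun X [Group X] => KA 𝒜 X) e n :=
  deltaP rSOL rSQ rTRC rSTP rPCL rPST rPSK rPEC rCVT rPKC rPKI rORB rPIX rKKP rCLF rDGL rSPL
    rCPR rABL rPID e he 𝒜 h𝒜

/-- the class of groups with chief factors `PSL(2, p)` -/
theorem hKp2 (e : ℝ) (he : e0 ≤ e) (G : Type) [Group G] [Finite G] (hG : Kp G) :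
    ∃ θ ∈ Irr (fit G), θ 1 = 1 ∧ ((fit G).index : ℝ) ≤ acd (fit G) θ ^ e := by
  obtain ⟨θ, hθ, h1, h2⟩ := hAlm e0 rNE.1 _ hCls G (kp_ka rCRD G hG)
  exact ⟨θ, hθ, h1, h2.trans (Real.rpow_le_rpow_of_exponent_le
    (one_le_acd rKKP rBRG G _ θ hθ) he)⟩

theorem hKp4 (e : ℝ) (h : ∀ (G : Type) [Group G] [Finite G], Kp G →
    ∃ θ ∈ Irr (fit G), θ 1 = 1 ∧ ((fit G).index : ℝ) ≤ acd (fit G) θ ^ e) : e0 ≤ e :=
  hF4 e fun G _ _ hG => h G (kf_kp G hG)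

/-- the average degree over an invariant character -/
theorem hKp3 (G : Type) [Group G] [Finite G] (N : Subgroup G) (θ : N → ℂ) (hθ : θ ∈ Irr N)
    (hinv : ∀ g : G, ∀ a b : N, (b : G) = g * a * g⁻¹ → θ b = θ a)
    (Y : Type) [Group Y] [Finite Y] (q : G →* Y) (hY : Kp Y) (hq : Function.Surjective q)
    (hker : q.ker = N) : (θ 1).re * ((sol Y).index : ℝ) ^ (1 / e0) ≤ acd N θ :=
  inv_core rKKP rBRG (fun X [Group X] => KA (fun A [Group A] => InA A) X) e0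
    (hDelA e0 (by have := rNE.1; linarith) _ hCls) G N θ hθ hinv Y q (kp_ka rCRD Y hY) hq hker

/-- reduction to primitive groups and central extensions -/
theorem hGoop (e : ℝ) (he : 91 / 25 ≤ e) (Y : Type) [Group Y] [Finite Y] (hY : Goop e Y)
    (G : Type) [Group G] [Finite G] (f : G →* Y) (hf : Group.IsSolvable f.ker) :
    ∃ θ ∈ Irr (fit G), θ 1 = 1 ∧ ((fit G).index : ℝ) ≤ acd (fit G) θ ^ e :=
  hRED e he Y (goop_good rPRB e (by linarith) Y hY) G f hf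

end FI.All2
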