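import Pool.Agent.H6.FI.DefsC

/-!
# MP_7500ea_al, second part: almost simple groups, definitions of the statements
-/

open scoped Classical ComplexConjugate

namespace FI

/-- `S` is a non-abelian simple normal subgroup of `A`, contained in all non-trivial normal
subgroups, and the index of `S` is one or a prime number -/
structure Al (A : Type) [Group A] (S : Subgroup A) : Prop where
  nor : S.Normal
  min : ∀ N : Subgroup A, N.Normal → N ≠ ⊥ → S ≤ N
  sim : ∀ N : Subgroup A, N ≤ S → (∀ s ∈ S, ∀ n ∈ N, s * n * s⁻¹ ∈ N) → N = ⊥ ∨ N = S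
  nab : ∃ a ∈ S, ∃ b ∈ S, a * b ≠ b * a
  idx : S.index = 1 ∨ S.index.Prime

/-- the irreducible characters over `ν` fixed by the automorphism `σ` -/
def Fx {M : Type} [Group M] (N : Subgroup M) (ν : N → ℂ) (σ : M ≃* M) : Set (M → ℂ) :=
  {χ | χ ∈ IrrO N ν ∧ (fun m => χ (σ m)) = χ}

/-- conditions on the characters of the central extensions `M` of `S` over linear characters `ν`
of the kernel -/
structure Ch (e : ℝ) (A : Type) [Group A] (S : Subgroup A) : Prop where
  one : ∀ (M : Type) [Group M] [Finite M] (q : M →* A), q.range = S →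
    q.ker ≤ Subgroup.center M → ∀ ν ∈ AMc.Irr q.ker, (Nat.card S : ℝ) ^ (1 / e) ≤ acd q.ker ν
  two : S.index ≠ 1 → ∀ (M : Type) [Group M] [Finite M] (q : M →* A), q.range = S →
    q.ker ≤ Subgroup.center M → ∀ ν ∈ AMc.Irr q.ker, ∀ (σ : M ≃* M) (a : A), a ∉ S →
    (∀ z ∈ q.ker, σ z = z) → (∀ m, q (σ m) = a * q m * a⁻¹) →
    (Nat.card A : ℝ) ^ (1 / e) * (S.index * (Fx q.ker ν σ).ncard +
        (IrrO q.ker ν \ Fx q.ker ν σ).ncard / S.index) ≤
      S.index * (∑ᶠ χ ∈ Fx q.ker ν σ, (χ 1).re) +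
        ∑ᶠ χ ∈ IrrO q.ker ν \ Fx q.ker ν σ, (χ 1).re ∧
    (Nat.card A : ℝ) ^ (1 / e) * ((IrrO q.ker ν \ Fx q.ker ν σ).ncard / S.index) ≤
      ∑ᶠ χ ∈ IrrO q.ker ν \ Fx q.ker ν σ, (χ 1).re

/-- a class `𝒜` of almost simple groups, closed under the non-solvable subgroups modulo their
radicals, and satisfying the conditions on the characters and on the indices -/
structure Cls (e : ℝ) (𝒜 : (A : Type) → [Group A] → Prop) : Prop where
  alm : ∀ (A : Type) [Group A] [Finite A], 𝒜 A → ∃ S : Subgroup A, Al A S ∧ Ch e A S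
  sub : ∀ (A : Type) [Group A] [Finite A], 𝒜 A → ∀ T : Subgroup A, Group.IsSolvable T ∨
    ∃ (A' : Type) (_ : Group A') (_ : Finite A') (f : T →* A'), 𝒜 A' ∧ Function.Surjective f ∧
      Group.IsSolvable f.ker
  idx : ∀ (A : Type) [Group A] [Finite A], 𝒜 A → ∀ T : Subgroup A,
    (Nat.card A : ℝ) ≤ (T.index : ℝ) ^ e * ((sol T).index : ℝ)

/-- `X` has a solvable normal subgroup whose factor group embeds in a direct product of groups
in `𝒜` -/
def KA (𝒜 : (A : Type) → [Group A] → Prop) (X : Type) [Group X] : Prop :=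
  ∃ (n : ℕ) (A : Fin n → Type) (_ : ∀ i, Group (A i)) (_ : ∀ i, Finite (A i)),
    (∀ i, 𝒜 (A i)) ∧ ∃ f : X →* (∀ i, A i), Group.IsSolvable f.ker

/-- `PGL(2, p)` -/
abbrev PG (p : ℕ) : Type :=
  Matrix.GeneralLinearGroup (Fin 2) (ZMod p) ⧸
    Subgroup.center (Matrix.GeneralLinearGroup (Fin 2) (ZMod p))

/-- `X` has a solvable normal subgroup whose factor group embeds in a direct product of groups
isomorphic to `S₅` or to `PGL(2, p)`, `p ≥ 7` prime -/
def Kp (X : Type) [Group X] : Prop :=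
  ∃ (n : ℕ) (A : Fin n → Type) (_ : ∀ i, Group (A i)),
    (∀ i, Nonempty (A i ≃* Equiv.Perm (Fin 5)) ∨
      ∃ p : ℕ, p.Prime ∧ 7 ≤ p ∧ Nonempty (A i ≃* PG p)) ∧
    ∃ f : X →* (∀ i, A i), Group.IsSolvable f.ker

/-- the conditions on `Y`: for the sections `S / Sol(S)`, `S ≤ Y`, the average degree of the
characters of central extensions over linear characters, and the order of the solvable radical of
a core-free maximal subgroup -/
structure Goop (e : ℝ) (Y : Type) [Group Y] : Prop where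
  chr : ∀ (S : Subgroup Y) (X : Type) [Group X] [Finite X] (q : X →* S ⧸ sol S),
    Function.Surjective q → q.ker ≤ Subgroup.center X → ∀ ν ∈ AMc.Irr q.ker,
    ((sol S).index : ℝ) ≤ acd q.ker ν ^ e
  prm : ∀ (S : Subgroup Y) (T : Subgroup (S ⧸ sol S)), IsCoatom T → T.normalCore = ⊥ →
    (Nat.card (sol T) : ℝ) ≤ (T.index : ℝ) ^ (e - 1)

end FI
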