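import Pool.Agent.H6.FIB.All

/-!
# MP_7500ea_al: the conditions of the reduction, for a single group `Q`
-/

open scoped Classical ComplexConjugate

namespace FI

/-- `|Q| ≤ acd(X|ν) ^ e` for the central extensions `X` of `Q` and the irreducible characters `ν`
of the kernel -/
def ChrOK (e : ℝ) (Q : Type) [Group Q] : Prop :=
  ∀ (X : Type) [Group X] [Finite X] (q : X →* Q), Function.Surjective q →
    q.ker ≤ Subgroup.center X → ∀ ν ∈ AMc.Irr q.ker, (Nat.card Q : ℝ) ≤ acd q.ker ν ^ e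

/-- the order of the solvable radical of a core-free maximal subgroup -/
def PrmOK (e : ℝ) (Q : Type) [Group Q] : Prop :=
  ∀ T : Subgroup Q, IsCoatom T → T.normalCore = ⊥ →
    (Nat.card (sol T) : ℝ) ≤ (T.index : ℝ) ^ (e - 1)

/-- the two conditions for the sections `S / Sol(S)`, `S ≤ Y` -/
def Goo (e : ℝ) (Y : Type) [Group Y] : Prop :=
  ∀ S : Subgroup Y, ChrOK e (S ⧸ sol S) ∧ PrmOK e (S ⧸ sol S)

theorem goo_goop (e : ℝ) (Y : Type) [Group Y] (h : Goo e Y) : Goop e Y :=
  ⟨fun S X _ _ q hq hk ν hν => (h S).1 X q hq hk ν hν, fun S T h1 h2 => (h S).2 T h1 h2⟩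

end FI
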