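import Pool.Agent.H6.FIB.TargetsR
import Pool.Agent.H6.FI.Lib

/-!
# MP_7500ea_al, board fib_modules: induced class functions
-/

open scoped Classical ComplexConjugate

namespace Pool.Agent.H6.FIB

open _root_.FI AMc AMt

variable {Γ : Type} [Group Γ] [Fintype Γ]

/-- expansion of a class function -/
theorem expand (N : Subgroup Γ) (fs : Finset (Γ → ℂ)) (hfs : ∀ θ, θ ∈ fs ↔ θ ∈ IrrS N)
    (f : Γ → ℂ) (h0 : ∀ g, g ∉ N → f g = 0) (hc : ∀ n ∈ N, ∀ g, f (n * g * n⁻¹) = f g) (x : Γ) :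
    f x = ∑ χ ∈ fs, (∑ g, f g * conj (χ g)) / (Nat.card N : ℂ) * χ x := by
  have hN : (Nat.card N : ℂ) ≠ 0 := by exact_mod_cast Nat.card_pos.ne'
  have key : (fun x => f x - ∑ χ ∈ fs, (∑ g, f g * conj (χ g)) / (Nat.card N : ℂ) * χ x) = 0 := by
    apply _root_.FI.Lib.lS3 Γ N
    · intro g hg
      rw [h0 g hg, zero_sub, neg_eq_zero]
      apply Finset.sum_eq_zero
      intro χ hχ
      rw [(_root_.FI.Lib.lS1 Γ N χ ((hfs χ).1 hχ)).1 g hg, mul_zero]
    · intro n hn g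
      simp only [hc n hn g]
      congr 1
      apply Finset.sum_congr rfl
      intro χ hχ
      rw [(_root_.FI.Lib.lS1 Γ N χ ((hfs χ).1 hχ)).2.1 n hn g]
    · intro θ hθ
      have h1 : ∑ g, (∑ χ ∈ fs, (∑ g, f g * conj (χ g)) / (Nat.card N : ℂ) * χ g) *
          conj (θ g) = ∑ g, f g * conj (θ g) := by
        have e1 : ∀ g, (∑ χ ∈ fs, (∑ g, f g * conj (χ g)) / (Nat.card N : ℂ) * χ g) *
            conj (θ g) = ∑ χ ∈ fs, (∑ g, f g * conj (χ g)) / (Nat.card N : ℂ) *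
              (χ g * conj (θ g)) := by
          intro g
          rw [Finset.sum_mul]
          apply Finset.sum_congr rfl
          intro χ _
          ring
        rw [Finset.sum_congr rfl (fun g _ => e1 g), Finset.sum_comm]
        have e2 : ∀ χ ∈ fs, ∑ g, (∑ g, f g * conj (χ g)) / (Nat.card N : ℂ) *
            (χ g * conj (θ g)) = if χ = θ then ∑ g, f g * conj (θ g) else 0 := by
          intro χ hχ
          rw [← Finset.mul_sum, _root_.FI.Lib.lS2 Γ N χ θ ((hfs χ).1 hχ) hθ]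
          split_ifs with h
          · rw [h, div_mul_cancel₀ _ hN]
          · rw [mul_zero]
        rw [Finset.sum_congr rfl e2, Finset.sum_ite_eq' fs θ, if_pos ((hfs θ).2 hθ)]
      have e3 : ∀ g, (f g - ∑ χ ∈ fs, (∑ g, f g * conj (χ g)) / (Nat.card N : ℂ) * χ g) *
          conj (θ g) = f g * conj (θ g) -
            (∑ χ ∈ fs, (∑ g, f g * conj (χ g)) / (Nat.card N : ℂ) * χ g) * conj (θ g) := by
        intro g
        ring
      rw [Finset.sum_congr rfl (fun g _ => e3 g), Finset.sum_sub_distrib, h1, sub_self]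
  exact sub_eq_zero.1 (congrFun key x)

/-- the induced class function -/
noncomputable def indf (V : Subgroup Γ) (ξ : Γ → ℂ) : Γ → ℂ :=
  fun g => (∑ u : Γ, ξ (u * g * u⁻¹)) / (Nat.card V : ℂ)

theorem sum_conj_eq (f : Γ → ℂ) (u : Γ) : ∑ g, f (u * g * u⁻¹) = ∑ g, f g :=
  Fintype.sum_equiv (MulAut.conj u).toEquiv _ _ (fun _ => rfl)

theorem indf_conj (V : Subgroup Γ) (ξ : Γ → ℂ) (n g : Γ) :
    indf V ξ (n * g * n⁻¹) = indf V ξ g := by
  unfold indf
  congr 1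
  rw [← Equiv.sum_comp (Equiv.mulRight n) (fun u : Γ => ξ (u * g * u⁻¹))]
  apply Finset.sum_congr rfl
  intro u _
  congr 1
  simp only [Equiv.coe_mulRight]
  group

/-- Frobenius reciprocity with a class function `χ` -/
theorem indf_inner (V : Subgroup Γ) (ξ χ : Γ → ℂ) (hχ : ∀ u g, χ (u * g * u⁻¹) = χ g) :
    ∑ g, indf V ξ g * conj (χ g) =
      (Nat.card Γ : ℂ) / (Nat.card V : ℂ) * ∑ g, ξ g * conj (χ g) := by
  unfold indf
  have e1 : ∀ g, (∑ u : Γ, ξ (u * g * u⁻¹)) / (Nat.card V : ℂ) * conj (χ g) =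
      ∑ u : Γ, (ξ (u * g * u⁻¹) * conj (χ (u * g * u⁻¹))) / (Nat.card V : ℂ) := by
    intro g
    rw [Finset.sum_div, Finset.sum_mul]
    apply Finset.sum_congr rfl
    intro u _
    rw [hχ]
    ring
  rw [Finset.sum_congr rfl (fun g _ => e1 g), Finset.sum_comm]
  have e2 : ∀ u : Γ, ∑ g, (ξ (u * g * u⁻¹) * conj (χ (u * g * u⁻¹))) / (Nat.card V : ℂ) =
      (∑ g, ξ g * conj (χ g)) / (Nat.card V : ℂ) := by
    intro u
    rw [sum_conj_eq (fun g => (ξ g * conj (χ g)) / (Nat.card V : ℂ)) u, Finset.sum_div]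
  rw [Finset.sum_congr rfl (fun u _ => e2 u), Finset.sum_const, nsmul_eq_mul, Finset.card_univ,
    ← Nat.card_eq_fintype_card (α := Γ)]
  ring

/-- expansion of the induced class function -/
theorem indf_expand (V : Subgroup Γ) (ξ : Γ → ℂ) (fs : Finset (Γ → ℂ))
    (hfs : ∀ θ, θ ∈ fs ↔ θ ∈ IrrS (⊤ : Subgroup Γ)) (x : Γ) :
    indf V ξ x = ∑ χ ∈ fs, (∑ g, ξ g * conj (χ g)) / (Nat.card V : ℂ) * χ x := by
  have hΓ : (Nat.card Γ : ℂ) ≠ 0 := by exact_mod_cast Nat.card_pos.ne'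
  rw [expand ⊤ fs hfs (indf V ξ) (fun g hg => absurd (Subgroup.mem_top g) hg)
    (fun n _ g => indf_conj V ξ n g) x]
  apply Finset.sum_congr rfl
  intro χ hχ
  have hcl : ∀ u g, χ (u * g * u⁻¹) = χ g := fun u g =>
    (_root_.FI.Lib.lS1 Γ ⊤ χ ((hfs χ).1 hχ)).2.1 u trivial g
  rw [indf_inner V ξ χ hcl, Subgroup.card_top]
  congr 1
  field_simp

theorem indf_one (V : Subgroup Γ) (ξ : Γ → ℂ) :
    indf V ξ 1 = (V.index : ℂ) * ξ 1 := by
  have hV : (Nat.card V : ℂ) ≠ 0 := by exact_mod_cast Nat.card_pos.ne'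
  unfold indf
  have e1 : ∀ u : Γ, ξ (u * 1 * u⁻¹) = ξ 1 := by
    intro u
    congr 1
    group
  rw [Finset.sum_congr rfl (fun u _ => e1 u), Finset.sum_const, nsmul_eq_mul, Finset.card_univ,
    ← Nat.card_eq_fintype_card, ← V.index_mul_card]
  push_cast
  field_simp

/-- the multiplicities are natural numbers and real -/
theorem mult_nat {N U : Subgroup Γ} (hNU : N ≤ U) {χ θ : Γ → ℂ} (hχ : χ ∈ IrrS U)
    (hθ : θ ∈ IrrS N) : ∃ k : ℕ, (∑ g, χ g * conj (θ g)) / (Nat.card N : ℂ) = k ∧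
      (∑ g, θ g * conj (χ g)) / (Nat.card N : ℂ) = k ∧ (Over χ θ ↔ k ≠ 0) := by
  have hN : (Nat.card N : ℂ) ≠ 0 := by exact_mod_cast Nat.card_pos.ne'
  obtain ⟨k, hk⟩ := _root_.FI.Lib.lS4 Γ N U hNU χ hχ θ hθ
  refine ⟨k, ?_, ?_, ?_⟩
  · rw [hk, mul_div_assoc, div_self hN, mul_one]
  · have e1 : ∑ g, θ g * conj (χ g) = conj (∑ g, χ g * conj (θ g)) := by
      rw [map_sum]
      apply Finset.sum_congr rfl
      intro g _
      rw [map_mul, Complex.conj_conj, mul_comm]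
    rw [e1, hk, map_mul, Complex.conj_natCast, Complex.conj_natCast, mul_div_assoc,
      div_self hN, mul_one]
  · unfold Over
    rw [hk]
    constructor
    · intro h h0
      apply h
      rw [h0]
      simp
    · intro h
      exact mul_ne_zero (by exact_mod_cast h) hN

/-- the restriction of a character, value at a point of the subgroup -/
theorem restr {N U : Subgroup Γ} (hNU : N ≤ U) {χ : Γ → ℂ} (hχ : χ ∈ IrrS U)
    (fs : Finset (Γ → ℂ)) (hfs : ∀ θ, θ ∈ fs ↔ θ ∈ IrrS N) (x : Γ) (hx : x ∈ N) :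
    χ x = ∑ θ ∈ fs, (∑ g, χ g * conj (θ g)) / (Nat.card N : ℂ) * θ x := by
  have h1 := expand N fs hfs (fun g => if g ∈ N then χ g else 0)
    (fun g hg => if_neg hg) (fun n hn g => by
      have h : n * g * n⁻¹ ∈ N ↔ g ∈ N := by
        constructor
        · intro h
          have := N.mul_mem (N.mul_mem (N.inv_mem hn) h) hn
          have e : n⁻¹ * (n * g * n⁻¹) * n = g := by group
          rwa [e] at this
        · intro h
          exact N.mul_mem (N.mul_mem hn h) (N.inv_mem hn)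
      simp only [h]
      by_cases hg : g ∈ N
      · rw [if_pos hg, if_pos hg, (_root_.FI.Lib.lS1 Γ U χ hχ).2.1 n (hNU hn) g]
      · rw [if_neg hg, if_neg hg]) x
  rw [if_pos hx] at h1
  rw [h1]
  apply Finset.sum_congr rfl
  intro θ hθ
  congr 2
  apply Finset.sum_congr rfl
  intro g _
  by_cases hg : g ∈ N
  · rw [if_pos hg]
  · rw [(_root_.FI.Lib.lS1 Γ N θ ((hfs θ).1 hθ)).1 g hg]
    simp

/-- degrees -/
theorem deg_le {N U : Subgroup Γ} (hNU : N ≤ U) {χ θ : Γ → ℂ} (hχ : χ ∈ IrrS U)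
    (hθ : θ ∈ IrrS N) (h : Over χ θ) : (θ 1).re ≤ (χ 1).re := by
  obtain ⟨fs, hfs, -⟩ := _root_.FI.Lib.lS9 Γ N
  rw [restr hNU hχ fs hfs 1 N.one_mem, Complex.re_sum]
  have hpos : ∀ ψ ∈ fs, 0 ≤ ((∑ g, χ g * conj (ψ g)) / (Nat.card N : ℂ) * ψ 1).re := by
    intro ψ hψ
    obtain ⟨k, hk, -, -⟩ := mult_nat hNU hχ ((hfs ψ).1 hψ)
    obtain ⟨d, hd, hd1⟩ := (_root_.FI.Lib.lS1 Γ N ψ ((hfs ψ).1 hψ)).2.2.1
    rw [hk, hd1, ← Nat.cast_mul, Complex.natCast_re]
    positivity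
  refine le_trans ?_ (Finset.single_le_sum hpos ((hfs θ).2 hθ))
  obtain ⟨k, hk, -, hk0⟩ := mult_nat hNU hχ hθ
  obtain ⟨d, hd, hd1⟩ := (_root_.FI.Lib.lS1 Γ N θ hθ).2.2.1
  rw [hk, hd1, ← Nat.cast_mul, Complex.natCast_re, Complex.natCast_re]
  have h1 : 1 ≤ k := Nat.one_le_iff_ne_zero.2 (hk0.1 h)
  have h2 : 1 * d ≤ k * d := Nat.mul_le_mul_right _ h1
  rw [one_mul] at h2
  exact_mod_cast h2

end Pool.Agent.H6.FIB
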