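import Pool.Agent.H6.FIB.ORB

/-!
# MP_7500ea_al, board fib_modules, row PKI
-/

open scoped Classical ComplexConjugate

namespace Pool.Agent.H6.FIB

open _root_.FI AMc AMt

theorem over_cj {Γ : Type} [Group Γ] [Fintype Γ] {Z : Subgroup Γ}
    (hcen : ∀ z ∈ Z, ∀ g, z * g = g * z) {ν : Γ → ℂ} (hν : ν ∈ IrrS Z) {ψ : Γ → ℂ}
    (h : Over ψ ν) (g : Γ) : Over (cj g ψ) ν := by
  unfold Over at h ⊢
  have e : ∑ x, cj g ψ x * conj (ν x) = ∑ x, ψ x * conj (ν x) := by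
    apply Finset.sum_congr rfl
    intro x _
    by_cases hx : x ∈ Z
    · have : g * x * g⁻¹ = x := by
        rw [← hcen x hx g, mul_assoc, mul_inv_cancel, mul_one]
      simp only [cj, this]
    · rw [(_root_.FI.Lib.lS1 Γ Z ν hν).1 x hx]
      simp
  rw [e]
  exact h

theorem pf_PKI (_h1 : T_SOL) (_h2 : T_ALS) (h3 : T_PEC) (h4 : T_PBJ) (h5 : T_ORB) (h6 : T_PRI)
    (_h7 : T_ABL) (_h8 : T_CLF) : T_PKI := by
  intro Γ A _ _ _ _ S Z M C δ hA hG hp ν hν φ hφ φ' hφ'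
  obtain ⟨hcomm, -, hidx, -, -, hmem⟩ := h3 Γ A S Z M C δ hA hG
  have hCnor : ∀ g, ∀ c ∈ C, g * c * g⁻¹ ∈ C := by
    intro g c hc
    rw [hG.ker, map_mul, map_mul, (hG.ker c).1 hc, mul_one, map_inv, mul_inv_cancel]
  have hMn : NIn M ⊤ := ⟨le_top, fun u _ n hn => hG.nor.conj_mem n hn u⟩
  have hVnor : ∀ g, ∀ x ∈ M ⊔ C, g * x * g⁻¹ ∈ M ⊔ C := by
    intro g x hx
    rw [hmem] at hx ⊢
    rw [map_mul, map_mul, map_inv]
    exact hA.nor.conj_mem _ hx _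
  have hVn : NIn (M ⊔ C) ⊤ := ⟨le_top, fun u _ n hn => hVnor u n hn⟩
  have hVidx : (M ⊔ C).index.Prime := by rw [hidx]; exact hp
  have hdec : ∀ x ∈ M ⊔ C, ∃ m ∈ M, ∃ c ∈ C, m * c = x := by
    intro x hx
    have := hG.nor
    exact Subgroup.mem_sup_of_normal_left.1 hx
  -- the key formula
  have key : ∀ φ ∈ InvC M ν, (kk ⊤ φ : ℝ) = ∑ᶠ ψ ∈ Ab C ν,
      (if (∀ g, cj g ψ = ψ) then (S.index : ℝ) else 1 / (S.index : ℝ)) := by
    intro φ hφ
    obtain ⟨hφ1, hφ2⟩ := hφ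
    obtain ⟨F, hF, hF2⟩ := h4 Γ A S Z M C δ hA hG ν hν φ hφ1
    rw [(h5 Γ M (M ⊔ C) le_sup_left hMn hVn φ hφ1.1 hφ2).1]
    symm
    apply finsum_mem_eq_of_bijOn F hF
    intro ψ hψ
    have hFψ := hF.mapsTo hψ
    have hcj : ∀ g, cj g ψ ∈ Ab C ν := by
      intro g
      refine ⟨_root_.FI.Lib.lS7 Γ C C g ?_ ψ hψ.1, over_cj hG.cen hν hψ.2 g⟩
      intro x
      constructor
      · intro hx; exact hCnor g x hx
      · intro hx
        have := hCnor g⁻¹ _ hx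
        have e : g⁻¹ * (g * x * g⁻¹) * g⁻¹⁻¹ = x := by group
        rwa [e] at this
    have hcjF : ∀ g, cj g (F ψ) = F (cj g ψ) := by
      intro g
      have hF3 := hF.mapsTo (hcj g)
      have hF4 : cj g (F ψ) ∈ IrrS (M ⊔ C) := cj_mem hVn hFψ.1 g
      funext x
      by_cases hx : x ∈ M ⊔ C
      · obtain ⟨m, hm, c, hc, rfl⟩ := hdec x hx
        rw [hF2 _ (hcj g) m hm c hc]
        have e : cj g (F ψ) (m * c) = F ψ ((g * m * g⁻¹) * (g * c * g⁻¹)) := by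
          simp only [cj]
          congr 1
          group
        rw [e, hF2 ψ hψ _ (hG.nor.conj_mem m hm g) _ (hCnor g c hc)]
        have e2 : φ (g * m * g⁻¹) = φ m := congrFun (hφ2 g) m
        rw [e2]
        rfl
      · rw [(_root_.FI.Lib.lS1 Γ _ _ hF4).1 x hx, (_root_.FI.Lib.lS1 Γ _ _ hF3.1).1 x hx]
    have hiff : (∀ g, cj g ψ = ψ) ↔ ∀ g, cj g (F ψ) = F ψ := by
      constructor
      · intro h g
        rw [hcjF, h g]
      · intro h g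
        apply hF.injOn (hcj g) hψ
        rw [← hcjF, h g]
    obtain ⟨hp1, hp2⟩ := h6 Γ (M ⊔ C) hVn hVidx (F ψ) hFψ.1
    by_cases hinv : ∀ g, cj g ψ = ψ
    · rw [if_pos hinv, hp1 (hiff.1 hinv), hidx]
      have : stab ⊤ (F ψ) = ⊤ := by
        rw [eq_top_iff]
        intro g _
        exact ⟨trivial, hiff.1 hinv g⟩
      rw [this, Subgroup.index_top]
      simp
    · obtain ⟨e1, e2⟩ := hp2 (fun h => hinv (hiff.2 h))
      rw [if_neg hinv, e1, e2, hidx]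
      simp
  have e1 := key φ hφ
  have e2 := key φ' hφ'
  have e3 : (kk ⊤ φ : ℝ) = kk ⊤ φ' := by rw [e1, e2]
  exact_mod_cast e3

end Pool.Agent.H6.FIB
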