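import Pool.Agent.H6.FI.TargetsB
import Pool.Agent.H6.FI.AsmC
import Pool.Agent.H6.FIB.Defs

/-!
# MP_7500ea_al, board fib_modules: targets P (products of almost simple groups)
-/

open scoped Classical ComplexConjugate

namespace FI

open AMc AMt

/-! ## Primitive groups -/

/-- PRB: the condition on the indices follows from the condition on primitive groups -/
def T_PRB : Prop := ∀ (e : ℝ), 1 ≤ e → ∀ (X : Type) [Group X] [Finite X],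
  (∀ (S : Subgroup X) (T : Subgroup (S ⧸ sol S)), IsCoatom T → T.normalCore = ⊥ →
    (Nat.card (sol T) : ℝ) ≤ (T.index : ℝ) ^ (e - 1)) →
  ∀ T S : Subgroup X, T ≤ S →
    ((sol S).index : ℝ) ≤ (T.relIndex S : ℝ) ^ e * ((sol T).index : ℝ)

/-- RMU: the radical and normal subgroups -/
def T_RMU : Prop := ∀ (T Q : Type) [Group T] [Finite T] [Group Q] [Finite Q] (f : T →* Q),
  Function.Surjective f → (sol f.ker).index * (sol Q).index ≤ (sol T).index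

/-- ALS: almost simple groups have trivial radical -/
def T_ALS : Prop := ∀ (A : Type) [Group A] [Finite A] (S : Subgroup A), Al A S →
  sol A = ⊥ ∧ ¬ Group.IsSolvable A ∧ ¬ Group.IsSolvable S ∧
  (∀ a : A, (∀ s ∈ S, a * s = s * a) → a = 1) ∧ ⁅S, S⁆ = S

/-! ## Group theory of the class -/

/-- PKR: the kernel is the radical -/
def T_PKR : Prop := ∀ (e : ℝ) (𝒜 : (A : Type) → [Group A] → Prop), Cls e 𝒜 →
  ∀ (X : Type) [Group X] [Finite X], KA 𝒜 X →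
  ∃ (n : ℕ) (A : Fin n → Type) (_ : ∀ i, Group (A i)) (_ : ∀ i, Finite (A i)),
    (∀ i, 𝒜 (A i)) ∧ ∃ f : X →* (∀ i, A i), f.ker = sol X ∧
      ∀ i, Function.Surjective fun x => f x i

/-- PCL: closure of the class -/
def T_PCL : Prop := ∀ (e : ℝ) (𝒜 : (A : Type) → [Group A] → Prop), Cls e 𝒜 →
  Clo (fun X [Group X] => KA 𝒜 X)

/-- PST: structure of the groups with trivial radical -/
def T_PST : Prop := ∀ (e : ℝ) (𝒜 : (A : Type) → [Group A] → Prop), Cls e 𝒜 →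
  ∀ (X : Type) [Group X] [Finite X] [Nontrivial X], KA 𝒜 X → sol X = ⊥ →
  ∃ (A : Type) (_ : Group A) (_ : Finite A) (S : Subgroup A) (L : Subgroup X) (_ : L.Normal)
    (γ : X →* A), 𝒜 A ∧ Al A S ∧ Ch e A S ∧ Function.Surjective γ ∧ L ⊓ γ.ker = ⊥ ∧
    L.map γ = S ∧ KA 𝒜 (X ⧸ L)

/-- PSK: the kernel of `γ` -/
def T_PSK : Prop := ∀ (X A : Type) [Group X] [Finite X] [Group A] [Finite A] (S : Subgroup A)
  (L : Subgroup X) [L.Normal] (γ : X →* A), sol X = ⊥ → Al A S → Function.Surjective γ →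
  L ⊓ γ.ker = ⊥ → L.map γ = S →
  sol γ.ker = ⊥ ∧ sol (γ.ker.map (QuotientGroup.mk' L)) = ⊥ ∧
  Nat.card (γ.ker.map (QuotientGroup.mk' L)) = Nat.card γ.ker ∧
  Nat.card γ.ker < Nat.card X ∧ Nat.card (X ⧸ L) < Nat.card X ∧
  Nat.card γ.ker ≤ (sol (X ⧸ L)).index ∧ Nat.card X = Nat.card γ.ker * Nat.card A

/-- PID: the condition on the indices -/
def T_PID : Prop := ∀ (e : ℝ), 1 ≤ e → ∀ (𝒜 : (A : Type) → [Group A] → Prop), Cls e 𝒜 →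
  ∀ (X : Type) [Group X] [Finite X], KA 𝒜 X →
  ∀ T : Subgroup X, ((sol X).index : ℝ) ≤ (T.index : ℝ) ^ e * ((sol T).index : ℝ)

/-! ## Central extensions -/

/-- `Z` central, `Γ / C ≅ A`, `M / Z ≅ S` -/
structure AG {Γ A : Type} [Group Γ] [Group A] (S : Subgroup A) (Z M C : Subgroup Γ)
    (δ : Γ →* A) : Prop where
  cen : ∀ z ∈ Z, ∀ g, z * g = g * z
  nor : M.Normal
  ker : ∀ g, g ∈ C ↔ δ g = 1
  inf : M ⊓ C = Z
  map : M.map δ = S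
  sur : Function.Surjective δ

/-- PEC: group theory of the central extensions -/
def T_PEC : Prop := ∀ (Γ A : Type) [Group Γ] [Finite Γ] [Group A] [Finite A] (S : Subgroup A)
  (Z M C : Subgroup Γ) (δ : Γ →* A), Al A S → AG S Z M C δ →
  (∀ m ∈ M, ∀ c ∈ C, m * c = c * m) ∧ Z.relIndex M = Nat.card S ∧
  (M ⊔ C).index = S.index ∧ C.index = Nat.card A ∧ M ≤ Z ⊔ ⁅M, M⁆ ∧
  ∀ g, g ∈ M ⊔ C ↔ δ g ∈ S

section

variable {Γ : Type} [Group Γ] [Fintype Γ]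

/-- the characters over `ν` of the subgroup `M` which are invariant under `Γ` -/
def InvC (M : Subgroup Γ) (ν : Γ → ℂ) : Set (Γ → ℂ) := {φ | φ ∈ Ab M ν ∧ ∀ g, cj g φ = φ}

end

/-- CVT: the conditions on the characters for normal subgroups of an ambient group -/
def T_CVT : Prop := ∀ (e : ℝ) (A : Type) [Group A] [Finite A] (S : Subgroup A), Al A S →
  Ch e A S → ∀ (Γ : Type) [Group Γ] [Fintype Γ] (Z M C : Subgroup Γ) (δ : Γ →* A),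
  AG S Z M C δ → ∀ ν ∈ IrrS Z, (Nat.card S : ℝ) ^ (1 / e) * kk M ν ≤ dd M ν ∧
  (S.index ≠ 1 →
    (Nat.card A : ℝ) ^ (1 / e) * (S.index * (InvC M ν).ncard +
        (Ab M ν \ InvC M ν).ncard / S.index) ≤
      S.index * (∑ᶠ φ ∈ InvC M ν, (φ 1).re) + ∑ᶠ φ ∈ Ab M ν \ InvC M ν, (φ 1).re ∧
    (Nat.card A : ℝ) ^ (1 / e) * ((Ab M ν \ InvC M ν).ncard / S.index) ≤
      ∑ᶠ φ ∈ Ab M ν \ InvC M ν, (φ 1).re)

/-- PBJ: the characters of `M C` over a character `φ` of `M`: the characters `φ ψ` -/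
def T_PBJ : Prop := ∀ (Γ A : Type) [Group Γ] [Fintype Γ] [Group A] [Finite A] (S : Subgroup A)
  (Z M C : Subgroup Γ) (δ : Γ →* A), Al A S → AG S Z M C δ → ∀ ν ∈ IrrS Z, ∀ φ ∈ Ab M ν,
  ∃ F : (Γ → ℂ) → (Γ → ℂ), Set.BijOn F (Ab C ν) (Ab (M ⊔ C) φ) ∧
    ∀ ψ ∈ Ab C ν, ∀ m ∈ M, ∀ c ∈ C, F ψ (m * c) = φ m * ψ c

/-- PKC: the characters of `M C` over a character of `M` -/
def T_PKC : Prop := ∀ (Γ A : Type) [Group Γ] [Fintype Γ] [Group A] [Finite A] (S : Subgroup A)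
  (Z M C : Subgroup Γ) (δ : Γ →* A), Al A S → AG S Z M C δ → ∀ ν ∈ IrrS Z, ∀ φ ∈ Ab M ν,
  kk (M ⊔ C) φ = kk C ν

/-- PKI: the number of characters over an invariant character of `M` -/
def T_PKI : Prop := ∀ (Γ A : Type) [Group Γ] [Fintype Γ] [Group A] [Finite A] (S : Subgroup A)
  (Z M C : Subgroup Γ) (δ : Γ →* A), Al A S → AG S Z M C δ → S.index.Prime → ∀ ν ∈ IrrS Z,
  ∀ φ ∈ InvC M ν, ∀ φ' ∈ InvC M ν, kk ⊤ φ = kk ⊤ φ'

/-- ORB: sums over the characters of a normal subgroup -/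
def T_ORB : Prop := ∀ (Γ : Type) [Group Γ] [Fintype Γ] (K M : Subgroup Γ), K ≤ M → NIn K ⊤ →
  NIn M ⊤ → ∀ θ ∈ IrrS K, (∀ g, cj g θ = θ) →
  (kk ⊤ θ : ℝ) = ∑ᶠ φ ∈ Ab M θ, (kk ⊤ φ : ℝ) / (stab ⊤ φ).index ∧
  dd ⊤ θ = ∑ᶠ φ ∈ Ab M θ, dd ⊤ φ / (stab ⊤ φ).index

/-- PRI: normal subgroups of prime index -/
def T_PRI : Prop := ∀ (Γ : Type) [Group Γ] [Fintype Γ] (V : Subgroup Γ), NIn V ⊤ →
  V.index.Prime → ∀ χ ∈ IrrS V, ((∀ g, cj g χ = χ) → kk ⊤ χ = V.index) ∧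
  ((¬ ∀ g, cj g χ = χ) → kk ⊤ χ = 1 ∧ stab ⊤ χ = V)

/-- PIX: subgroups -/
def T_PIX : Prop := ∀ (Γ : Type) [Group Γ] [Fintype Γ] (M V : Subgroup Γ), M ≤ V →
  ∀ ψ ∈ IrrS M, kk ⊤ ψ ≤ V.index * kk V ψ

end FI
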