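import Pool.Agent.H6.FIB.TargetsP

/-!
# MP_7500ea_al, board fib_modules: targets R (central extensions of `PSL(2, q)`)
-/

open scoped Classical ComplexConjugate

namespace FI

open AMc AMt

/-- `S ≤ A`, `q ≥ 7` prime, `|S| = q (q ^ 2 - 1) / 2`, `U` of order `q` with normaliser `B` -/
structure Q2 (q : ℕ) (A : Type) [Group A] (S U B : Subgroup A) : Prop where
  pri : q.Prime
  sev : 7 ≤ q
  alm : Al A S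
  crd : 2 * Nat.card S = q * (q * q - 1)
  US : U ≤ S
  UB : U ≤ B
  nor : ∀ b ∈ B, ∀ u ∈ U, b * u * b⁻¹ ∈ U
  crU : Nat.card U = q
  crB : 2 * Nat.card (B ⊓ S : Subgroup A) = q * (q - 1)
  ti : ∀ a ∈ S, a ∉ B → ∀ u ∈ U, a * u * a⁻¹ ∈ U → u = 1
  reg : ∀ b ∈ B, ∀ u ∈ U, u ≠ 1 → b * u = u * b → b ∈ U
  two : S.index = 1 ∨ (S.index = 2 ∧ ∃ b ∈ B, b ∉ S)

section

variable {Γ : Type} [Group Γ] [Fintype Γ]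

/-- the multiplicity of `α` in the restriction of `χ` to the subgroup `P` -/
noncomputable def ml (P : Subgroup Γ) (χ α : Γ → ℂ) : ℂ :=
  (∑ g, χ g * conj (α g)) / (Nat.card P : ℂ)

/-- the characters `α0`, `α1`, `α2` represent the orbits of `N` on the characters of `P` over
`ν` -/
structure PA (P N : Subgroup Γ) (ν α0 α1 α2 : Γ → ℂ) : Prop where
  m0 : α0 ∈ Ab P ν
  m1 : α1 ∈ Ab P ν
  m2 : α2 ∈ Ab P ν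
  inv : ∀ b ∈ N, cj b α0 = α0
  all : ∀ α ∈ Ab P ν, α = α0 ∨ (∃ b ∈ N, α = cj b α1) ∨ (∃ b ∈ N, α = cj b α2)
  n1 : ∀ b ∈ N, cj b α1 ≠ α0
  n2 : ∀ b ∈ N, cj b α2 ≠ α0
  n12 : ∀ b ∈ N, cj b α1 ≠ α2
  s1 : ∀ b ∈ N, cj b α1 = α1 → b ∈ P
  s2 : ∀ b ∈ N, cj b α2 = α2 → b ∈ P

end

/-- TIM: multiplicities of characters of a subgroup with trivial intersections modulo `Z` -/
def T_TIM : Prop := ∀ (Γ : Type) [Group Γ] [Fintype Γ] (Z P N : Subgroup Γ), Z ≤ P → P ≤ N →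
  (∀ z ∈ Z, ∀ g, z * g = g * z) → (∀ a ∈ P, ∀ b ∈ P, a * b = b * a) →
  (∀ g ∈ N, ∀ x ∈ P, g * x * g⁻¹ ∈ P) →
  (∀ g, g ∉ N → ∀ x ∈ P, g * x * g⁻¹ ∈ P → x ∈ Z) →
  ∀ ν ∈ IrrS Z, ∀ α ∈ Ab P ν, ∀ β ∈ Ab P ν,
  ∑ᶠ χ ∈ Ab ⊤ ν, ml P χ α * ml P χ β =
    ((Nat.card Γ : ℂ) - Nat.card N) * Nat.card Z / (Nat.card P * Nat.card P : ℂ) +
      (Nat.card {b : N // cj (b : Γ) α = β} : ℂ) / (Nat.card P : ℂ)

/-- RSM: restriction to an abelian subgroup -/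
def T_RSM : Prop := ∀ (Γ : Type) [Group Γ] [Fintype Γ] (Z P : Subgroup Γ), Z ≤ P →
  (∀ z ∈ Z, ∀ g, z * g = g * z) → (∀ a ∈ P, ∀ b ∈ P, a * b = b * a) →
  ∀ ν ∈ IrrS Z, ∀ χ ∈ Ab ⊤ ν,
  (∀ α ∈ Ab P ν, ∃ k : ℕ, ml P χ α = k) ∧
  (∀ x ∈ P, χ x = ∑ᶠ α ∈ Ab P ν, ml P χ α * α x) ∧
  χ 1 = ∑ᶠ α ∈ Ab P ν, ml P χ α ∧
  ∀ (α : Γ → ℂ) (b : Γ), ml P χ (cj b α) = ml P χ α

/-- PAB: the subgroups of the central extension -/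
def T_PAB : Prop := ∀ (q : ℕ) (A : Type) [Group A] [Finite A] (S U B : Subgroup A),
  Q2 q A S U B → ∀ (M : Type) [Group M] [Fintype M] (π : M →* A), π.range = S →
  π.ker ≤ Subgroup.center M →
  π.ker ≤ U.comap π ∧ U.comap π ≤ B.comap π ∧
  (∀ a ∈ U.comap π, ∀ b ∈ U.comap π, a * b = b * a) ∧
  (∀ g ∈ B.comap π, ∀ x ∈ U.comap π, g * x * g⁻¹ ∈ U.comap π) ∧
  (∀ g, g ∉ B.comap π → ∀ x ∈ U.comap π, g * x * g⁻¹ ∈ U.comap π → x ∈ π.ker) ∧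
  Nat.card (U.comap π) = Nat.card π.ker * q ∧
  2 * Nat.card (B.comap π) = Nat.card π.ker * (q * (q - 1)) ∧
  2 * Nat.card M = Nat.card π.ker * (q * (q * q - 1))

/-- PAC: the characters of the abelian subgroup -/
def T_PAC : Prop := ∀ (q : ℕ) (A : Type) [Group A] [Finite A] (S U B : Subgroup A),
  Q2 q A S U B → ∀ (M : Type) [Group M] [Fintype M] (π : M →* A), π.range = S →
  π.ker ≤ Subgroup.center M → ∀ ν ∈ IrrS π.ker,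
  ∃ α0 α1 α2 : M → ℂ, PA (U.comap π) (B.comap π) ν α0 α1 α2

/-- PAS: the action of an outer automorphism -/
def T_PAS : Prop := ∀ (q : ℕ) (A : Type) [Group A] [Finite A] (S U B : Subgroup A),
  Q2 q A S U B → ∀ (M : Type) [Group M] [Fintype M] (π : M →* A), π.range = S →
  π.ker ≤ Subgroup.center M → ∀ ν ∈ IrrS π.ker,
  ∀ α0 α1 α2 : M → ℂ, PA (U.comap π) (B.comap π) ν α0 α1 α2 →
  ∀ (σ : M ≃* M) (a : A), a ∈ B → a ∉ S → (∀ z ∈ π.ker, σ z = z) →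
  (∀ m, π (σ m) = a * π m * a⁻¹) →
  ∃ b ∈ B.comap π, (fun m => α2 (σ m)) = cj b α1

/-- ZCH: characters which are scalar on a non-central subgroup -/
def T_ZCH : Prop := ∀ (A : Type) [Group A] [Finite A] (S : Subgroup A), Al A S →
  ∀ (M : Type) [Group M] [Fintype M] (π : M →* A), π.range = S →
  π.ker ≤ Subgroup.center M →
  ∀ χ ∈ IrrS (⊤ : Subgroup M), ∀ (P : Subgroup M) (α : M → ℂ), α ∈ IrrS P →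
  (∀ a ∈ P, ∀ b ∈ P, a * b = b * a) → (∀ x ∈ P, χ x = χ 1 * α x) → (∃ x ∈ P, π x ≠ 1) →
  χ 1 = 1

/-- LUN: linear characters over `ν` -/
def T_LUN : Prop := ∀ (A : Type) [Group A] [Finite A] (S : Subgroup A), Al A S →
  ∀ (M : Type) [Group M] [Fintype M] (π : M →* A), π.range = S →
  π.ker ≤ Subgroup.center M → ∀ ν ∈ IrrS π.ker, ∀ χ ∈ Ab ⊤ ν, ∀ χ' ∈ Ab ⊤ ν,
  χ 1 = 1 → χ' 1 = 1 → χ = χ'

/-- SIG: automorphisms -/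
def T_SIG : Prop := ∀ (M : Type) [Group M] [Fintype M] (Z : Subgroup M) (σ : M ≃* M),
  (∀ z ∈ Z, σ z = z) → ∀ ν ∈ IrrS Z, ∀ χ ∈ Ab ⊤ ν, (fun m => χ (σ m)) ∈ Ab ⊤ ν

/-- IOA: the two definitions of the set of characters over `θ` -/
def T_IOA : Prop := ∀ (G : Type) [Group G] [Fintype G] (N : Subgroup G), ∀ θ ∈ Irr N,
  ext0 N θ ∈ IrrS N ∧ IrrO N θ = Ab ⊤ (ext0 N θ) ∧ (IrrO N θ).Finite ∧
  acd N θ * (IrrO N θ).ncard = ∑ᶠ χ ∈ IrrO N θ, (χ 1).re ∧ 0 < (IrrO N θ).ncard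

/-- MUL: the multiplicities -/
def T_MUL : Prop := ∀ (q : ℕ) (A : Type) [Group A] [Finite A] (S U B : Subgroup A),
  Q2 q A S U B → ∀ (M : Type) [Group M] [Fintype M] (π : M →* A), π.range = S →
  π.ker ≤ Subgroup.center M → ∀ ν ∈ IrrS π.ker,
  ∃ (F : Finset (M → ℂ)) (l m1 m2 : (M → ℂ) → ℕ), (∀ χ, χ ∈ F ↔ χ ∈ Ab ⊤ ν) ∧
    (∀ χ ∈ F, 2 * (χ 1).re = 2 * l χ + (q - 1) * (m1 χ + m2 χ)) ∧
    ∑ χ ∈ F, l χ * l χ + 1 = q ∧ 2 * ∑ χ ∈ F, l χ * m1 χ + 1 = q ∧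
    2 * ∑ χ ∈ F, l χ * m2 χ + 1 = q ∧ 2 * ∑ χ ∈ F, m1 χ * m1 χ = q + 1 ∧
    2 * ∑ χ ∈ F, m2 χ * m2 χ = q + 1 ∧ 2 * ∑ χ ∈ F, m1 χ * m2 χ + 1 = q ∧
    (∀ χ ∈ F, m1 χ = 0 → m2 χ = 0 → χ 1 = 1) ∧
    ∀ (σ : M ≃* M) (a : A), a ∉ S → (∀ z ∈ π.ker, σ z = z) →
      (∀ m, π (σ m) = a * π m * a⁻¹) → ∀ χ ∈ F, (fun m => χ (σ m)) = χ → m1 χ = m2 χ

/-- the conditions on the multiplicities -/
structure Mu (q : ℕ) {ι : Type} (F : Finset ι) (l m1 m2 : ι → ℕ) : Prop where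
  pri : q.Prime
  sev : 7 ≤ q
  ll : ∑ i ∈ F, l i * l i + 1 = q
  l1 : 2 * ∑ i ∈ F, l i * m1 i + 1 = q
  l2 : 2 * ∑ i ∈ F, l i * m2 i + 1 = q
  m11 : 2 * ∑ i ∈ F, m1 i * m1 i = q + 1
  m22 : 2 * ∑ i ∈ F, m2 i * m2 i = q + 1
  m12 : 2 * ∑ i ∈ F, m1 i * m2 i + 1 = q
  lin : ∀ i ∈ F, m1 i = 0 → m2 i = 0 → l i = 1
  uni : ∀ i ∈ F, ∀ j ∈ F, m1 i = 0 → m2 i = 0 → m1 j = 0 → m2 j = 0 → i = j

/-- the degree -/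
noncomputable def dg (q : ℕ) {ι : Type} (l m1 m2 : ι → ℕ) (i : ι) : ℝ :=
  l i + (q - 1) / 2 * (m1 i + m2 i)

/-- NU1: numerical, `PSL(2, q)` -/
def T_NU1 : Prop := ∀ (q : ℕ) (ι : Type) (F : Finset ι) (l m1 m2 : ι → ℕ), Mu q F l m1 m2 →
  ((q : ℝ) * (q * q - 1) / 2) ^ ((25 : ℝ) / 91) * F.card ≤ ∑ i ∈ F, dg q l m1 m2 i

/-- NU2: numerical, `PGL(2, q)` -/
def T_NU2 : Prop := ∀ (q : ℕ) (ι : Type) (F G D : Finset ι) (l m1 m2 : ι → ℕ),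
  Mu q F l m1 m2 → G ⊆ F → (∀ i, i ∈ D ↔ i ∈ F ∧ i ∉ G) → (∀ i ∈ G, m1 i = m2 i) →
  (∀ i ∈ F, m1 i = 0 → m2 i = 0 → i ∈ G) →
  ((q : ℝ) * (q * q - 1)) ^ ((25 : ℝ) / 91) * (2 * G.card + (D.card : ℝ) / 2) ≤
      2 * ∑ i ∈ G, dg q l m1 m2 i + ∑ i ∈ D, dg q l m1 m2 i ∧
  ((q : ℝ) * (q * q - 1)) ^ ((25 : ℝ) / 91) * ((D.card : ℝ) / 2) ≤
    ∑ i ∈ D, dg q l m1 m2 i

/-- CHQ: the conditions on the characters for `PSL(2, q)` and `PGL(2, q)` -/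
def T_CHQ : Prop := ∀ (q : ℕ) (A : Type) [Group A] [Finite A] (S U B : Subgroup A),
  Q2 q A S U B → ∀ e : ℝ, 91 / 25 ≤ e → Ch e A S

end FI
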